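import Pool.Agent.K3h83.CI.RM

/-!
# Heavy and light pairs, types of edges, blocks
-/

set_option autoImplicit false
set_option linter.unusedSectionVars false

namespace K3h83.CI

open Finset

section
variable {V ι : Type} [Fintype V] [DecidableEq V] [Fintype ι] [DecidableEq ι]

/-- simple 3-uniform hypergraph with maximum degree at most `t` -/
structure Hyp3 (ev : ι → Finset V) (t : ℕ) : Prop where
  inj : Function.Injective ev
  card3 : ∀ f, (ev f).card = 3
  deg : ∀ v, (univ.filter (fun f => v ∈ ev f)).card ≤ t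

/-- codegree -/
def cd (ev : ι → Finset V) (p : Finset V) : ℕ := (univ.filter (fun f => p ⊆ ev f)).card

/-- `p` is the heavy pair of the edge `f`, the other two pairs being light -/
def isI (ev : ι → Finset V) (a b : ℝ) (f : ι) (p : Finset V) : Prop :=
  p ⊆ ev f ∧ p.card = 2 ∧ a ≤ cd ev p ∧ ∀ q ⊆ ev f, q.card = 2 → q ≠ p → (cd ev q : ℝ) < b

/-- all pairs of `f` are light -/
def is0 (ev : ι → Finset V) (b : ℝ) (f : ι) : Prop :=
  ∀ q ⊆ ev f, q.card = 2 → (cd ev q : ℝ) < b

open Classical in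
/-- multiplicities of the heavy pairs -/
noncomputable def mmf (ev : ι → Finset V) (a b : ℝ) (u v : V) : ℕ :=
  (univ.filter (fun f => u ≠ v ∧ isI ev a b f {u, v})).card

variable {ev : ι → Finset V} {a b : ℝ} {t : ℕ}

theorem isI_unique (hab : b ≤ a) {f : ι} {p q : Finset V} (hp : isI ev a b f p)
    (hq : isI ev a b f q) : p = q := by
  by_contra hne
  have := hp.2.2.2 q hq.1 hq.2.1 (Ne.symm hne)
  have := hq.2.2.1
  linarith

theorem isI_not_is0 (hab : b ≤ a) {f : ι} {p : Finset V} (hp : isI ev a b f p) :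
    ¬ is0 ev b f := by
  intro h
  have := h p hp.1 hp.2.1
  have := hp.2.2.1
  linarith

theorem mmf_symm (u v : V) : mmf ev a b u v = mmf ev a b v u := by
  unfold mmf
  congr 1
  ext f
  simp only [mem_filter, mem_univ, true_and]
  rw [pair_comm u v, ne_comm]

theorem mmf_pos {u v : V} (h : 0 < mmf ev a b u v) : u ≠ v ∧ ∃ f, isI ev a b f {u, v} := by
  classical
  unfold mmf at h
  obtain ⟨f, hf⟩ := card_pos.1 h
  rw [mem_filter] at hf
  exact ⟨hf.2.1, f, hf.2.2⟩

theorem mmf_pos' {u v : V} (huv : u ≠ v) {f : ι} (h : isI ev a b f {u, v}) :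
    0 < mmf ev a b u v := by
  classical
  unfold mmf
  refine card_pos.2 ⟨f, ?_⟩
  rw [mem_filter]
  exact ⟨mem_univ _, huv, h⟩

/-- the degree split -/
theorem mmf_row (hab : b ≤ a) (h3 : Hyp3 ev t) (v : V) (T : Finset ι)
    (hT : ∀ f ∈ T, v ∈ ev f ∧ ∀ u, ¬ isI ev a b f {v, u}) :
    ∑ u ∈ univ.filter (fun u => u ≠ v), mmf ev a b v u + T.card ≤ t := by
  classical
  set U : Finset ι := univ.filter (fun f => v ∈ ev f ∧ ∃ u, isI ev a b f {v, u}) with hU
  have h1 : ∑ u ∈ univ.filter (fun u => u ≠ v), mmf ev a b v u ≤ U.card := by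
    have h2 : ∑ u ∈ univ.filter (fun u => u ≠ v), mmf ev a b v u =
        ((univ.filter (fun u : V => u ≠ v)).sigma (fun u => univ.filter
          (fun f => v ≠ u ∧ isI ev a b f {v, u}))).card := by
      rw [card_sigma]
      unfold mmf
      rfl
    rw [h2]
    apply card_le_card_of_injOn (fun x => x.2)
    · rintro ⟨u, f⟩ hx
      simp only [coe_sigma, Set.mem_sigma_iff, mem_coe, mem_filter, mem_univ, true_and] at hx
      simp only [hU, coe_filter, mem_univ, true_and, Set.mem_ofPred_eq]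
      exact ⟨hx.2.2.1 (by simp), u, hx.2.2⟩
    · rintro ⟨u, f⟩ hx ⟨u', f'⟩ hx' hff
      simp only [coe_sigma, Set.mem_sigma_iff, mem_coe, mem_filter, mem_univ, true_and] at hx hx'
      simp only at hff
      subst hff
      have := isI_unique hab hx.2.2 hx'.2.2
      have h4 : u ∈ ({v, u'} : Finset V) := by rw [← this]; simp
      rw [mem_insert, mem_singleton] at h4
      rcases h4 with h4 | h4
      · exact absurd h4 hx.1
      · subst h4; rfl
  have h5 : Disjoint U T := by
    rw [disjoint_left]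
    intro f hf hf'
    simp only [hU, mem_filter, mem_univ, true_and] at hf
    obtain ⟨-, u, hu⟩ := hf
    exact (hT f hf').2 u hu
  have h6 : U ∪ T ⊆ univ.filter (fun f => v ∈ ev f) := by
    intro f hf
    rw [mem_filter]
    rcases mem_union.1 hf with h | h
    · simp only [hU, mem_filter, mem_univ, true_and] at h
      exact ⟨mem_univ _, h.1⟩
    · exact ⟨mem_univ _, (hT f h).1⟩
  have h7 := card_le_card h6
  rw [card_union_of_disjoint h5] at h7
  have := h3.deg v
  omega

/-- number of heavy neighbours -/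
theorem heavy_card (h3 : Hyp3 ev t) (v : V) (ha : 0 < a) :
    ((univ.filter (fun u : V => u ≠ v ∧ a ≤ cd ev {v, u})).card : ℝ) * a ≤ 2 * t := by
  classical
  have h1 : ∑ u ∈ univ.filter (fun u : V => u ≠ v), cd ev {v, u} ≤ 2 * t := by
    have h2 : ∑ u ∈ univ.filter (fun u : V => u ≠ v), cd ev {v, u} =
        ∑ f, ((univ.filter (fun u : V => u ≠ v)).filter (fun u => {v, u} ⊆ ev f)).card := by
      unfold cd
      simp_rw [card_filter]
      rw [sum_comm]
    rw [h2]
    have h3' : ∀ f, ((univ.filter (fun u : V => u ≠ v)).filter (fun u => {v, u} ⊆ ev f)).card ≤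
        if v ∈ ev f then 2 else 0 := by
      intro f
      split_ifs with hv
      · have : (univ.filter (fun u : V => u ≠ v)).filter (fun u => {v, u} ⊆ ev f) ⊆
            (ev f).erase v := by
          intro u hu
          simp only [mem_filter, mem_univ, true_and] at hu
          rw [mem_erase]
          exact ⟨hu.1, hu.2 (by simp)⟩
        have h4 := card_le_card this
        rw [card_erase_of_mem hv, h3.card3 f] at h4
        exact h4
      · rw [Nat.le_zero, card_eq_zero, filter_eq_empty_iff]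
        intro u _ hu
        exact hv (hu (by simp))
    refine (sum_le_sum fun f _ => h3' f).trans ?_
    rw [← sum_filter, sum_const, smul_eq_mul]
    have := h3.deg v
    omega
  have h5 : ((univ.filter (fun u : V => u ≠ v ∧ a ≤ cd ev {v, u})).card : ℝ) * a ≤
      ∑ u ∈ univ.filter (fun u : V => u ≠ v), (cd ev {v, u} : ℝ) := by
    rw [← nsmul_eq_mul]
    refine le_trans (card_nsmul_le_sum _ (fun u => (cd ev {v, u} : ℝ)) a fun u hu => ?_) ?_
    · rw [mem_filter] at hu
      exact hu.2.2
    · apply sum_le_sum_of_subset_of_nonneg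
      · intro u hu
        rw [mem_filter] at hu ⊢
        exact ⟨hu.1, hu.2.1⟩
      · intro u _ _
        positivity
  refine h5.trans ?_
  exact_mod_cast h1

open Classical in
/-- the blocks of an edge -/
noncomputable def Ab (ev : ι → Finset V) (a b : ℝ) (f : ι) : Finset (Finset V) :=
  if h : ∃ p, isI ev a b f p then {h.choose, ev f \ h.choose}
  else (ev f).image (fun x => {x})

theorem Ab_I (hab : b ≤ a) {f : ι} {p : Finset V} (hp : isI ev a b f p) :
    Ab ev a b f = {p, ev f \ p} := by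
  unfold Ab
  have h : ∃ p, isI ev a b f p := ⟨p, hp⟩
  rw [dif_pos h, isI_unique hab h.choose_spec hp]

theorem Ab_0 {f : ι} (h : ¬ ∃ p, isI ev a b f p) :
    Ab ev a b f = (ev f).image (fun x => {x}) := by
  unfold Ab
  rw [dif_neg h]

theorem Ab_rest_card (h3 : Hyp3 ev t) {f : ι} {p : Finset V} (hp : isI ev a b f p) :
    (ev f \ p).card = 1 := by
  rw [card_sdiff_of_subset hp.1, h3.card3, hp.2.1]

theorem Ab_sub (hab : b ≤ a) (h3 : Hyp3 ev t) {f : ι} {c : Finset V} (hc : c ∈ Ab ev a b f) :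
    c.Nonempty ∧ c ⊆ ev f := by
  by_cases h : ∃ p, isI ev a b f p
  · obtain ⟨p, hp⟩ := h
    rw [Ab_I hab hp, mem_insert, mem_singleton] at hc
    rcases hc with rfl | rfl
    · refine ⟨?_, hp.1⟩
      rw [← card_pos, hp.2.1]
      norm_num
    · refine ⟨?_, sdiff_subset⟩
      rw [← card_pos, Ab_rest_card h3 hp]
      norm_num
  · rw [Ab_0 h, mem_image] at hc
    obtain ⟨x, hx, rfl⟩ := hc
    exact ⟨singleton_nonempty x, singleton_subset_iff.2 hx⟩

theorem Ab_nonempty (hab : b ≤ a) (h3 : Hyp3 ev t) (f : ι) : (Ab ev a b f).Nonempty := by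
  by_cases h : ∃ p, isI ev a b f p
  · obtain ⟨p, hp⟩ := h
    rw [Ab_I hab hp]
    exact insert_nonempty _ _
  · rw [Ab_0 h]
    apply Nonempty.image
    rw [← card_pos, h3.card3]
    norm_num

theorem Ab_card (hab : b ≤ a) (h3 : Hyp3 ev t) (f : ι) : (Ab ev a b f).card ≤ 3 := by
  by_cases h : ∃ p, isI ev a b f p
  · obtain ⟨p, hp⟩ := h
    rw [Ab_I hab hp]
    exact card_le_two.trans (by norm_num)
  · rw [Ab_0 h]
    exact card_image_le.trans (h3.card3 f).le

theorem Ab_cover (hab : b ≤ a) {f : ι} {v : V} (hv : v ∈ ev f) :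
    ∃ c ∈ Ab ev a b f, v ∈ c := by
  by_cases h : ∃ p, isI ev a b f p
  · obtain ⟨p, hp⟩ := h
    rw [Ab_I hab hp]
    by_cases hvp : v ∈ p
    · exact ⟨p, by simp, hvp⟩
    · exact ⟨ev f \ p, by simp, mem_sdiff.2 ⟨hv, hvp⟩⟩
  · rw [Ab_0 h]
    exact ⟨{v}, mem_image_of_mem _ hv, mem_singleton_self v⟩

theorem Ab_disj (hab : b ≤ a) {f : ι} {c c' : Finset V} (hc : c ∈ Ab ev a b f)
    (hc' : c' ∈ Ab ev a b f) (hne : c ≠ c') : Disjoint c c' := by
  by_cases h : ∃ p, isI ev a b f p
  · obtain ⟨p, hp⟩ := h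
    rw [Ab_I hab hp, mem_insert, mem_singleton] at hc hc'
    rcases hc with rfl | rfl <;> rcases hc' with rfl | rfl
    · exact absurd rfl hne
    · exact disjoint_sdiff
    · exact sdiff_disjoint
    · exact absurd rfl hne
  · rw [Ab_0 h, mem_image] at hc hc'
    obtain ⟨x, -, rfl⟩ := hc
    obtain ⟨y, -, rfl⟩ := hc'
    rw [disjoint_singleton]
    rintro rfl
    exact hne rfl

/-- block cards: a block is a singleton or the heavy pair -/
theorem Ab_cases (hab : b ≤ a) (h3 : Hyp3 ev t) {f : ι} {c : Finset V}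
    (hc : c ∈ Ab ev a b f) : isI ev a b f c ∨ (∃ v, c = {v} ∧ ∀ u, ¬ isI ev a b f {v, u}) := by
  by_cases h : ∃ p, isI ev a b f p
  · obtain ⟨p, hp⟩ := h
    rw [Ab_I hab hp, mem_insert, mem_singleton] at hc
    rcases hc with rfl | rfl
    · exact Or.inl hp
    · right
      obtain ⟨z, hz⟩ := card_eq_one.1 (Ab_rest_card h3 hp)
      refine ⟨z, hz, fun u hu => ?_⟩
      have h1 := isI_unique hab hp hu
      have h2 : z ∈ ev f \ p := by rw [hz]; simp
      rw [mem_sdiff] at h2
      apply h2.2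
      rw [h1]
      simp
  · rw [Ab_0 h, mem_image] at hc
    obtain ⟨x, -, rfl⟩ := hc
    exact Or.inr ⟨x, rfl, fun u hu => h ⟨_, hu⟩⟩

/-- pairs leaving a block are light -/
theorem Ab_light (hab : b ≤ a) (h3 : Hyp3 ev t) {f : ι} {v y : V}
    (hc : {v} ∈ Ab ev a b f) (hgood : is0 ev b f ∨ ∃ p, isI ev a b f p) (hy : y ∈ ev f)
    (hyv : y ≠ v) : (cd ev {v, y} : ℝ) < b := by
  have hv : v ∈ ev f := (Ab_sub hab h3 hc).2 (mem_singleton_self v)
  have hsub : ({v, y} : Finset V) ⊆ ev f := by
    intro x hx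
    rw [mem_insert, mem_singleton] at hx
    rcases hx with rfl | rfl
    · exact hv
    · exact hy
  have hcard : ({v, y} : Finset V).card = 2 := card_pair hyv.symm
  rcases hgood with h0 | ⟨p, hp⟩
  · exact h0 _ hsub hcard
  · refine hp.2.2.2 _ hsub hcard ?_
    intro hpe
    rcases Ab_cases hab h3 hc with h1 | ⟨w, hw, h1⟩
    · have := h1.2.1
      simp at this
    · rw [singleton_inj] at hw
      subst hw
      exact h1 y (hpe ▸ hp)

/-- few good edges at a block contain a given further vertex -/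
theorem Ab_codeg (hab : b ≤ a) (h3 : Hyp3 ev t) (hb1 : 1 ≤ b) (c : Finset V) (y : V) (hy : y ∉ c)
    (G : Finset ι) (hG : ∀ f ∈ G, is0 ev b f ∨ ∃ p, isI ev a b f p) :
    ((G.filter (fun f => c ∈ Ab ev a b f ∧ y ∈ ev f)).card : ℝ) ≤ b := by
  by_cases hne : (G.filter (fun f => c ∈ Ab ev a b f ∧ y ∈ ev f)).Nonempty
  · obtain ⟨f₀, hf₀⟩ := hne
    rw [mem_filter] at hf₀
    rcases Ab_cases hab h3 hf₀.2.1 with h1 | ⟨v, rfl, h1⟩
    · refine le_trans ?_ hb1
      have : (G.filter (fun f => c ∈ Ab ev a b f ∧ y ∈ ev f)).card ≤ 1 := by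
        rw [card_le_one]
        have key : ∀ f ∈ G.filter (fun f => c ∈ Ab ev a b f ∧ y ∈ ev f), ev f = insert y c := by
          intro f hf
          rw [mem_filter] at hf
          symm
          apply eq_of_subset_of_card_le
          · intro x hx
            rcases mem_insert.1 hx with rfl | hx
            · exact hf.2.2
            · exact (Ab_sub hab h3 hf.2.1).2 hx
          · rw [h3.card3, card_insert_of_notMem hy, h1.2.1]
        intro f hf g hg
        exact h3.inj ((key f hf).trans (key g hg).symm)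
      exact_mod_cast this
    · have hyv : y ≠ v := fun h => hy (by rw [h]; simp)
      have h2 := Ab_light hab h3 hf₀.2.1 (hG f₀ hf₀.1) hf₀.2.2 hyv
      refine le_trans ?_ h2.le
      unfold cd
      have : (G.filter (fun f => {v} ∈ Ab ev a b f ∧ y ∈ ev f)) ⊆
          univ.filter (fun f => ({v, y} : Finset V) ⊆ ev f) := by
        intro f hf
        rw [mem_filter] at hf ⊢
        refine ⟨mem_univ _, ?_⟩
        intro x hx
        rw [mem_insert, mem_singleton] at hx
        rcases hx with rfl | rfl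
        · exact (Ab_sub hab h3 hf.2.1).2 (mem_singleton_self _)
        · exact hf.2.2
      exact_mod_cast card_le_card this
  · rw [not_nonempty_iff_eq_empty] at hne
    rw [hne]
    simp
    linarith

end

end K3h83.CI
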