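import Pool.Agent.K3h83.CI.A1

/-!
# Stage A: availability of edges, loads and their second moments
-/

set_option autoImplicit false
set_option linter.unusedSectionVars false

namespace K3h83.CI

open Finset

section
variable {V ι : Type} [Fintype V] [DecidableEq V] [Fintype ι] [DecidableEq ι]

/-- the dependency ball of a vertex -/
noncomputable def Bl (ev : ι → Finset V) (a b : ℝ) (R : ℕ) (u : V) : Finset V :=
  ball (GG (mmf ev a b)) R u

/-- union of dependency balls -/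
noncomputable def Bs (ev : ι → Finset V) (a b : ℝ) (R : ℕ) (X : Finset V) : Finset V :=
  X.biUnion (Bl ev a b R)

/-- everything needed about the random matching `h` -/
structure Ctx {I : Type} [Fintype I] [DecidableEq I] {n : ℕ} (ev : ι → Finset V) (t : ℕ)
    (a b θ : ℝ) (R : ℕ) (p₀ : ℝ) (β : ℕ) (μ : I → Fin (n + 2) → ℝ) (lo : I → Finset V)
    (h : (I → Fin (n + 2)) → V → V) : Prop where
  hab : b ≤ a
  hb1 : 1 ≤ b
  ht : 0 < t
  h3 : Hyp3 ev t
  hμ : Pr μ
  hθ : 0 < θ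
  hθ1 : θ ≤ 1 / 4
  hp0 : 0 < p₀
  hp1 : p₀ ≤ 1
  inv : ∀ ω u, h ω (h ω u) = u
  dep : ∀ u, Dep (fun ω => h ω u) (sup lo (Bl ev a b R u))
  low : ∀ u v, u ≠ v → 2 / 3 * (1 - θ / 2) * ((mmf ev a b u v : ℝ) / t) ≤
    PP μ (fun ω => h ω u = v)
  low' : ∀ u v, u ≠ v → 0 < mmf ev a b u v → p₀ ≤ PP μ (fun ω => h ω u = v)
  fix : ∀ u, 1 - 2 / 3 * ((∑ v ∈ univ.filter (fun v => v ≠ u), (mmf ev a b u v : ℝ)) / t) -
    θ / 2 ≤ PP μ (fun ω => h ω u = u)
  fix3 : ∀ T : Finset V, T.card ≤ 3 → p₀ ≤ PP μ (fun ω => ∀ x ∈ T, h ω x = x)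
  near : ∀ u, (univ.filter (fun x => ¬ Disjoint (Bl ev a b R x) (Bl ev a b R u))).card ≤ β

/-- `c` is a block of the involution `h` -/
def OO (h : V → V) (c : Finset V) : Prop := ∀ u ∈ c, ({u, h u} : Finset V) = c

/-- the edge `f` is available for `h` -/
def Av (ev : ι → Finset V) (a b : ℝ) (h : V → V) (f : ι) : Prop := ∀ c ∈ Ab ev a b f, OO h c

/-- the remaining blocks of `f` -/
def Rf (ev : ι → Finset V) (a b : ℝ) (h : V → V) (f : ι) (c : Finset V) : Prop :=
  ∀ c' ∈ Ab ev a b f, c' ≠ c → OO h c'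

/-- good edges -/
def Gd (ev : ι → Finset V) (a b : ℝ) (R : ℕ) (f : ι) : Prop :=
  is0 ev b f ∨ ∃ p, isI ev a b f p ∧
    ∀ x ∈ p, ∀ z ∈ ev f \ p, Disjoint (Bl ev a b R x) (Bl ev a b R z)

theorem Gd_or {ev : ι → Finset V} {a b : ℝ} {R : ℕ} {f : ι} (h : Gd ev a b R f) :
    is0 ev b f ∨ ∃ p, isI ev a b f p := by
  rcases h with h | ⟨p, hp, -⟩
  · exact Or.inl h
  · exact Or.inr ⟨p, hp⟩

open Classical in
/-- good edges at a block -/
noncomputable def Db (ev : ι → Finset V) (a b : ℝ) (R : ℕ) (c : Finset V) : Finset ι :=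
  univ.filter (fun f => Gd ev a b R f ∧ c ∈ Ab ev a b f)

theorem mem_Db {ev : ι → Finset V} {a b : ℝ} {R : ℕ} {c : Finset V} {f : ι} :
    f ∈ Db ev a b R c ↔ Gd ev a b R f ∧ c ∈ Ab ev a b f := by
  unfold Db
  simp

variable {I : Type} [Fintype I] [DecidableEq I] {n : ℕ} {ev : ι → Finset V} {t : ℕ}
    {a b θ : ℝ} {R : ℕ} {p₀ : ℝ} {β : ℕ} {μ : I → Fin (n + 2) → ℝ} {lo : I → Finset V}
    {h : (I → Fin (n + 2)) → V → V}

theorem OO_single (g : V → V) (x : V) : OO g {x} ↔ g x = x := by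
  unfold OO
  constructor
  · intro hh
    have := hh x (mem_singleton_self x)
    have h2 : g x ∈ ({x, g x} : Finset V) := by simp
    rw [this, mem_singleton] at h2
    exact h2
  · intro hh u hu
    rw [mem_singleton] at hu
    subst hu
    rw [hh]
    simp

theorem OO_pair {g : V → V} (hg : ∀ x, g (g x) = x) {x y : V} (hxy : x ≠ y) :
    OO g {x, y} ↔ g x = y := by
  unfold OO
  constructor
  · intro hh
    have := hh x (by simp)
    have h2 : y ∈ ({x, g x} : Finset V) := by rw [this]; simp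
    rw [mem_insert, mem_singleton] at h2
    rcases h2 with h2 | h2
    · exact absurd h2.symm hxy
    · exact h2.symm
  · intro hh u hu
    rw [mem_insert, mem_singleton] at hu
    rcases hu with rfl | rfl
    · rw [hh]
    · have : g u = x := by rw [← hh, hg]
      rw [this, pair_comm]

theorem Av_iff (g : V → V) {f : ι} {c : Finset V} (hc : c ∈ Ab ev a b f) :
    Av ev a b g f ↔ OO g c ∧ Rf ev a b g f c := by
  unfold Av Rf
  constructor
  · intro hh
    exact ⟨hh c hc, fun c' hc' _ => hh c' hc'⟩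
  · rintro ⟨h1, h2⟩ c' hc'
    by_cases he : c' = c
    · rw [he]; exact h1
    · exact h2 c' hc' he

theorem card_le_mmf {x y : V} (S : Finset ι) (hS : ∀ f ∈ S, x ≠ y ∧ isI ev a b f {x, y}) :
    S.card ≤ mmf ev a b x y := by
  classical
  unfold mmf
  apply card_le_card
  intro f hf
  rw [mem_filter]
  exact ⟨mem_univ _, hS f hf⟩

theorem Bs_mono {X Y : Finset V} (hXY : X ⊆ Y) : Bs ev a b R X ⊆ Bs ev a b R Y :=
  biUnion_subset_biUnion_of_subset_left _ hXY

theorem Ctx.O_dep (H : Ctx ev t a b θ R p₀ β μ lo h) (c : Finset V) :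
    Dep (fun ω => OO (h ω) c) (sup lo (Bs ev a b R c)) := by
  intro ω ω' hh
  apply propext
  unfold OO
  refine forall_congr' fun u => forall_congr' fun hu => ?_
  have : h ω u = h ω' u := H.dep u ω ω' fun i hi => hh i
    (sup_mono lo (subset_biUnion_of_mem (Bl ev a b R) hu) hi)
  rw [this]

theorem Ctx.R_dep (H : Ctx ev t a b θ R p₀ β μ lo h) {f : ι} {c : Finset V}
    (hc : c ∈ Ab ev a b f) :
    Dep (fun ω => Rf ev a b (h ω) f c) (sup lo (Bs ev a b R (ev f \ c))) := by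
  intro ω ω' hh
  apply propext
  unfold Rf
  refine forall_congr' fun c' => forall_congr' fun hc' => forall_congr' fun hne => ?_
  have h1 : c' ⊆ ev f \ c := by
    intro x hx
    rw [mem_sdiff]
    refine ⟨(Ab_sub H.hab H.h3 hc').2 hx, fun hxc => ?_⟩
    exact (disjoint_left.1 (Ab_disj H.hab hc' hc hne)) hx hxc
  exact iff_of_eq (H.O_dep c' ω ω' fun i hi => hh i (sup_mono lo (Bs_mono h1) hi))

/-- probability of a block -/
theorem Ctx.PO (H : Ctx ev t a b θ R p₀ β μ lo h) {f : ι} {c : Finset V}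
    (hc : c ∈ Ab ev a b f) : p₀ ≤ PP μ (fun ω => OO (h ω) c) := by
  rcases Ab_cases H.hab H.h3 hc with h1 | ⟨v, rfl, -⟩
  · obtain ⟨x, y, hxy, rfl⟩ := card_eq_two.1 h1.2.1
    rw [PP_congr μ fun ω => OO_pair (H.inv ω) hxy]
    exact H.low' x y hxy (mmf_pos' hxy h1)
  · refine (H.fix3 {v} (by simp)).trans (PP_mono H.hμ fun ω hω => ?_)
    rw [OO_single]
    exact hω v (mem_singleton_self v)

theorem Ctx.pf_ge (H : Ctx ev t a b θ R p₀ β μ lo h) {f : ι} (hf : Gd ev a b R f) :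
    p₀ ^ 2 ≤ PP μ (fun ω => Av ev a b (h ω) f) := by
  rcases hf with h0 | ⟨p, hp, hsep⟩
  · have hno : ¬ ∃ p, isI ev a b f p := fun ⟨p, hp⟩ => isI_not_is0 H.hab hp h0
    calc p₀ ^ 2 ≤ p₀ := by nlinarith [H.hp0, H.hp1]
      _ ≤ PP μ (fun ω => ∀ x ∈ ev f, h ω x = x) := H.fix3 (ev f) (H.h3.card3 f).le
      _ ≤ _ := PP_mono H.hμ fun ω hω c hc => by
        rw [Ab_0 hno, mem_image] at hc
        obtain ⟨x, hx, rfl⟩ := hc
        rw [OO_single]
        exact hω x hx
  · have hpm : p ∈ Ab ev a b f := by rw [Ab_I H.hab hp]; simp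
    have hrm : ev f \ p ∈ Ab ev a b f := by rw [Ab_I H.hab hp]; simp
    rw [PP_congr μ fun ω => Av_iff (h ω) hpm]
    rw [PP_indep H.hμ (H.O_dep p) (H.R_dep hpm)]
    · have h1 := H.PO hpm
      have h2 : p₀ ≤ PP μ (fun ω => Rf ev a b (h ω) f p) := by
        refine (H.PO hrm).trans (PP_mono H.hμ fun ω hω c' hc' hne => ?_)
        rw [Ab_I H.hab hp, mem_insert, mem_singleton] at hc'
        rcases hc' with rfl | rfl
        · exact absurd rfl hne
        · exact hω
      rw [sq]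
      exact mul_le_mul h1 h2 H.hp0.le (H.hp0.le.trans h1)
    · apply sup_disjoint
      unfold Bs
      rw [disjoint_biUnion_left]
      intro x hx
      rw [disjoint_biUnion_right]
      intro z hz
      exact hsep x hx z hz

/-- the mean of the load is small -/
theorem Ctx.mean_le (H : Ctx ev t a b θ R p₀ β μ lo h) {c : Finset V}
    (hne : (Db ev a b R c).Nonempty) :
    2 / 3 * (1 - θ) * (Db ev a b R c).card ≤ (1 - θ / 2) * (t * PP μ (fun ω => OO (h ω) c)) := by
  have ht0 : (0 : ℝ) < t := by exact_mod_cast H.ht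
  have hθ := H.hθ
  have hθ1 := H.hθ1
  obtain ⟨f₀, hf₀⟩ := hne
  rw [mem_Db] at hf₀
  rcases Ab_cases H.hab H.h3 hf₀.2 with h1 | ⟨v, rfl, h1⟩
  · obtain ⟨x, y, hxy, rfl⟩ := card_eq_two.1 h1.2.1
    rw [PP_congr μ fun ω => OO_pair (H.inv ω) hxy]
    have h2 := H.low x y hxy
    have h3 : ((Db ev a b R {x, y}).card : ℝ) ≤ mmf ev a b x y := by
      have : (Db ev a b R {x, y}).card ≤ mmf ev a b x y := by
        apply card_le_mmf
        intro f hf
        rw [mem_Db] at hf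
        refine ⟨hxy, ?_⟩
        rcases Ab_cases H.hab H.h3 hf.2 with h4 | ⟨v, hv, -⟩
        · exact h4
        · have := congrArg card hv
          rw [card_pair hxy, card_singleton] at this
          norm_num at this
      exact_mod_cast this
    have h4 : 2 / 3 * (1 - θ / 2) * (mmf ev a b x y : ℝ) ≤ t * PP μ (fun ω => h ω x = y) := by
      have := mul_le_mul_of_nonneg_left h2 ht0.le
      refine le_trans (le_of_eq ?_) this
      field_simp
    have h5 : (1 - θ / 2) * (2 / 3 * (1 - θ / 2) * (mmf ev a b x y : ℝ)) ≤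
        (1 - θ / 2) * (t * PP μ (fun ω => h ω x = y)) :=
      mul_le_mul_of_nonneg_left h4 (by linarith)
    refine le_trans ?_ h5
    have h6 : (0 : ℝ) ≤ mmf ev a b x y := Nat.cast_nonneg _
    have h7 : 2 / 3 * (1 - θ) * ((Db ev a b R {x, y}).card : ℝ) ≤
        2 / 3 * (1 - θ) * (mmf ev a b x y : ℝ) := mul_le_mul_of_nonneg_left h3 (by linarith)
    refine h7.trans ?_
    have h8 : (1 - θ / 2) * (2 / 3 * (1 - θ / 2) * (mmf ev a b x y : ℝ)) =
        2 / 3 * (1 - θ) * (mmf ev a b x y : ℝ) + θ ^ 2 / 6 * (mmf ev a b x y : ℝ) := by ring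
    rw [h8]
    have : 0 ≤ θ ^ 2 / 6 * (mmf ev a b x y : ℝ) := by positivity
    linarith
  · rw [PP_congr μ fun ω => OO_single (h ω) v]
    have h2 := H.fix v
    have h3 := mmf_row H.hab H.h3 v (Db ev a b R {v}) (fun f hf => by
      rw [mem_Db] at hf
      refine ⟨(Ab_sub H.hab H.h3 hf.2).2 (mem_singleton_self v), fun u hu => ?_⟩
      rcases Ab_cases H.hab H.h3 hf.2 with h4 | ⟨w, hw, h4⟩
      · have := h4.2.1
        simp at this
      · rw [singleton_inj] at hw
        subst hw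
        exact h4 u hu)
    have h3' : (∑ u ∈ univ.filter (fun u => u ≠ v), (mmf ev a b v u : ℝ)) +
        ((Db ev a b R {v}).card : ℝ) ≤ t := by exact_mod_cast h3
    set M := ∑ u ∈ univ.filter (fun u => u ≠ v), (mmf ev a b v u : ℝ) with hM
    set P := PP μ (fun ω => h ω v = v) with hP
    have hM0 : 0 ≤ M := sum_nonneg fun _ _ => Nat.cast_nonneg _
    have h5 : t - 2 / 3 * M - θ / 2 * t ≤ t * P := by
      have := mul_le_mul_of_nonneg_left h2 ht0.le
      refine le_trans (le_of_eq ?_) this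
      field_simp
    have h6 : (1 - θ / 2) * (t - 2 / 3 * M - θ / 2 * t) ≤ (1 - θ / 2) * (t * P) :=
      mul_le_mul_of_nonneg_left h5 (by linarith)
    refine le_trans ?_ h6
    have hD0 : (0 : ℝ) ≤ (Db ev a b R {v}).card := Nat.cast_nonneg _
    have hMt : M ≤ t := by linarith
    have h7 : 2 / 3 * (1 - θ) * ((Db ev a b R {v}).card : ℝ) ≤ 2 / 3 * (t - M) := by
      have h8 : ((Db ev a b R {v}).card : ℝ) ≤ t - M := by linarith
      have h9 : (1 - θ) * ((Db ev a b R {v}).card : ℝ) ≤ 1 * (t - M) :=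
        mul_le_mul (by linarith) h8 hD0 (by norm_num)
      linarith
    refine h7.trans ?_
    have h8 : 7 / 8 ≤ 1 - θ / 2 := by linarith
    have h9 : 7 / 8 * t - 2 / 3 * M ≤ t - 2 / 3 * M - θ / 2 * t := by nlinarith
    have h10 : 0 ≤ 7 / 8 * t - 2 / 3 * M := by linarith
    have h11 : 7 / 8 * (7 / 8 * t - 2 / 3 * M) ≤ (1 - θ / 2) * (t - 2 / 3 * M - θ / 2 * t) :=
      mul_le_mul h8 h9 h10 (by linarith)
    refine le_trans ?_ h11
    linarith

end

end K3h83.CI
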