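import Pool.Agent.K3h83.CI.A2

/-!
# Stage A: concentration of the loads
-/

set_option autoImplicit false
set_option linter.unusedSectionVars false

namespace K3h83.CI

open Finset

section
variable {V ι : Type} [Fintype V] [DecidableEq V] [Fintype ι] [DecidableEq ι]
variable {I : Type} [Fintype I] [DecidableEq I] {n : ℕ}

/-- weight of an available edge -/
noncomputable def afw (ev : ι → Finset V) (t : ℕ) (a b θ : ℝ) (μ : I → Fin (n + 2) → ℝ)
    (h : (I → Fin (n + 2)) → V → V) (f : ι) : ℝ :=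
  2 / 3 * (1 - θ) / (t * PP μ (fun ω => Av ev a b (h ω) f))

/-- load of a block -/
noncomputable def LoA (ev : ι → Finset V) (t : ℕ) (a b θ : ℝ) (R : ℕ)
    (μ : I → Fin (n + 2) → ℝ) (h : (I → Fin (n + 2)) → V → V) (c : Finset V)
    (ω : I → Fin (n + 2)) : ℝ :=
  ∑ f ∈ Db ev a b R c, afw ev t a b θ μ h f * ind (Av ev a b (h ω) f)

open Classical in
/-- dependent pairs of edges at a block -/
noncomputable def DP (ev : ι → Finset V) (a b : ℝ) (R : ℕ) (c : Finset V) : Finset (ι × ι) :=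
  (Db ev a b R c ×ˢ Db ev a b R c).filter (fun q =>
    ¬ (Disjoint (Bs ev a b R c) (Bs ev a b R (ev q.1 \ c)) ∧
      Disjoint (Bs ev a b R c) (Bs ev a b R (ev q.2 \ c)) ∧
      Disjoint (Bs ev a b R (ev q.1 \ c)) (Bs ev a b R (ev q.2 \ c))))

variable {ev : ι → Finset V} {t : ℕ}
    {a b θ : ℝ} {R : ℕ} {p₀ : ℝ} {β : ℕ} {μ : I → Fin (n + 2) → ℝ} {lo : I → Finset V}
    {h : (I → Fin (n + 2)) → V → V}

theorem not_disj_Bs {X Y : Finset V} (hd : ¬ Disjoint (Bs ev a b R X) (Bs ev a b R Y)) :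
    ∃ x ∈ X, ∃ y ∈ Y, ¬ Disjoint (Bl ev a b R x) (Bl ev a b R y) := by
  rw [not_disjoint_iff] at hd
  obtain ⟨z, hz1, hz2⟩ := hd
  unfold Bs at hz1 hz2
  obtain ⟨x, hx, hzx⟩ := mem_biUnion.1 hz1
  obtain ⟨y, hy, hzy⟩ := mem_biUnion.1 hz2
  exact ⟨x, hx, y, hy, not_disjoint_iff.2 ⟨z, hzx, hzy⟩⟩

theorem Ctx.Db_card (H : Ctx ev t a b θ R p₀ β μ lo h) (c : Finset V) :
    (Db ev a b R c).card ≤ t := by
  rcases (Db ev a b R c).eq_empty_or_nonempty with he | ⟨f₀, hf₀⟩
  · rw [he]; simp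
  · rw [mem_Db] at hf₀
    obtain ⟨⟨x, hx⟩, -⟩ := Ab_sub H.hab H.h3 hf₀.2
    refine le_trans (card_le_card ?_) (H.h3.deg x)
    intro f hf
    rw [mem_Db] at hf
    rw [mem_filter]
    exact ⟨mem_univ _, (Ab_sub H.hab H.h3 hf.2).2 hx⟩

theorem Ctx.Db_y (H : Ctx ev t a b θ R p₀ β μ lo h) (c : Finset V) (y : V) (hy : y ∉ c) :
    (((Db ev a b R c).filter (fun f => y ∈ ev f)).card : ℝ) ≤ b := by
  classical
  have := Ab_codeg H.hab H.h3 H.hb1 c y hy (univ.filter (fun f => Gd ev a b R f))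
    (fun f hf => by
      rw [mem_filter] at hf
      exact Gd_or hf.2)
  refine le_trans ?_ this
  have h2 : (Db ev a b R c).filter (fun f => y ∈ ev f) ⊆
      (univ.filter (fun f => Gd ev a b R f)).filter (fun f => c ∈ Ab ev a b f ∧ y ∈ ev f) := by
    intro f hf
    rw [mem_filter, mem_Db] at hf
    rw [mem_filter, mem_filter]
    exact ⟨⟨mem_univ _, hf.1.1⟩, hf.1.2, hf.2⟩
  exact_mod_cast card_le_card h2

theorem Ctx.rest_card (H : Ctx ev t a b θ R p₀ β μ lo h) {c : Finset V} {f : ι}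
    (hf : f ∈ Db ev a b R c) : c.card ≤ 2 ∧ (ev f \ c).card ≤ 2 ∧ c.Nonempty := by
  rw [mem_Db] at hf
  obtain ⟨h1, h2⟩ := Ab_sub H.hab H.h3 hf.2
  have h3 := H.h3.card3 f
  have h4 := card_sdiff_of_subset h2
  have h5 := h1.card_pos
  refine ⟨?_, by omega, h1⟩
  rcases Ab_cases H.hab H.h3 hf.2 with h6 | ⟨v, rfl, -⟩
  · rw [h6.2.1]
  · simp

/-- edges at the block `c` with a vertex near `c` -/
theorem Ctx.F1_card (H : Ctx ev t a b θ R p₀ β μ lo h) (c : Finset V) (hc : c.card ≤ 2) :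
    (((Db ev a b R c).filter (fun f => ¬ Disjoint (Bs ev a b R c)
      (Bs ev a b R (ev f \ c)))).card : ℝ) ≤ 2 * β * b := by
  classical
  have hb0 : (0 : ℝ) ≤ b := by linarith [H.hb1]
  have hsub : (Db ev a b R c).filter (fun f => ¬ Disjoint (Bs ev a b R c)
      (Bs ev a b R (ev f \ c))) ⊆
      c.biUnion (fun x => ((univ.filter (fun y => ¬ Disjoint (Bl ev a b R y) (Bl ev a b R x))) \ c
        ).biUnion (fun y => (Db ev a b R c).filter (fun f => y ∈ ev f))) := by
    intro f hf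
    rw [mem_filter] at hf
    obtain ⟨x, hx, y, hy, hxy⟩ := not_disj_Bs hf.2
    rw [mem_sdiff] at hy
    rw [mem_biUnion]
    refine ⟨x, hx, ?_⟩
    rw [mem_biUnion]
    refine ⟨y, ?_, ?_⟩
    · rw [mem_sdiff, mem_filter]
      exact ⟨⟨mem_univ _, fun hd => hxy hd.symm⟩, hy.2⟩
    · rw [mem_filter]
      exact ⟨hf.1, hy.1⟩
  have h1 : (((Db ev a b R c).filter (fun f => ¬ Disjoint (Bs ev a b R c)
      (Bs ev a b R (ev f \ c)))).card : ℝ) ≤ ∑ x ∈ c, ∑ y ∈ (univ.filter
      (fun y => ¬ Disjoint (Bl ev a b R y) (Bl ev a b R x))) \ c,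
      (((Db ev a b R c).filter (fun f => y ∈ ev f)).card : ℝ) := by
    have := (card_le_card hsub).trans (card_biUnion_le.trans
      (sum_le_sum fun x _ => card_biUnion_le))
    exact_mod_cast this
  refine h1.trans ?_
  calc _ ≤ ∑ _x ∈ c, (β : ℝ) * b := by
        refine sum_le_sum fun x _ => ?_
        calc _ ≤ ∑ _y ∈ (univ.filter
              (fun y => ¬ Disjoint (Bl ev a b R y) (Bl ev a b R x))) \ c, b := by
              refine sum_le_sum fun y hy => ?_
              rw [mem_sdiff] at hy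
              exact H.Db_y c y hy.2
          _ = ((univ.filter
              (fun y => ¬ Disjoint (Bl ev a b R y) (Bl ev a b R x))) \ c).card * b := by
              rw [sum_const, nsmul_eq_mul]
          _ ≤ β * b := by
              apply mul_le_mul_of_nonneg_right _ hb0
              exact_mod_cast (card_le_card sdiff_subset).trans (H.near x)
    _ = c.card * (β * b) := by rw [sum_const, nsmul_eq_mul]
    _ ≤ 2 * (β * b) := by
        apply mul_le_mul_of_nonneg_right _ (by positivity)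
        exact_mod_cast hc
    _ = _ := by ring

theorem Ctx.DP_card (H : Ctx ev t a b θ R p₀ β μ lo h) (c : Finset V) :
    ((DP ev a b R c).card : ℝ) ≤ 6 * β * b * t := by
  classical
  have hb0 : (0 : ℝ) ≤ b := by linarith [H.hb1]
  rcases (Db ev a b R c).eq_empty_or_nonempty with he | ⟨f₀, hf₀⟩
  · unfold DP
    rw [he]
    simp
    positivity
  · obtain ⟨hc2, -, -⟩ := H.rest_card hf₀
    set D := Db ev a b R c with hD
    set F1 := D.filter (fun f => ¬ Disjoint (Bs ev a b R c) (Bs ev a b R (ev f \ c))) with hF1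
    set P3 : Finset (ι × ι) := D.biUnion (fun f => (ev f \ c).biUnion (fun y =>
      ((univ.filter (fun y' => ¬ Disjoint (Bl ev a b R y') (Bl ev a b R y))) \ c).biUnion
        (fun y' => (D.filter (fun f' => y' ∈ ev f')).image (fun f' => (f, f'))))) with hP3
    have hsub : DP ev a b R c ⊆ (F1 ×ˢ D) ∪ (D ×ˢ F1) ∪ P3 := by
      rintro ⟨f, f'⟩ hq
      unfold DP at hq
      rw [mem_filter, mem_product] at hq
      obtain ⟨⟨hf, hf'⟩, hq⟩ := hq
      simp only at hf hf' hq
      rw [mem_union, mem_union, mem_product, mem_product]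
      by_cases h1 : Disjoint (Bs ev a b R c) (Bs ev a b R (ev f \ c))
      · by_cases h2 : Disjoint (Bs ev a b R c) (Bs ev a b R (ev f' \ c))
        · right
          have h3 : ¬ Disjoint (Bs ev a b R (ev f \ c)) (Bs ev a b R (ev f' \ c)) :=
            fun h3 => hq ⟨h1, h2, h3⟩
          obtain ⟨y, hy, y', hy', hyy⟩ := not_disj_Bs h3
          rw [hP3, mem_biUnion]
          refine ⟨f, hf, ?_⟩
          rw [mem_biUnion]
          refine ⟨y, hy, ?_⟩
          rw [mem_biUnion]
          rw [mem_sdiff] at hy'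
          refine ⟨y', ?_, ?_⟩
          · rw [mem_sdiff, mem_filter]
            exact ⟨⟨mem_univ _, fun hd => hyy hd.symm⟩, hy'.2⟩
          · rw [mem_image]
            exact ⟨f', mem_filter.2 ⟨hf', hy'.1⟩, rfl⟩
        · left; right
          exact ⟨hf, mem_filter.2 ⟨hf', h2⟩⟩
      · left; left
        exact ⟨mem_filter.2 ⟨hf, h1⟩, hf'⟩
    have hDt : (D.card : ℝ) ≤ t := by exact_mod_cast H.Db_card c
    have hF1c : (F1.card : ℝ) ≤ 2 * β * b := H.F1_card c hc2
    have ht0 : (0 : ℝ) ≤ t := Nat.cast_nonneg t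
    have hP3c : (P3.card : ℝ) ≤ 2 * β * b * t := by
      have h1 : (P3.card : ℝ) ≤ ∑ f ∈ D, ∑ y ∈ (ev f \ c), ∑ y' ∈
          ((univ.filter (fun y' => ¬ Disjoint (Bl ev a b R y') (Bl ev a b R y))) \ c),
          ((D.filter (fun f' => y' ∈ ev f')).card : ℝ) := by
        have h2 : P3.card ≤ ∑ f ∈ D, ∑ y ∈ (ev f \ c), ∑ y' ∈
          ((univ.filter (fun y' => ¬ Disjoint (Bl ev a b R y') (Bl ev a b R y))) \ c),
          (D.filter (fun f' => y' ∈ ev f')).card := by
          rw [hP3]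
          refine card_biUnion_le.trans (sum_le_sum fun f _ => ?_)
          refine card_biUnion_le.trans (sum_le_sum fun y _ => ?_)
          refine card_biUnion_le.trans (sum_le_sum fun y' _ => card_image_le)
        exact_mod_cast h2
      refine h1.trans ?_
      calc _ ≤ ∑ _f ∈ D, 2 * ((β : ℝ) * b) := by
            refine sum_le_sum fun f hf => ?_
            calc _ ≤ ∑ _y ∈ (ev f \ c), (β : ℝ) * b := by
                  refine sum_le_sum fun y _ => ?_
                  calc _ ≤ ∑ _y' ∈ ((univ.filter (fun y' => ¬ Disjoint (Bl ev a b R y')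
                        (Bl ev a b R y))) \ c), b := by
                        refine sum_le_sum fun y' hy' => ?_
                        rw [mem_sdiff] at hy'
                        exact H.Db_y c y' hy'.2
                    _ = ((univ.filter (fun y' => ¬ Disjoint (Bl ev a b R y')
                        (Bl ev a b R y))) \ c).card * b := by rw [sum_const, nsmul_eq_mul]
                    _ ≤ β * b := by
                        apply mul_le_mul_of_nonneg_right _ hb0
                        exact_mod_cast (card_le_card sdiff_subset).trans (H.near y)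
              _ = (ev f \ c).card * (β * b) := by rw [sum_const, nsmul_eq_mul]
              _ ≤ 2 * (β * b) := by
                  apply mul_le_mul_of_nonneg_right _ (by positivity)
                  exact_mod_cast (H.rest_card hf).2.1
        _ = D.card * (2 * (β * b)) := by rw [sum_const, nsmul_eq_mul]
        _ ≤ t * (2 * (β * b)) := mul_le_mul_of_nonneg_right hDt (by positivity)
        _ = _ := by ring
    have h2 : ((DP ev a b R c).card : ℝ) ≤ F1.card * D.card + D.card * F1.card + P3.card := by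
      have h3 : (DP ev a b R c).card ≤ F1.card * D.card + D.card * F1.card + P3.card := by
        refine (card_le_card hsub).trans ((card_union_le _ _).trans ?_)
        refine Nat.add_le_add_right ((card_union_le _ _).trans ?_) _
        rw [card_product, card_product]
      exact_mod_cast h3
    have h4 : (F1.card : ℝ) * D.card ≤ 2 * β * b * t :=
      mul_le_mul hF1c hDt (Nat.cast_nonneg _) (by positivity)
    calc _ ≤ (F1.card : ℝ) * D.card + D.card * F1.card + P3.card := h2
      _ ≤ 2 * β * b * t + 2 * β * b * t + 2 * β * b * t := by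
          rw [mul_comm (D.card : ℝ) (F1.card : ℝ)]
          linarith
      _ = _ := by ring

theorem Ctx.af_bd (H : Ctx ev t a b θ R p₀ β μ lo h) {f : ι} (hf : Gd ev a b R f) :
    0 ≤ afw ev t a b θ μ h f ∧ afw ev t a b θ μ h f ≤ 1 / p₀ ^ 2 / t ∧
      afw ev t a b θ μ h f * PP μ (fun ω => Av ev a b (h ω) f) = 2 / 3 * (1 - θ) / t := by
  have ht0 : (0 : ℝ) < t := by exact_mod_cast H.ht
  have hp := H.pf_ge hf
  have hp0 := H.hp0
  have hP : 0 < PP μ (fun ω => Av ev a b (h ω) f) := lt_of_lt_of_le (by positivity) hp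
  have hρ0 : 0 ≤ 2 / 3 * (1 - θ) := by linarith [H.hθ1]
  have hρ1 : 2 / 3 * (1 - θ) ≤ 1 := by linarith [H.hθ]
  unfold afw
  refine ⟨by positivity, ?_, by field_simp⟩
  rw [div_div, div_le_div_iff₀ (by positivity) (by positivity)]
  have : (p₀ ^ 2) * t ≤ t * PP μ (fun ω => Av ev a b (h ω) f) := by
    rw [mul_comm]
    exact mul_le_mul_of_nonneg_left hp ht0.le
  calc 2 / 3 * (1 - θ) * (p₀ ^ 2 * t) ≤ 1 * (p₀ ^ 2 * t) :=
        mul_le_mul_of_nonneg_right hρ1 (by positivity)
    _ ≤ _ := by rw [one_mul, one_mul]; exact this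

/-- independence of non-dependent pairs -/
theorem Ctx.pair_indep (H : Ctx ev t a b θ R p₀ β μ lo h) {c : Finset V} {f f' : ι}
    (hf : c ∈ Ab ev a b f) (hf' : c ∈ Ab ev a b f')
    (h1 : Disjoint (Bs ev a b R c) (Bs ev a b R (ev f \ c)))
    (h2 : Disjoint (Bs ev a b R c) (Bs ev a b R (ev f' \ c)))
    (h3 : Disjoint (Bs ev a b R (ev f \ c)) (Bs ev a b R (ev f' \ c))) :
    PP μ (fun ω => Av ev a b (h ω) f ∧ Av ev a b (h ω) f') * PP μ (fun ω => OO (h ω) c) =
      PP μ (fun ω => Av ev a b (h ω) f) * PP μ (fun ω => Av ev a b (h ω) f') := by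
  have e1 : PP μ (fun ω => Av ev a b (h ω) f) = PP μ (fun ω => OO (h ω) c) *
      PP μ (fun ω => Rf ev a b (h ω) f c) := by
    rw [PP_congr μ fun ω => Av_iff (h ω) hf]
    exact PP_indep H.hμ (H.O_dep c) (H.R_dep hf) (sup_disjoint lo h1)
  have e2 : PP μ (fun ω => Av ev a b (h ω) f') = PP μ (fun ω => OO (h ω) c) *
      PP μ (fun ω => Rf ev a b (h ω) f' c) := by
    rw [PP_congr μ fun ω => Av_iff (h ω) hf']
    exact PP_indep H.hμ (H.O_dep c) (H.R_dep hf') (sup_disjoint lo h2)
  have e3 : PP μ (fun ω => Av ev a b (h ω) f ∧ Av ev a b (h ω) f') =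
      PP μ (fun ω => OO (h ω) c) * (PP μ (fun ω => Rf ev a b (h ω) f c) *
      PP μ (fun ω => Rf ev a b (h ω) f' c)) := by
    have e4 : ∀ ω, (Av ev a b (h ω) f ∧ Av ev a b (h ω) f') ↔
        (OO (h ω) c ∧ (Rf ev a b (h ω) f c ∧ Rf ev a b (h ω) f' c)) := by
      intro ω
      rw [Av_iff (h ω) hf, Av_iff (h ω) hf']
      tauto
    rw [PP_congr μ e4]
    have d : Dep (fun ω => Rf ev a b (h ω) f c ∧ Rf ev a b (h ω) f' c)
        (sup lo (Bs ev a b R (ev f \ c)) ∪ sup lo (Bs ev a b R (ev f' \ c))) :=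
      ((H.R_dep hf).mono subset_union_left).comp₂ ((H.R_dep hf').mono subset_union_right) And
    rw [PP_indep H.hμ (H.O_dep c) d (disjoint_union_right.2 ⟨sup_disjoint lo h1,
      sup_disjoint lo h2⟩), PP_indep H.hμ (H.R_dep hf) (H.R_dep hf') (sup_disjoint lo h3)]
  rw [e1, e2, e3]
  ring

theorem Ctx.second (H : Ctx ev t a b θ R p₀ β μ lo h) {c : Finset V}
    (hne : (Db ev a b R c).Nonempty) :
    EE μ (fun ω => (LoA ev t a b θ R μ h c ω - 2 / 3 * (1 - θ) * (Db ev a b R c).card /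
      (t * PP μ (fun ω => OO (h ω) c)) * ind (OO (h ω) c)) ^ 2) ≤
      6 * β * b * t * (1 / p₀ ^ 2 / t) ^ 2 := by
  classical
  have ht0 : (0 : ℝ) < t := by exact_mod_cast H.ht
  set D := Db ev a b R c with hD
  set P := PP μ (fun ω => OO (h ω) c) with hP
  set ρ : ℝ := 2 / 3 * (1 - θ) with hρ
  set X := LoA ev t a b θ R μ h c with hX
  set m := ρ * D.card / (t * P) with hm
  set A : ι → ℝ := afw ev t a b θ μ h with hA
  have hP0 : 0 < P := by
    obtain ⟨f₀, hf₀⟩ := hne
    rw [mem_Db] at hf₀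
    exact H.hp0.trans_le (H.PO hf₀.2)
  have hDG : ∀ f ∈ D, Gd ev a b R f ∧ c ∈ Ab ev a b f := fun f hf => mem_Db.1 hf
  -- pointwise expansion
  have hpt : ∀ ω, (X ω - m * ind (OO (h ω) c)) ^ 2 =
      (∑ q ∈ D ×ˢ D, (A q.1 * A q.2) * ind (Av ev a b (h ω) q.1 ∧ Av ev a b (h ω) q.2)) -
      (2 * m) * X ω + m ^ 2 * ind (OO (h ω) c) := by
    intro ω
    have e1 : X ω * ind (OO (h ω) c) = X ω := by
      simp only [hX, LoA]
      rw [sum_mul]
      refine sum_congr rfl fun f hf => ?_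
      rw [mul_assoc, ← ind_and]
      congr 1
      apply ind_congr
      rw [Av_iff (h ω) (hDG f hf).2]
      tauto
    have e2 : X ω * X ω = ∑ q ∈ D ×ˢ D, (A q.1 * A q.2) *
        ind (Av ev a b (h ω) q.1 ∧ Av ev a b (h ω) q.2) := by
      simp only [hX, LoA]
      rw [sum_mul_sum, sum_product]
      refine sum_congr rfl fun f _ => sum_congr rfl fun f' _ => ?_
      rw [ind_and]
      ring
    rw [← e2]
    have e3 := ind_sq (OO (h ω) c)
    have : (X ω - m * ind (OO (h ω) c)) ^ 2 = X ω * X ω - 2 * m * (X ω * ind (OO (h ω) c)) +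
        m ^ 2 * (ind (OO (h ω) c) * ind (OO (h ω) c)) := by ring
    rw [this, e1, e3]
  simp_rw [hpt]
  rw [EE_add, EE_sub, EE_sum, EE_mul, EE_mul]
  simp_rw [EE_mul]
  have hEX : EE μ X = ρ * D.card / t := by
    simp only [hX]
    unfold LoA
    rw [EE_sum]
    have : ∀ f ∈ D, EE μ (fun ω => afw ev t a b θ μ h f * ind (Av ev a b (h ω) f)) = ρ / t := by
      intro f hf
      rw [EE_mul]
      exact (H.af_bd (hDG f hf).1).2.2
    rw [sum_congr rfl this, sum_const, nsmul_eq_mul]
    ring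
  have hEO : EE μ (fun ω => ind (OO (h ω) c)) = P := rfl
  rw [hEX, hEO]
  have hmm : -(2 * m * (ρ * D.card / t)) + m ^ 2 * P = -∑ q ∈ D ×ˢ D, (ρ / t) ^ 2 / P := by
    rw [sum_const, card_product, nsmul_eq_mul, hm]
    push_cast
    field_simp
    ring
  have hre : (∑ q ∈ D ×ˢ D, A q.1 * A q.2 * EE μ (fun ω => ind (Av ev a b (h ω) q.1 ∧
      Av ev a b (h ω) q.2))) - 2 * m * (ρ * D.card / t) + m ^ 2 * P =
      ∑ q ∈ D ×ˢ D, (A q.1 * A q.2 * PP μ (fun ω => Av ev a b (h ω) q.1 ∧
      Av ev a b (h ω) q.2) - (ρ / t) ^ 2 / P) := by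
    rw [sum_sub_distrib]
    unfold PP
    linarith
  rw [hre]
  have hterm : ∀ q ∈ D ×ˢ D, (A q.1 * A q.2 * PP μ (fun ω => Av ev a b (h ω) q.1 ∧
      Av ev a b (h ω) q.2) - (ρ / t) ^ 2 / P) ≤
      if q ∈ DP ev a b R c then (1 / p₀ ^ 2 / t) ^ 2 else 0 := by
    intro q hq
    have hq' := mem_product.1 hq
    have g1 := hDG _ hq'.1
    have g2 := hDG _ hq'.2
    obtain ⟨a1, a2, a3⟩ := H.af_bd g1.1
    obtain ⟨b1, b2, b3⟩ := H.af_bd g2.1
    split_ifs with hdp
    · have h5 := PP_le_one H.hμ (fun ω => Av ev a b (h ω) q.1 ∧ Av ev a b (h ω) q.2)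
      have h6 := PP_nonneg H.hμ (fun ω => Av ev a b (h ω) q.1 ∧ Av ev a b (h ω) q.2)
      have h7 : A q.1 * A q.2 ≤ (1 / p₀ ^ 2 / t) ^ 2 := by
        rw [sq]
        exact mul_le_mul a2 b2 b1 (a1.trans a2)
      have h8 : 0 ≤ (ρ / t) ^ 2 / P := by positivity
      have h9 : 0 ≤ A q.1 * A q.2 := mul_nonneg a1 b1
      have h10 : A q.1 * A q.2 * PP μ (fun ω => Av ev a b (h ω) q.1 ∧ Av ev a b (h ω) q.2) ≤
          A q.1 * A q.2 * 1 := mul_le_mul_of_nonneg_left h5 h9
      linarith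
    · have hdp' : Disjoint (Bs ev a b R c) (Bs ev a b R (ev q.1 \ c)) ∧
          Disjoint (Bs ev a b R c) (Bs ev a b R (ev q.2 \ c)) ∧
          Disjoint (Bs ev a b R (ev q.1 \ c)) (Bs ev a b R (ev q.2 \ c)) := by
        by_contra hcon
        apply hdp
        unfold DP
        rw [mem_filter]
        exact ⟨hq, hcon⟩
      have h5 := H.pair_indep g1.2 g2.2 hdp'.1 hdp'.2.1 hdp'.2.2
      have h6 : A q.1 * A q.2 * PP μ (fun ω => Av ev a b (h ω) q.1 ∧ Av ev a b (h ω) q.2) =
          (ρ / t) ^ 2 / P := by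
        rw [eq_div_iff hP0.ne', mul_assoc, h5]
        calc A q.1 * A q.2 * (PP μ (fun ω => Av ev a b (h ω) q.1) *
              PP μ (fun ω => Av ev a b (h ω) q.2)) =
            (A q.1 * PP μ (fun ω => Av ev a b (h ω) q.1)) *
            (A q.2 * PP μ (fun ω => Av ev a b (h ω) q.2)) := by ring
          _ = (ρ / t) ^ 2 := by
            rw [hA, a3, b3, sq]
      rw [h6, sub_self]
  refine (sum_le_sum hterm).trans ?_
  rw [← sum_filter, sum_const, nsmul_eq_mul]
  apply mul_le_mul_of_nonneg_right _ (by positivity)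
  refine le_trans ?_ (H.DP_card c)
  have : (D ×ˢ D).filter (fun q => q ∈ DP ev a b R c) ⊆ DP ev a b R c := by
    intro q hq
    exact (mem_filter.1 hq).2
  exact_mod_cast card_le_card this

/-- **overload is unlikely** -/
theorem Ctx.over (H : Ctx ev t a b θ R p₀ β μ lo h) (c : Finset V) :
    PP μ (fun ω => ¬ LoA ev t a b θ R μ h c ω ≤ 1) ≤
      24 * β * b / (θ ^ 2 * p₀ ^ 4 * t) := by
  classical
  have ht0 : (0 : ℝ) < t := by exact_mod_cast H.ht
  have hb0 : (0 : ℝ) ≤ b := by linarith [H.hb1]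
  have hp0 := H.hp0
  have hθ := H.hθ
  have hθ1 := H.hθ1
  rcases (Db ev a b R c).eq_empty_or_nonempty with he | hne
  · have : ∀ ω, ¬ ¬ LoA ev t a b θ R μ h c ω ≤ 1 := by
      intro ω
      rw [not_not]
      unfold LoA
      rw [he, sum_empty]
      norm_num
    unfold PP
    simp_rw [fun ω => ind_false (this ω)]
    rw [EE_const H.hμ]
    positivity
  · have h2 := H.second hne
    have h3 := H.mean_le hne
    set P := PP μ (fun ω => OO (h ω) c) with hP
    have hP0 : 0 < P := by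
      obtain ⟨f₀, hf₀⟩ := hne
      rw [mem_Db] at hf₀
      exact H.hp0.trans_le (H.PO hf₀.2)
    set m := 2 / 3 * (1 - θ) * ((Db ev a b R c).card : ℝ) / (t * P) with hm
    have hm1 : m ≤ 1 - θ / 2 := by
      rw [hm, div_le_iff₀ (by positivity)]
      exact h3
    have h4 : PP μ (fun ω => ¬ LoA ev t a b θ R μ h c ω ≤ 1) ≤
        EE μ (fun ω => 4 / θ ^ 2 * (LoA ev t a b θ R μ h c ω - m * ind (OO (h ω) c)) ^ 2) := by
      refine EE_mono H.hμ fun ω => ?_
      by_cases hover : ¬ LoA ev t a b θ R μ h c ω ≤ 1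
      · rw [ind_true hover]
        push Not at hover
        have hO : OO (h ω) c := by
          by_contra hO
          have : LoA ev t a b θ R μ h c ω = 0 := by
            unfold LoA
            refine sum_eq_zero fun f hf => ?_
            rw [mem_Db] at hf
            rw [ind_false fun hh => hO ((Av_iff (h ω) hf.2).1 hh).1, mul_zero]
          linarith
        rw [ind_true hO, mul_one]
        have h5 : θ / 2 ≤ LoA ev t a b θ R μ h c ω - m := by linarith
        have h6 : (θ / 2) ^ 2 ≤ (LoA ev t a b θ R μ h c ω - m) ^ 2 :=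
          pow_le_pow_left₀ (by positivity) h5 2
        rw [div_mul_eq_mul_div, one_le_div (by positivity)]
        nlinarith
      · rw [ind_false hover]
        positivity
    refine h4.trans ?_
    rw [EE_mul]
    calc 4 / θ ^ 2 * EE μ (fun ω => (LoA ev t a b θ R μ h c ω - m * ind (OO (h ω) c)) ^ 2)
        ≤ 4 / θ ^ 2 * (6 * β * b * t * (1 / p₀ ^ 2 / t) ^ 2) :=
          mul_le_mul_of_nonneg_left h2 (by positivity)
      _ = _ := by
          field_simp
          ring

end

end K3h83.CI
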