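import Pool.Agent.K3h83.CI.Nib2

/-!
# Iterating the nibble for many copies
-/

set_option autoImplicit false
set_option linter.unusedSectionVars false

namespace K3h83.CI

open Finset H115R4

section
variable {V ι : Type} [Fintype V] [DecidableEq V] [Fintype ι] [DecidableEq ι] {m D : ℕ}
  {N : V → Finset V} {ev : ι → Finset V} {A : Fin m → ι → Finset (Finset V)}
  {w : Fin m → ι → ℝ} {κ t d : ℝ}

theorem good_mono {β : Type} [Fintype β] [DecidableEq β] {B : ι → Finset β} {u u' : ι → ℝ}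
    {r : ℕ} {κ κ' : ℝ} (h : Good B u r κ) (h0 : ∀ e, 0 ≤ u' e) (h1 : ∀ e, u' e ≤ u e)
    (hκ : κ ≤ κ') : Good B u' r κ' := by
  refine ⟨h0, h.nonempty, h.rank, fun v => ?_, fun a b hab => ?_, fun e => ?_⟩
  · exact (sum_le_sum fun e _ => h1 e).trans (h.deg_le v)
  · exact (sum_le_sum fun e _ => h1 e).trans ((h.codeg_le a b hab).trans hκ)
  · exact (h1 e).trans ((h.w_le e).trans hκ)

theorem Cfg.mono {κ' : ℝ} (h : Cfg m D N ev A w κ) (hκ : κ ≤ κ') : Cfg m D N ev A w κ' :=
  ⟨h.self, h.symm, h.cardN, h.edge, h.blk,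
    fun c => good_mono (h.good c) (h.good c).nonneg (fun _ => le_rfl) hκ, h.star,
    fun c e => (h.small c e).trans hκ⟩

theorem disj_of_blk (h : Cfg m D N ev A w κ) {c : Fin m} {e f : ι} (he : 0 < w c e)
    (hf : 0 < w c f) (hd : Disjoint (A c e) (A c f)) : Disjoint (ev e) (ev f) := by
  rw [disjoint_left]
  intro u hu hu'
  obtain ⟨b, hb⟩ := h.star c u
  exact (disjoint_left.1 hd) (hb e hu he) (hb f hu' hf)

end

/-- multi-copy nibble statement -/
def MNib (a : ℝ) : Prop := ∀ ε : ℝ, 0 < ε → ∃ κ : ℝ, 0 < κ ∧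
  ∀ (V ι : Type) [Fintype V] [DecidableEq V] [Fintype ι] [DecidableEq ι] (m D : ℕ)
    (N : V → Finset V) (ev : ι → Finset V) (A : Fin m → ι → Finset (Finset V))
    (w : Fin m → ι → ℝ), Cfg m D N ev A w κ → 8 * Real.exp (-(κ * m)) * (D : ℝ) ^ 6 ≤ 1 →
    ∃ M : Fin m → Finset ι, (∀ c, ∀ e ∈ M c, 0 < w c e) ∧
      (∀ c, ∀ e ∈ M c, ∀ f ∈ M c, e ≠ f → Disjoint (ev e) (ev f)) ∧
      ∀ v, a * (∑ c, ∑ e ∈ univ.filter (fun e => v ∈ ev e), w c e) - ε * m ≤
        (((univ.biUnion M).filter (fun e => v ∈ ev e)).card : ℝ)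

theorem W_nonneg {V ι : Type} [Fintype V] [DecidableEq V] [Fintype ι] [DecidableEq ι] {m D : ℕ}
    {N : V → Finset V} {ev : ι → Finset V} {A : Fin m → ι → Finset (Finset V)}
    {w : Fin m → ι → ℝ} {κ : ℝ} (h : Cfg m D N ev A w κ) (v : V) :
    0 ≤ ∑ c, ∑ e ∈ univ.filter (fun e => v ∈ ev e), w c e :=
  sum_nonneg fun c _ => sum_nonneg fun e _ => (h.good c).nonneg e

theorem MNib_zero : MNib 0 := by
  intro ε hε
  refine ⟨1, one_pos, ?_⟩
  intro V ι _ _ _ _ m D N ev A w _ _
  refine ⟨fun _ => ∅, by simp, by simp, fun v => ?_⟩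
  have : 0 ≤ ε * m := by positivity
  simp
  linarith

theorem MNib_mono {a a' : ℝ} (h : MNib a) (haa : a' ≤ a) : MNib a' := by
  intro ε hε
  obtain ⟨κ, hκ, H⟩ := h ε hε
  refine ⟨κ, hκ, ?_⟩
  intro V ι _ _ _ _ m D N ev A w hC hL
  obtain ⟨M, h1, h2, h3⟩ := H V ι m D N ev A w hC hL
  refine ⟨M, h1, h2, fun v => le_trans ?_ (h3 v)⟩
  have := mul_le_mul_of_nonneg_right haa (W_nonneg hC v)
  linarith

/-- the numerical choice for one round -/
theorem num_round (t η : ℝ) (ht0 : 0 < t) (ht1 : t ≤ 1 / 4) (hη : 0 < η) :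
    ∃ d κ₀ : ℝ, 0 < d ∧ 0 < κ₀ ∧ κ₀ ≤ 1 ∧ 8 * ((3 : ℕ) : ℝ) ^ 2 * κ₀ ≤ 1 ∧
      ∀ κ : ℝ, 0 ≤ κ → κ ≤ κ₀ → 1 - t - η ≤ ((1 - t) - 2 ^ 3 * (((3 : ℕ) : ℝ) *
        ((8 * ((3 : ℕ) : ℝ) ^ 2 + 4 ^ 3 * (((3 : ℕ) : ℝ) + 1)) * κ / d ^ 2))) / (1 + d) := by
  set d : ℝ := min 1 (η / 2) with hd
  have hd0 : 0 < d := lt_min one_pos (by positivity)
  have hd1 : d ≤ 1 := min_le_left _ _
  have hd2 : d ≤ η / 2 := min_le_right _ _
  refine ⟨d, min (1 / 72) (η * d ^ 2 / 16000), hd0, by positivity,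
    (min_le_left _ _).trans (by norm_num), ?_, ?_⟩
  · have := min_le_left (1 / 72 : ℝ) (η * d ^ 2 / 16000)
    push_cast
    nlinarith
  · intro κ hκ0 hκ
    have h1 : κ ≤ η * d ^ 2 / 16000 := hκ.trans (min_le_right _ _)
    rw [le_div_iff₀ (by linarith)]
    have h2 : (2 : ℝ) ^ 3 * (((3 : ℕ) : ℝ) * ((8 * ((3 : ℕ) : ℝ) ^ 2 + 4 ^ 3 *
        (((3 : ℕ) : ℝ) + 1)) * κ / d ^ 2)) ≤ η / 2 := by
      push_cast
      rw [show (2 : ℝ) ^ 3 * (3 * ((8 * 3 ^ 2 + 4 ^ 3 * (3 + 1)) * κ / d ^ 2)) =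
        7872 * κ / d ^ 2 by ring]
      rw [div_le_iff₀ (by positivity)]
      have h3 : 7872 * κ ≤ 7872 * (η * d ^ 2 / 16000) := by linarith
      have h4 : 0 ≤ η * d ^ 2 := by positivity
      nlinarith
    have h5 : (1 - t - η) * (1 + d) ≤ (1 - t) - η / 2 := by
      nlinarith
    linarith

theorem MNib_step {a t η : ℝ} (ha0 : 0 ≤ a) (ha1 : a ≤ 1) (ht0 : 0 < t) (ht1 : t ≤ 1 / 4)
    (hη : 0 < η) (h : MNib a) : MNib (t * (1 - t * 3) + a * (1 - t - η)) := by
  classical
  intro ε hε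
  obtain ⟨κ₁, hκ₁, H⟩ := h (ε / 4) (by positivity)
  obtain ⟨d, κ₀, hd, hκ₀, hκ₀1, hκ₀r, hnum⟩ := num_round t η ht0 ht1 hη
  set κ : ℝ := min (min (κ₁ / 8) κ₀) (min (ε / 36) ((ε / 4) ^ 2 / 2)) with hκdef
  have hκ0 : 0 < κ := lt_min (lt_min (by positivity) hκ₀) (lt_min (by positivity) (by positivity))
  have k1 : 8 * κ ≤ κ₁ := by
    have : κ ≤ κ₁ / 8 := (min_le_left _ _).trans (min_le_left _ _)
    linarith
  have k2 : κ ≤ κ₀ := (min_le_left _ _).trans (min_le_right _ _)
  have k3 : κ ≤ ε / 36 := (min_le_right _ _).trans (min_le_left _ _)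
  have k4 : κ ≤ (ε / 4) ^ 2 / 2 := (min_le_right _ _).trans (min_le_right _ _)
  refine ⟨κ, hκ0, ?_⟩
  intro V ι _ _ _ _ m D N ev A w hC hL
  have hm0 : (0 : ℝ) ≤ m := Nat.cast_nonneg m
  have hL1 : 8 * Real.exp (-((ε / 4) ^ 2 * m / 2)) * (D : ℝ) ^ 6 ≤ 1 := by
    refine le_trans ?_ hL
    apply mul_le_mul_of_nonneg_right _ (by positivity)
    apply mul_le_mul_of_nonneg_left _ (by norm_num)
    rw [Real.exp_le_exp]
    nlinarith
  obtain ⟨ω, hω⟩ := round (t := t) (d := d) (η := η) (ε := ε / 4) hC ht0.le ht1 hd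
    (k2.trans hκ₀1) ((mul_le_mul_of_nonneg_left k2 (by positivity)).trans hκ₀r)
    (hnum κ hκ0.le k2) (by positivity) hL1
  set P := univ.biUnion (Pk A w ω) with hP
  set w' : Fin m → ι → ℝ := fun c e => if e ∈ P then 0 else wN A w t d ω c e with hw'
  have hN0 : ∀ c e, 0 ≤ wN A w t d ω c e := fun c e => wN_nonneg hC (by linarith) hd ω c e
  have hw'0 : ∀ c e, 0 ≤ w' c e := by
    intro c e
    simp only [hw']
    split_ifs
    · exact le_refl _
    · exact hN0 c e
  have hw'1 : ∀ c e, w' c e ≤ wN A w t d ω c e := by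
    intro c e
    simp only [hw']
    split_ifs
    · exact hN0 c e
    · exact le_refl _
  have hw'pos : ∀ c e, 0 < w' c e → e ∉ P ∧ 0 < wN A w t d ω c e := by
    intro c e he
    simp only [hw'] at he
    by_cases heP : e ∈ P
    · rw [if_pos heP] at he
      exact absurd he (lt_irrefl _)
    · rw [if_neg heP] at he
      exact ⟨heP, he⟩
  have hC' : Cfg m D N ev A w' κ₁ := by
    refine ⟨hC.self, hC.symm, hC.cardN, hC.edge, hC.blk, fun c => ?_, fun c v => ?_,
      fun c e => ?_⟩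
    · exact good_mono (wN_good hC ht0.le (by linarith) hd ω c) (hw'0 c) (hw'1 c) k1
    · obtain ⟨b, hb⟩ := hC.star c v
      exact ⟨b, fun e hv he => hb e hv (wN_pos hC (by linarith) hd (hw'pos c e he).2)⟩
    · have h1 := hw'1 c e
      have h2 := wN_le (t := t) hC (by linarith) hd ω c e
      have h3 := hC.small c e
      calc (m : ℝ) * w' c e ≤ m * (8 * w c e) :=
            mul_le_mul_of_nonneg_left (h1.trans h2) hm0
        _ = 8 * (m * w c e) := by ring
        _ ≤ 8 * κ := by linarith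
        _ ≤ κ₁ := k1
  have hL2 : 8 * Real.exp (-(κ₁ * m)) * (D : ℝ) ^ 6 ≤ 1 := by
    refine le_trans ?_ hL
    apply mul_le_mul_of_nonneg_right _ (by positivity)
    apply mul_le_mul_of_nonneg_left _ (by norm_num)
    rw [Real.exp_le_exp]
    nlinarith
  obtain ⟨M, hM1, hM2, hM3⟩ := H V ι m D N ev A w' hC' hL2
  refine ⟨fun c => Pk A w ω c ∪ M c, ?_, ?_, ?_⟩
  · intro c e he
    rcases mem_union.1 he with he | he
    · exact (Pk_pos he).1
    · exact wN_pos hC (by linarith) hd (hw'pos c e (hM1 c e he)).2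
  · have hcross : ∀ c, ∀ e ∈ Pk A w ω c, ∀ f ∈ M c, Disjoint (ev e) (ev f) := by
      intro c e he f hf
      have h1 := (hw'pos c f (hM1 c f hf)).2
      refine disj_of_blk hC (Pk_pos he).1 (wN_pos hC (by linarith) hd h1) ?_
      rw [disjoint_left]
      intro b hbe hbf
      unfold wN wn at h1
      have hS : Se (A c) (xs (ω c)) (ys (ω c)) f := by
        by_contra hS
        rw [if_neg (fun hh => hS hh.1)] at h1
        exact lt_irrefl _ h1
      have h2 := (hS b hbf).2 e hbe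
      have h3 := (Pk_pos he).2
      unfold xs at h2
      rw [h3] at h2
      exact absurd h2 (by simp)
    intro c e he f hf hne
    rcases mem_union.1 he with he | he <;> rcases mem_union.1 hf with hf | hf
    · refine disj_of_blk hC (Pk_pos he).1 (Pk_pos hf).1 ?_
      have h1 := he
      unfold Pk iso at h1
      rw [mem_filter] at h1
      exact h1.2.2.2 f (Ne.symm hne) (Pk_pos hf).2
    · exact hcross c e he f hf
    · exact (hcross c f hf e he).symm
    · exact hM2 c e he f hf hne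
  · intro v
    obtain ⟨r1, r2⟩ := hω v
    have r3 := hM3 v
    -- the number of picked edges at `v` is at most `m`
    have hPm : ((P.filter (fun e => v ∈ ev e)).card : ℝ) ≤ m := by
      have h1 : P.filter (fun e => v ∈ ev e) ⊆
          univ.biUnion (fun c => (Pk A w ω c).filter (fun e => v ∈ ev e)) := by
        intro e he
        rw [mem_filter, hP, mem_biUnion] at he
        obtain ⟨⟨c, hc, hec⟩, hv⟩ := he
        exact mem_biUnion.2 ⟨c, hc, mem_filter.2 ⟨hec, hv⟩⟩
      have h2 : (P.filter (fun e => v ∈ ev e)).card ≤ m := by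
        calc _ ≤ (univ.biUnion (fun c => (Pk A w ω c).filter (fun e => v ∈ ev e))).card :=
              card_le_card h1
          _ ≤ ∑ c, ((Pk A w ω c).filter (fun e => v ∈ ev e)).card := card_biUnion_le
          _ ≤ ∑ _c : Fin m, 1 := by
              refine sum_le_sum fun c _ => ?_
              rw [card_le_one]
              intro e he e' he'
              rw [mem_filter] at he he'
              exact Pk_unique hC he.1 he'.1 he.2 he'.2
          _ = m := by simp
      exact_mod_cast h2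
    -- weight lost
    have hloss : (∑ c, ∑ e ∈ univ.filter (fun e => v ∈ ev e), wN A w t d ω c e) - 8 * κ * m ≤
        ∑ c, ∑ e ∈ univ.filter (fun e => v ∈ ev e), w' c e := by
      have h1 : (∑ c, ∑ e ∈ univ.filter (fun e => v ∈ ev e), wN A w t d ω c e) -
          ∑ c, ∑ e ∈ univ.filter (fun e => v ∈ ev e), w' c e =
          ∑ e ∈ P.filter (fun e => v ∈ ev e), ∑ c, wN A w t d ω c e := by
        rw [← sum_sub_distrib]
        simp_rw [← sum_sub_distrib]
        rw [sum_comm]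
        rw [show P.filter (fun e => v ∈ ev e) =
          (univ.filter (fun e => v ∈ ev e)).filter (fun e => e ∈ P) by
            ext e; simp [and_comm]]
        rw [sum_filter (fun e => e ∈ P) (fun e => ∑ c, wN A w t d ω c e)]
        refine sum_congr rfl fun e _ => ?_
        simp only [hw']
        split_ifs
        · refine sum_congr rfl fun c _ => by ring
        · refine sum_eq_zero fun c _ => by ring
      have h2 : ∀ e, ∑ c, wN A w t d ω c e ≤ 8 * κ := by
        intro e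
        rcases Nat.eq_zero_or_pos m with hm | hm
        · subst hm
          simp
          positivity
        · have hmp : (0 : ℝ) < m := by exact_mod_cast hm
          calc _ ≤ ∑ _c : Fin m, 8 * κ / m := by
                refine sum_le_sum fun c _ => ?_
                rw [le_div_iff₀ hmp]
                have h3 := wN_le (t := t) hC (by linarith) hd ω c e
                have h4 := hC.small c e
                nlinarith
            _ = 8 * κ := by
                rw [sum_const, card_univ, Fintype.card_fin, nsmul_eq_mul]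
                field_simp
      have h3 : ∑ e ∈ P.filter (fun e => v ∈ ev e), ∑ c, wN A w t d ω c e ≤ 8 * κ * m := by
        calc _ ≤ ∑ _e ∈ P.filter (fun e => v ∈ ev e), 8 * κ := sum_le_sum fun e _ => h2 e
          _ = (P.filter (fun e => v ∈ ev e)).card * (8 * κ) := by rw [sum_const, nsmul_eq_mul]
          _ ≤ m * (8 * κ) := mul_le_mul_of_nonneg_right hPm (by positivity)
          _ = _ := by ring
      linarith
    -- the count
    have hcount : (((univ.biUnion (fun c => Pk A w ω c ∪ M c)).filter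
        (fun e => v ∈ ev e)).card : ℝ) =
        ((P.filter (fun e => v ∈ ev e)).card : ℝ) +
        (((univ.biUnion M).filter (fun e => v ∈ ev e)).card : ℝ) := by
      have h1 : (univ.biUnion (fun c => Pk A w ω c ∪ M c)).filter (fun e => v ∈ ev e) =
          P.filter (fun e => v ∈ ev e) ∪ (univ.biUnion M).filter (fun e => v ∈ ev e) := by
        ext e
        simp only [hP, mem_filter, mem_biUnion, mem_union, mem_univ, true_and]
        constructor
        · rintro ⟨⟨c, hc | hc⟩, hv⟩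
          · exact Or.inl ⟨⟨c, hc⟩, hv⟩
          · exact Or.inr ⟨⟨c, hc⟩, hv⟩
        · rintro (⟨⟨c, hc⟩, hv⟩ | ⟨⟨c, hc⟩, hv⟩)
          · exact ⟨⟨c, Or.inl hc⟩, hv⟩
          · exact ⟨⟨c, Or.inr hc⟩, hv⟩
      have h2 : Disjoint (P.filter (fun e => v ∈ ev e))
          ((univ.biUnion M).filter (fun e => v ∈ ev e)) := by
        rw [disjoint_left]
        intro e he he'
        rw [mem_filter] at he he'
        obtain ⟨c, -, hc⟩ := mem_biUnion.1 he'.1
        exact (hw'pos c e (hM1 c e hc)).1 he.1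
      rw [h1, card_union_of_disjoint h2]
      push_cast
      ring
    rw [hcount]
    set W := ∑ c, ∑ e ∈ univ.filter (fun e => v ∈ ev e), w c e with hW
    set W1 := ∑ c, ∑ e ∈ univ.filter (fun e => v ∈ ev e), wN A w t d ω c e with hW1
    set W2 := ∑ c, ∑ e ∈ univ.filter (fun e => v ∈ ev e), w' c e with hW2
    have h5 : a * ((1 - t - η) * W - ε / 4 * m - 8 * κ * m) ≤ a * W2 :=
      mul_le_mul_of_nonneg_left (by linarith) ha0
    have h6 : κ * m ≤ ε / 36 * m := mul_le_mul_of_nonneg_right k3 hm0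
    have h7 : a * (ε / 4 * m + 8 * κ * m) ≤ 1 * (ε / 4 * m + 8 * κ * m) :=
      mul_le_mul_of_nonneg_right ha1 (by positivity)
    nlinarith

theorem MNib_all (θ : ℝ) (hθ : 0 < θ) : MNib (1 - θ) := by
  by_cases hθ1 : 1 ≤ θ
  · exact MNib_mono MNib_zero (by linarith)
  push Not at hθ1
  obtain ⟨t, ht0, ht4, htr⟩ : ∃ t : ℝ, 0 < t ∧ t ≤ 1/4 ∧ t * 3 ≤ θ / 4 :=
    ⟨θ / 12, by positivity, by linarith, by linarith⟩
  set η : ℝ := t * θ / 4 with hη
  have hη0 : 0 < η := by positivity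
  have hη1 : η ≤ t / 4 := by
    rw [hη]
    nlinarith
  set A : ℝ := t * (1 - t * 3) with hA
  set B : ℝ := 1 - t - η with hB
  have hA0 : 0 ≤ A := by
    rw [hA]
    apply mul_nonneg ht0.le
    linarith
  have hA1 : A ≤ t := by
    rw [hA]
    have : 0 ≤ t * (t * 3) := by positivity
    nlinarith
  have hB0 : 0 < B := by rw [hB]; linarith
  have hB1 : B < 1 := by rw [hB]; linarith
  have h1B : 0 < 1 - B := by linarith
  have key : ∀ k : ℕ, 0 ≤ A / (1 - B) * (1 - B^k) ∧ A / (1 - B) * (1 - B^k) ≤ 1 ∧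
      MNib (A / (1 - B) * (1 - B^k)) := by
    intro k
    induction k with
    | zero =>
      rw [pow_zero, sub_self, mul_zero]
      exact ⟨le_rfl, zero_le_one, MNib_zero⟩
    | succ k ih =>
      obtain ⟨i1, i2, i3⟩ := ih
      have e1 : A / (1 - B) * (1 - B^(k+1)) = A + (A / (1 - B) * (1 - B^k)) * B := by
        field_simp
        ring
      have h1 := MNib_step i1 i2 ht0 ht4 hη0 i3
      refine ⟨?_, ?_, ?_⟩
      · rw [e1]
        exact add_nonneg hA0 (mul_nonneg i1 hB0.le)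
      · rw [e1]
        have : (A / (1 - B) * (1 - B^k)) * B ≤ 1 * B := mul_le_mul_of_nonneg_right i2 hB0.le
        rw [hB] at this ⊢
        linarith
      · rw [e1]
        exact h1
  obtain ⟨k, hk⟩ : ∃ k : ℕ, B^k < θ / 2 := exists_pow_lt_of_lt_one (by positivity) hB1
  obtain ⟨-, -, h3⟩ := key k
  refine MNib_mono h3 ?_
  have hL : 1 - θ / 2 ≤ A / (1 - B) := by
    rw [le_div_iff₀ h1B, hA, hB]
    have e2 : 1 - (1 - t - η) = t * (1 + θ / 4) := by rw [hη]; ring
    rw [e2]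
    have h5 : (1 - θ / 2) * (1 + θ / 4) ≤ 1 - t * 3 := by nlinarith [sq_nonneg θ]
    calc (1 - θ / 2) * (t * (1 + θ / 4)) = t * ((1 - θ / 2) * (1 + θ / 4)) := by ring
      _ ≤ t * (1 - t * 3) := mul_le_mul_of_nonneg_left h5 ht0.le
  have h6 : 1 - θ / 2 ≤ 1 - B^k := by linarith
  have h7 : (1 - θ / 2) * (1 - θ / 2) ≤ A / (1 - B) * (1 - B^k) :=
    mul_le_mul hL h6 (by linarith) (by linarith)
  nlinarith [sq_nonneg θ]

end K3h83.CI
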