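import Pool.Agent.K3h83.CI.A3
import Pool.Agent.K3h83.CI.Nib3

/-!
# Stage A: the weights of one copy
-/

set_option autoImplicit false
set_option linter.unusedSectionVars false

namespace K3h83.CI

open Finset

section
variable {V ι : Type} [Fintype V] [DecidableEq V] [Fintype ι] [DecidableEq ι]
variable {I : Type} [Fintype I] [DecidableEq I] {n : ℕ}

open Classical in
/-- the weights -/
noncomputable def wA (ev : ι → Finset V) (t : ℕ) (a b θ : ℝ) (R : ℕ)
    (μ : I → Fin (n + 2) → ℝ) (h : (I → Fin (n + 2)) → V → V) (ω : I → Fin (n + 2))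
    (f : ι) : ℝ :=
  if Gd ev a b R f then afw ev t a b θ μ h f *
    ind (Av ev a b (h ω) f ∧ ∀ c ∈ Ab ev a b f, LoA ev t a b θ R μ h c ω ≤ 1) else 0

/-- neighbourhoods in the hypergraph -/
def NH (ev : ι → Finset V) (v : V) : Finset V :=
  univ.filter (fun u => u = v ∨ ∃ f, u ∈ ev f ∧ v ∈ ev f)

variable {ev : ι → Finset V} {t : ℕ}
    {a b θ : ℝ} {R : ℕ} {p₀ : ℝ} {β : ℕ} {μ : I → Fin (n + 2) → ℝ} {lo : I → Finset V}
    {h : (I → Fin (n + 2)) → V → V}

theorem NH_self (v : V) : v ∈ NH ev v := by simp [NH]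

theorem NH_symm (u v : V) (huv : u ∈ NH ev v) : v ∈ NH ev u := by
  unfold NH at huv ⊢
  rw [mem_filter] at huv ⊢
  refine ⟨mem_univ _, ?_⟩
  rcases huv.2 with h | ⟨f, h1, h2⟩
  · exact Or.inl h.symm
  · exact Or.inr ⟨f, h2, h1⟩

theorem NH_edge (f : ι) (u : V) (hu : u ∈ ev f) (v : V) (hv : v ∈ ev f) : u ∈ NH ev v := by
  unfold NH
  rw [mem_filter]
  exact ⟨mem_univ _, Or.inr ⟨f, hu, hv⟩⟩

theorem NH_card (h3 : Hyp3 ev t) (v : V) : (NH ev v).card ≤ 3 * t + 1 := by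
  have h1 : NH ev v ⊆ insert v ((univ.filter (fun f => v ∈ ev f)).biUnion ev) := by
    intro u hu
    unfold NH at hu
    rw [mem_filter] at hu
    rw [mem_insert, mem_biUnion]
    rcases hu.2 with h | ⟨f, h1, h2⟩
    · exact Or.inl h
    · exact Or.inr ⟨f, mem_filter.2 ⟨mem_univ _, h2⟩, h1⟩
  have h2 := card_le_card h1
  have h4 : ((univ.filter (fun f => v ∈ ev f)).biUnion ev).card ≤ 3 * t := by
    refine card_biUnion_le.trans ?_
    calc ∑ f ∈ univ.filter (fun f => v ∈ ev f), (ev f).card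
        = ∑ _f ∈ univ.filter (fun f => v ∈ ev f), 3 := sum_congr rfl fun f _ => h3.card3 f
      _ = (univ.filter (fun f => v ∈ ev f)).card * 3 := by rw [sum_const, smul_eq_mul]
      _ ≤ t * 3 := Nat.mul_le_mul_right _ (h3.deg v)
      _ = 3 * t := by ring
  have h5 := card_insert_le v ((univ.filter (fun f => v ∈ ev f)).biUnion ev)
  omega

theorem GG_sub_NH (u : V) : GG (mmf ev a b) u ⊆ NH ev u := by
  intro v hv
  unfold GG at hv
  rw [mem_filter] at hv
  rcases hv.2 with h | h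
  · rw [h]; exact NH_self u
  · obtain ⟨-, f, hf⟩ := mmf_pos h
    exact NH_edge f v (hf.1 (by simp)) u (hf.1 (by simp))

theorem ball_sub {N N' : V → Finset V} (hN : ∀ v, N v ⊆ N' v) (k : ℕ) (v : V) :
    ball N k v ⊆ ball N' k v := by
  induction k with
  | zero => exact Subset.refl _
  | succ k ih =>
    rw [ball_succ, ball_succ]
    intro x hx
    rw [mem_biUnion] at hx ⊢
    obtain ⟨y, hy, hxy⟩ := hx
    exact ⟨y, ih hy, hN y hxy⟩

theorem Ctx.wA_nonneg (H : Ctx ev t a b θ R p₀ β μ lo h) (ω : I → Fin (n + 2)) (f : ι) :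
    0 ≤ wA ev t a b θ R μ h ω f := by
  unfold wA
  split_ifs with hf
  · exact mul_nonneg (H.af_bd hf).1 (ind_nonneg _)
  · exact le_refl _

theorem Ctx.wA_le (H : Ctx ev t a b θ R p₀ β μ lo h) (ω : I → Fin (n + 2)) (f : ι) :
    wA ev t a b θ R μ h ω f ≤ 1 / p₀ ^ 2 / t := by
  have ht0 : (0 : ℝ) < t := by exact_mod_cast H.ht
  have hp0 := H.hp0
  unfold wA
  split_ifs with hf
  · calc _ ≤ afw ev t a b θ μ h f * 1 :=
          mul_le_mul_of_nonneg_left (ind_le_one _) (H.af_bd hf).1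
      _ ≤ _ := by rw [mul_one]; exact (H.af_bd hf).2.1
  · positivity

theorem wA_pos {ω : I → Fin (n + 2)} {f : ι} (hp : 0 < wA ev t a b θ R μ h ω f) :
    Gd ev a b R f ∧ Av ev a b (h ω) f ∧
      ∀ c ∈ Ab ev a b f, LoA ev t a b θ R μ h c ω ≤ 1 := by
  unfold wA at hp
  split_ifs at hp with hf
  · refine ⟨hf, ?_⟩
    by_contra hcon
    rw [ind_false hcon, mul_zero] at hp
    exact lt_irrefl _ hp
  · exact absurd hp (lt_irrefl _)

theorem Ctx.wA_star (H : Ctx ev t a b θ R p₀ β μ lo h) (ω : I → Fin (n + 2)) (v : V) :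
    ∃ c, ∀ f, v ∈ ev f → 0 < wA ev t a b θ R μ h ω f → c ∈ Ab ev a b f := by
  refine ⟨{v, h ω v}, fun f hv hp => ?_⟩
  obtain ⟨c, hc, hvc⟩ := Ab_cover H.hab (ev := ev) (f := f) hv
  rw [(wA_pos hp).2.1 c hc v hvc]
  exact hc

theorem Ctx.wA_deg (H : Ctx ev t a b θ R p₀ β μ lo h) (ω : I → Fin (n + 2))
    (c : Finset V) :
    ∑ f ∈ univ.filter (fun f => c ∈ Ab ev a b f), wA ev t a b θ R μ h ω f ≤ 1 := by
  classical
  by_cases hl : LoA ev t a b θ R μ h c ω ≤ 1
  · refine le_trans ?_ hl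
    unfold LoA
    rw [← sum_filter_add_sum_filter_not (univ.filter (fun f => c ∈ Ab ev a b f))
      (fun f => Gd ev a b R f)]
    have h1 : ∑ f ∈ (univ.filter (fun f => c ∈ Ab ev a b f)).filter
        (fun f => ¬ Gd ev a b R f), wA ev t a b θ R μ h ω f = 0 := by
      refine sum_eq_zero fun f hf => ?_
      rw [mem_filter] at hf
      unfold wA
      rw [if_neg hf.2]
    rw [h1, add_zero]
    have h2 : (univ.filter (fun f => c ∈ Ab ev a b f)).filter (fun f => Gd ev a b R f) =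
        Db ev a b R c := by
      ext f
      rw [mem_filter, mem_filter, mem_Db]
      simp [and_comm]
    rw [h2]
    refine sum_le_sum fun f hf => ?_
    rw [mem_Db] at hf
    unfold wA
    rw [if_pos hf.1]
    exact mul_le_mul_of_nonneg_left (ind_mono fun hh => hh.1) (H.af_bd hf.1).1
  · rw [sum_eq_zero]
    · norm_num
    · intro f hf
      rw [mem_filter] at hf
      by_contra hne
      have hpos := lt_of_le_of_ne (H.wA_nonneg ω f) (Ne.symm hne)
      exact hl ((wA_pos hpos).2.2 c hf.2)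

theorem Ctx.wA_codeg (H : Ctx ev t a b θ R p₀ β μ lo h) (ω : I → Fin (n + 2))
    (c c' : Finset V) (hcc : c ≠ c') :
    ∑ f ∈ univ.filter (fun f => c ∈ Ab ev a b f ∧ c' ∈ Ab ev a b f),
      wA ev t a b θ R μ h ω f ≤ b * (1 / p₀ ^ 2 / t) := by
  classical
  have ht0 : (0 : ℝ) < t := by exact_mod_cast H.ht
  have hp0 := H.hp0
  have hb0 : (0 : ℝ) ≤ b := by linarith [H.hb1]
  rcases (univ.filter (fun f => c ∈ Ab ev a b f ∧ c' ∈ Ab ev a b f)).eq_empty_or_nonempty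
    with he | ⟨f₀, hf₀⟩
  · rw [he, sum_empty]; positivity
  · rw [mem_filter] at hf₀
    obtain ⟨⟨y, hy⟩, -⟩ := Ab_sub H.hab H.h3 hf₀.2.2
    have hyc : y ∉ c := fun hyc =>
      (disjoint_left.1 (Ab_disj H.hab hf₀.2.1 hf₀.2.2 hcc)) hyc hy
    have h1 : ∑ f ∈ univ.filter (fun f => c ∈ Ab ev a b f ∧ c' ∈ Ab ev a b f),
        wA ev t a b θ R μ h ω f ≤
        ∑ f ∈ (Db ev a b R c).filter (fun f => y ∈ ev f), wA ev t a b θ R μ h ω f := by
      rw [← sum_filter_add_sum_filter_not (univ.filter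
        (fun f => c ∈ Ab ev a b f ∧ c' ∈ Ab ev a b f)) (fun f => Gd ev a b R f)]
      have h2 : ∑ f ∈ (univ.filter (fun f => c ∈ Ab ev a b f ∧ c' ∈ Ab ev a b f)).filter
          (fun f => ¬ Gd ev a b R f), wA ev t a b θ R μ h ω f = 0 := by
        refine sum_eq_zero fun f hf => ?_
        rw [mem_filter] at hf
        unfold wA
        rw [if_neg hf.2]
      rw [h2, add_zero]
      apply sum_le_sum_of_subset_of_nonneg
      · intro f hf
        rw [mem_filter, mem_filter] at hf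
        rw [mem_filter, mem_Db]
        exact ⟨⟨hf.2, hf.1.2.1⟩, (Ab_sub H.hab H.h3 hf.1.2.2).2 hy⟩
      · intro f _ _
        exact H.wA_nonneg ω f
    refine h1.trans ?_
    calc _ ≤ ∑ _f ∈ (Db ev a b R c).filter (fun f => y ∈ ev f), (1 / p₀ ^ 2 / t : ℝ) :=
          sum_le_sum fun f _ => H.wA_le ω f
      _ = ((Db ev a b R c).filter (fun f => y ∈ ev f)).card * (1 / p₀ ^ 2 / t) := by
          rw [sum_const, nsmul_eq_mul]
      _ ≤ _ := mul_le_mul_of_nonneg_right (H.Db_y c y hyc) (by positivity)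

theorem Ctx.wA_good (H : Ctx ev t a b θ R p₀ β μ lo h) {κn : ℝ}
    (hκ : b * (1 / p₀ ^ 2 / t) ≤ κn) (ω : I → Fin (n + 2)) :
    H115R4.Good (Ab ev a b) (wA ev t a b θ R μ h ω) 3 κn := by
  have ht0 : (0 : ℝ) < t := by exact_mod_cast H.ht
  have hp0 := H.hp0
  refine ⟨H.wA_nonneg ω, Ab_nonempty H.hab H.h3, Ab_card H.hab H.h3, fun c => ?_,
    fun c c' hcc => ?_, fun f => ?_⟩
  · exact H.wA_deg ω c
  · exact (H.wA_codeg ω c c' hcc).trans hκ
  · refine (H.wA_le ω f).trans (le_trans ?_ hκ)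
    have : (0 : ℝ) ≤ 1 / p₀ ^ 2 / t := by positivity
    nlinarith [H.hb1]

theorem Ctx.wA_sum_le (H : Ctx ev t a b θ R p₀ β μ lo h) (ω : I → Fin (n + 2)) (v : V) :
    ∑ f ∈ univ.filter (fun f => v ∈ ev f), wA ev t a b θ R μ h ω f ≤ 1 := by
  obtain ⟨c, hc⟩ := H.wA_star ω v
  refine le_trans ?_ (H.wA_deg ω c)
  rw [sum_filter, sum_filter]
  refine sum_le_sum fun f _ => ?_
  have h0 := H.wA_nonneg ω f
  by_cases hv : v ∈ ev f
  · rw [if_pos hv]
    rcases eq_or_lt_of_le h0 with h2 | h2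
    · rw [← h2]
      split_ifs <;> exact le_refl _
    · rw [if_pos (hc f hv h2)]
  · rw [if_neg hv]
    split_ifs
    · exact h0
    · exact le_refl _

/-- the mean of the weight -/
theorem Ctx.wA_mean (H : Ctx ev t a b θ R p₀ β μ lo h) {f : ι} (hf : Gd ev a b R f) :
    2 / 3 * (1 - θ) / t - 3 * (1 / p₀ ^ 2 / t) * (24 * β * b / (θ ^ 2 * p₀ ^ 4 * t)) ≤
      EE μ (fun ω => wA ev t a b θ R μ h ω f) := by
  classical
  have ht0 : (0 : ℝ) < t := by exact_mod_cast H.ht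
  have hp0 := H.hp0
  have hθ := H.hθ
  have hb0 : (0 : ℝ) ≤ b := by linarith [H.hb1]
  obtain ⟨a1, a2, a3⟩ := H.af_bd hf
  have hC : (0 : ℝ) ≤ 1 / p₀ ^ 2 / t := by positivity
  have h1 : ∀ ω, afw ev t a b θ μ h f * ind (Av ev a b (h ω) f) -
      (1 / p₀ ^ 2 / t) * ∑ c ∈ Ab ev a b f, ind (¬ LoA ev t a b θ R μ h c ω ≤ 1) ≤
      wA ev t a b θ R μ h ω f := by
    intro ω
    unfold wA
    rw [if_pos hf]
    have hs : 0 ≤ ∑ c ∈ Ab ev a b f, ind (¬ LoA ev t a b θ R μ h c ω ≤ 1) :=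
      sum_nonneg fun _ _ => ind_nonneg _
    by_cases hall : ∀ c ∈ Ab ev a b f, LoA ev t a b θ R μ h c ω ≤ 1
    · have : ind (Av ev a b (h ω) f ∧ ∀ c ∈ Ab ev a b f, LoA ev t a b θ R μ h c ω ≤ 1) =
          ind (Av ev a b (h ω) f) := ind_congr ⟨fun hh => hh.1, fun hh => ⟨hh, hall⟩⟩
      rw [this]
      have := mul_nonneg hC hs
      linarith
    · rw [ind_false (A := Av ev a b (h ω) f ∧
        ∀ c ∈ Ab ev a b f, LoA ev t a b θ R μ h c ω ≤ 1) fun hh => hall hh.2, mul_zero]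
      push Not at hall
      obtain ⟨c, hc, hlt⟩ := hall
      have h2 : (1 : ℝ) ≤ ∑ c ∈ Ab ev a b f, ind (¬ LoA ev t a b θ R μ h c ω ≤ 1) := by
        calc (1 : ℝ) = ind (¬ LoA ev t a b θ R μ h c ω ≤ 1) := (ind_true (not_le.2 hlt)).symm
          _ ≤ _ := single_le_sum
            (f := fun c => ind (¬ LoA ev t a b θ R μ h c ω ≤ 1)) (fun _ _ => ind_nonneg _) hc
      have h3 : afw ev t a b θ μ h f * ind (Av ev a b (h ω) f) ≤ 1 / p₀ ^ 2 / t := by
        calc _ ≤ afw ev t a b θ μ h f * 1 := mul_le_mul_of_nonneg_left (ind_le_one _) a1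
          _ ≤ _ := by rw [mul_one]; exact a2
      have h4 : 1 / p₀ ^ 2 / t * 1 ≤
          1 / p₀ ^ 2 / t * ∑ c ∈ Ab ev a b f, ind (¬ LoA ev t a b θ R μ h c ω ≤ 1) :=
        mul_le_mul_of_nonneg_left h2 hC
      linarith
  refine le_trans ?_ (EE_mono H.hμ h1)
  rw [EE_sub, EE_mul, EE_mul, EE_sum]
  have h2 : ∑ c ∈ Ab ev a b f, EE μ (fun ω => ind (¬ LoA ev t a b θ R μ h c ω ≤ 1)) ≤
      3 * (24 * β * b / (θ ^ 2 * p₀ ^ 4 * t)) := by
    calc _ ≤ ∑ _c ∈ Ab ev a b f, (24 * β * b / (θ ^ 2 * p₀ ^ 4 * t) : ℝ) :=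
          sum_le_sum fun c _ => H.over c
      _ = (Ab ev a b f).card * (24 * β * b / (θ ^ 2 * p₀ ^ 4 * t)) := by
          rw [sum_const, nsmul_eq_mul]
      _ ≤ _ := by
          apply mul_le_mul_of_nonneg_right _ (by positivity)
          exact_mod_cast Ab_card H.hab H.h3 f
  have h3 : afw ev t a b θ μ h f * EE μ (fun ω => ind (Av ev a b (h ω) f)) =
      2 / 3 * (1 - θ) / t := a3
  rw [h3]
  have h4 := mul_le_mul_of_nonneg_left h2 hC
  linarith

/-- locality of the weights -/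
theorem Ctx.wA_dep (H : Ctx ev t a b θ R p₀ β μ lo h) {v : V} {f : ι} (hv : v ∈ ev f) :
    Dep (fun ω => wA ev t a b θ R μ h ω f) (sup lo (ball (NH ev) (R + 2) v)) := by
  classical
  have hev : ∀ {k : ℕ} {g : ι} {y : V}, y ∈ ev g → y ∈ ball (NH ev) k v →
      ev g ⊆ ball (NH ev) (k + 1) v := by
    intro k g y hy hyv u hu
    rw [ball_succ, mem_biUnion]
    exact ⟨y, hyv, NH_edge g u hu y hy⟩
  have hf1 : ev f ⊆ ball (NH ev) 1 v := hev (k := 0) hv (by simp [ball])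
  have hh : ∀ u ∈ ball (NH ev) 2 v, Dep (fun ω => h ω u) (sup lo (ball (NH ev) (R + 2) v)) := by
    intro u hu
    refine (H.dep u).mono (sup_mono lo ?_)
    unfold Bl
    intro x hx
    have h1 := ball_sub (GG_sub_NH (ev := ev) (a := a) (b := b)) R u hx
    rw [add_comm]
    exact ball_trans hu h1
  have hO : ∀ c, c ⊆ ball (NH ev) 2 v → Dep (fun ω => OO (h ω) c)
      (sup lo (ball (NH ev) (R + 2) v)) := by
    intro c hc ω ω' hag
    apply propext
    unfold OO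
    refine forall_congr' fun u => forall_congr' fun hu => ?_
    have : h ω u = h ω' u := hh u (hc hu) ω ω' hag
    rw [this]
  have hAv : ∀ g, ev g ⊆ ball (NH ev) 2 v → Dep (fun ω => Av ev a b (h ω) g)
      (sup lo (ball (NH ev) (R + 2) v)) := by
    intro g hg ω ω' hag
    apply propext
    unfold Av
    refine forall_congr' fun c => forall_congr' fun hc => ?_
    exact iff_of_eq (hO c ((Ab_sub H.hab H.h3 hc).2.trans hg) ω ω' hag)
  have hL : ∀ c ∈ Ab ev a b f, Dep (fun ω => LoA ev t a b θ R μ h c ω)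
      (sup lo (ball (NH ev) (R + 2) v)) := by
    intro c hc
    unfold LoA
    apply Dep.sum
    intro g hg
    rw [mem_Db] at hg
    obtain ⟨⟨x, hx⟩, hcf⟩ := Ab_sub H.hab H.h3 hc
    have hxg : x ∈ ev g := (Ab_sub H.hab H.h3 hg.2).2 hx
    exact (hAv g (hev hxg (hf1 (hcf hx)))).comp
      (fun P => afw ev t a b θ μ h g * ind P)
  intro ω ω' hag
  change wA ev t a b θ R μ h ω f = wA ev t a b θ R μ h ω' f
  unfold wA
  split_ifs with hf
  · congr 1
    apply ind_congr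
    have e1 : Av ev a b (h ω) f = Av ev a b (h ω') f :=
      hAv f (hf1.trans (ball_mono NH_self (by norm_num) v)) ω ω' hag
    rw [e1]
    refine and_congr_right fun _ => forall_congr' fun c => forall_congr' fun hc => ?_
    have e2 : LoA ev t a b θ R μ h c ω = LoA ev t a b θ R μ h c ω' := hL c hc ω ω' hag
    rw [e2]
  · rfl

end

end K3h83.CI
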