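import Pool.Agent.K3h83.CI.A4

/-!
# Stage A: the family of weights
-/

set_option autoImplicit false
set_option linter.unusedSectionVars false

namespace K3h83.CI

open Finset

/-- no pair of `f` has medium codegree -/
def nomed {V ι : Type} [Fintype V] [DecidableEq V] [Fintype ι] [DecidableEq ι]
    (ev : ι → Finset V) (a b : ℝ) (f : ι) : Prop :=
  ∀ q ⊆ ev f, q.card = 2 → a ≤ cd ev q ∨ (cd ev q : ℝ) < b

section
variable {V ι : Type} [Fintype V] [DecidableEq V] [Fintype ι] [DecidableEq ι]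
variable {ev : ι → Finset V} {t : ℕ} {a b : ℝ} {R : ℕ} {β Δ : ℕ}

open Classical in
/-- heavy or near vertices -/
noncomputable def Qs (ev : ι → Finset V) (a b : ℝ) (R : ℕ) (x : V) : Finset V :=
  univ.filter (fun y => (y ≠ x ∧ a ≤ cd ev {x, y}) ∨ ¬ Disjoint (Bl ev a b R y) (Bl ev a b R x))

theorem Bl_self (x : V) : x ∈ Bl ev a b R x := ball_self (fun v => by simp [GG]) R x

theorem Qs_self (x : V) : x ∈ Qs ev a b R x := by
  unfold Qs
  rw [mem_filter]
  refine ⟨mem_univ _, Or.inr ?_⟩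
  rw [disjoint_self]
  intro he
  have := Bl_self (ev := ev) (a := a) (b := b) (R := R) x
  rw [he] at this
  simp at this

theorem Qs_symm {x y : V} (h : y ∈ Qs ev a b R x) : x ∈ Qs ev a b R y := by
  unfold Qs at h ⊢
  rw [mem_filter] at h ⊢
  refine ⟨mem_univ _, ?_⟩
  rcases h.2 with ⟨h1, h2⟩ | h1
  · left
    rw [pair_comm]
    exact ⟨h1.symm, h2⟩
  · right
    exact fun hd => h1 hd.symm

theorem bad_center (h3 : Hyp3 ev t) {f : ι} (hn : nomed ev a b f) (hg : ¬ Gd ev a b R f) :
    ∃ x ∈ ev f, ev f ⊆ Qs ev a b R x := by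
  classical
  unfold Gd at hg
  rw [not_or] at hg
  obtain ⟨h0, hI⟩ := hg
  unfold is0 at h0
  push Not at h0
  obtain ⟨p, hp1, hp2, hp3⟩ := h0
  have hpa : a ≤ cd ev p := (hn p hp1 hp2).resolve_right (not_lt.2 hp3)
  by_cases hother : ∃ q ⊆ ev f, q.card = 2 ∧ q ≠ p ∧ a ≤ cd ev q
  · obtain ⟨q, hq1, hq2, hqp, hqa⟩ := hother
    -- a common vertex
    have hun : (p ∪ q).card ≤ 3 := by
      rw [← h3.card3 f]
      exact card_le_card (union_subset hp1 hq1)
    have hun3 : p ∪ q = ev f := by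
      apply eq_of_subset_of_card_le (union_subset hp1 hq1)
      rw [h3.card3 f]
      by_contra hlt
      have h4 : (p ∪ q).card = 2 := by
        have := card_le_card (subset_union_left (s₁ := p) (s₂ := q))
        omega
      have h5 : p = p ∪ q := eq_of_subset_of_card_le subset_union_left (by omega)
      have h6 : q = p ∪ q := eq_of_subset_of_card_le subset_union_right (by omega)
      exact hqp (h6.trans h5.symm)
    have hint : (p ∩ q).card = 1 := by
      have := card_union_add_card_inter p q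
      rw [hun3, h3.card3, hp2, hq2] at this
      omega
    obtain ⟨x, hx⟩ := card_eq_one.1 hint
    have hxpq : x ∈ p ∩ q := by rw [hx]; simp
    rw [mem_inter] at hxpq
    refine ⟨x, hp1 hxpq.1, fun y hy => ?_⟩
    by_cases hyx : y = x
    · rw [hyx]; exact Qs_self x
    · rw [← hun3, mem_union] at hy
      unfold Qs
      rw [mem_filter]
      refine ⟨mem_univ _, Or.inl ⟨hyx, ?_⟩⟩
      rcases hy with hy | hy
      · have : ({x, y} : Finset V) = p := by
          apply eq_of_subset_of_card_le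
          · intro z hz
            rw [mem_insert, mem_singleton] at hz
            rcases hz with rfl | rfl
            · exact hxpq.1
            · exact hy
          · rw [hp2, card_pair (Ne.symm hyx)]
        rw [this]
        exact hpa
      · have : ({x, y} : Finset V) = q := by
          apply eq_of_subset_of_card_le
          · intro z hz
            rw [mem_insert, mem_singleton] at hz
            rcases hz with rfl | rfl
            · exact hxpq.2
            · exact hy
          · rw [hq2, card_pair (Ne.symm hyx)]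
        rw [this]
        exact hqa
  · push Not at hother
    have hpI : isI ev a b f p := by
      refine ⟨hp1, hp2, hpa, fun q hq1 hq2 hqp => ?_⟩
      rcases hn q hq1 hq2 with h4 | h4
      · exact absurd (hother q hq1 hq2 hqp) (not_lt.2 h4)
      · exact h4
    push Not at hI
    obtain ⟨x, hx, z, hz, hxz⟩ := hI p hpI
    obtain ⟨z', hz'⟩ := card_eq_one.1 (Ab_rest_card h3 hpI)
    refine ⟨x, hp1 hx, fun y hy => ?_⟩
    by_cases hyx : y = x
    · rw [hyx]; exact Qs_self x
    · unfold Qs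
      rw [mem_filter]
      refine ⟨mem_univ _, ?_⟩
      by_cases hyp : y ∈ p
      · left
        refine ⟨hyx, ?_⟩
        have : ({x, y} : Finset V) = p := by
          apply eq_of_subset_of_card_le
          · intro z hz
            rw [mem_insert, mem_singleton] at hz
            rcases hz with rfl | rfl
            · exact hx
            · exact hyp
          · rw [hp2, card_pair (Ne.symm hyx)]
        rw [this]
        exact hpa
      · right
        have h5 : y ∈ ev f \ p := mem_sdiff.2 ⟨hy, hyp⟩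
        rw [hz', mem_singleton] at h5 hz
        rw [h5, ← hz]
        exact fun hd => hxz hd.symm

/-- few edges without medium pairs are not good -/
theorem bad_count (h3 : Hyp3 ev t) {q : ℕ} (hq : ∀ x, (Qs ev a b R x).card ≤ q) (v : V)
    (T : Finset ι) (hT : ∀ f ∈ T, v ∈ ev f ∧ nomed ev a b f ∧ ¬ Gd ev a b R f) :
    T.card ≤ q * 2 ^ q := by
  classical
  have h1 : T.image ev ⊆ (Qs ev a b R v).biUnion (fun x => (Qs ev a b R x).powerset) := by
    intro s hs
    obtain ⟨f, hf, rfl⟩ := mem_image.1 hs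
    obtain ⟨hv, hn, hg⟩ := hT f hf
    obtain ⟨x, hx, hsub⟩ := bad_center h3 hn hg
    rw [mem_biUnion]
    exact ⟨x, Qs_symm (hsub hv), mem_powerset.2 hsub⟩
  rw [← card_image_of_injective T h3.inj]
  refine (card_le_card h1).trans (card_biUnion_le.trans ?_)
  calc ∑ x ∈ Qs ev a b R v, ((Qs ev a b R x).powerset).card
      ≤ ∑ _x ∈ Qs ev a b R v, 2 ^ q := by
        refine sum_le_sum fun x _ => ?_
        rw [card_powerset]
        exact Nat.pow_le_pow_right (by norm_num) (hq x)
    _ = (Qs ev a b R v).card * 2 ^ q := by rw [sum_const, smul_eq_mul]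
    _ ≤ q * 2 ^ q := Nat.mul_le_mul_right _ (hq v)

end

/-- **Stage A** -/
theorem stageA (θ : ℝ) (hθ : 0 < θ) (hθ1 : θ ≤ 1 / 4) (κn : ℝ) (hκn : 0 < κn) (κ : ℝ)
    (hκ : 0 < κ) :
    ∃ (κ' : ℝ) (Cw : ℝ) (k C₀ : ℕ), 0 < κ' ∧ κ' ≤ κ ∧ 0 < Cw ∧
      ∀ (V ι : Type) [Fintype V] [DecidableEq V] [Fintype ι] [DecidableEq ι]
        (ev : ι → Finset V) (t : ℕ), Hyp3 ev t → 1 ≤ κ' * t →
        ∀ (m D : ℕ) (ε : ℝ), 0 < ε → (∀ v, (NH ev v).card ≤ D) →
        4 * Real.exp (-(ε ^ 2 * m / 2)) * (D : ℝ) ^ (2 * k) ≤ 1 →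
        ∃ (A : ι → Finset (Finset V)) (w : Fin m → ι → ℝ),
          (∀ e, ∀ c ∈ A e, c.Nonempty ∧ c ⊆ ev e) ∧
          (∀ j, H115R4.Good A (w j) 3 κn) ∧
          (∀ j v, ∃ c, ∀ e, v ∈ ev e → 0 < w j e → c ∈ A e) ∧
          (∀ j e, w j e ≤ Cw / t) ∧
          ∀ (v : V) (T : Finset ι), (∀ f ∈ T, v ∈ ev f ∧ nomed ev (κ * t) (κ' * t) f) →
            m * (2 / 3 * (1 - 2 * θ) * ((T.card : ℝ) - C₀) / t) - ε * m ≤
              ∑ j, ∑ e ∈ univ.filter (fun e => v ∈ ev e), w j e := by
  classical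
  obtain ⟨Δ, hΔ⟩ : ∃ Δ : ℕ, 2 / κ ≤ Δ := exists_nat_ge _
  obtain ⟨R, p₀, hp0, hp1, hRM⟩ := RM Δ (θ / 2) (by positivity) (by linarith)
  set β : ℕ := (Δ + 1) ^ (2 * R) with hβ
  set κ' : ℝ := min κ (min (κn * p₀ ^ 2) (θ ^ 3 * p₀ ^ 6 / (216 * (β + 1)))) with hκ'
  have hκ'0 : 0 < κ' := lt_min hκ (lt_min (by positivity) (by positivity))
  have k1 : κ' ≤ κ := min_le_left _ _
  have k2 : κ' ≤ κn * p₀ ^ 2 := (min_le_right _ _).trans (min_le_left _ _)
  have k3 : κ' ≤ θ ^ 3 * p₀ ^ 6 / (216 * (β + 1)) := (min_le_right _ _).trans (min_le_right _ _)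
  set q : ℕ := Δ + β with hq
  refine ⟨κ', 1 / p₀ ^ 2, R + 2, q * 2 ^ q, hκ'0, k1, by positivity, ?_⟩
  intro V ι _ _ _ _ ev t h3 ht1 m D ε hε hD hL
  have ht0 : (0 : ℝ) < t := by
    by_contra hcon
    push Not at hcon
    have : κ' * t ≤ 0 := mul_nonpos_of_nonneg_of_nonpos hκ'0.le hcon
    linarith
  have htn : 0 < t := by exact_mod_cast ht0
  set a : ℝ := κ * t with ha
  set b : ℝ := κ' * t with hb
  have hab : b ≤ a := mul_le_mul_of_nonneg_right k1 ht0.le
  have ha0 : 0 < a := by positivity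
  -- heavy degrees
  have hheavy : ∀ v, (univ.filter (fun u : V => u ≠ v ∧ a ≤ cd ev {v, u})).card ≤ Δ := by
    intro v
    have h1 := heavy_card h3 v ha0
    have h2 : ((univ.filter (fun u : V => u ≠ v ∧ a ≤ cd ev {v, u})).card : ℝ) ≤ 2 / κ := by
      rw [le_div_iff₀ hκ]
      have h4 : ((univ.filter (fun u : V => u ≠ v ∧ a ≤ cd ev {v, u})).card : ℝ) * κ * t ≤
          2 * t := by
        calc _ = ((univ.filter (fun u : V => u ≠ v ∧ a ≤ cd ev {v, u})).card : ℝ) * a := by
              rw [ha]; ring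
          _ ≤ _ := h1
      exact le_of_mul_le_mul_right h4 ht0
    exact_mod_cast h2.trans hΔ
  have hmmΔ : ∀ u, (univ.filter (fun v => v ≠ u ∧ 0 < mmf ev a b u v)).card ≤ Δ := by
    intro u
    refine (card_le_card ?_).trans (hheavy u)
    intro v hv
    rw [mem_filter] at hv ⊢
    refine ⟨mem_univ _, hv.2.1, ?_⟩
    obtain ⟨-, f, hf⟩ := mmf_pos hv.2.2
    exact hf.2.2.1
  obtain ⟨I, _, _, n, μ, lo, h, hμ, hinv, hmem, hdep, hlow, hlow', hfix, hfix3⟩ :=
    hRM V t (mmf ev a b) htn mmf_symm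
      (fun u => by
        have := mmf_row hab h3 u ∅ (by simp)
        simpa using this) hmmΔ
  have hGGcard : ∀ v, (GG (mmf ev a b) v).card ≤ Δ + 1 := by
    intro v
    have h1 : GG (mmf ev a b) v ⊆ insert v (univ.filter
        (fun u => u ≠ v ∧ 0 < mmf ev a b v u)) := by
      intro u hu
      unfold GG at hu
      rw [mem_filter] at hu
      rw [mem_insert, mem_filter]
      by_cases huv : u = v
      · exact Or.inl huv
      · exact Or.inr ⟨mem_univ _, huv, hu.2.resolve_left huv⟩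
    have h2 := card_le_card h1
    have h4 := card_insert_le v (univ.filter (fun u => u ≠ v ∧ 0 < mmf ev a b v u))
    have h5 := hmmΔ v
    omega
  have hGGsymm : ∀ u v, u ∈ GG (mmf ev a b) v → v ∈ GG (mmf ev a b) u := by
    intro u v huv
    unfold GG at huv ⊢
    rw [mem_filter] at huv ⊢
    refine ⟨mem_univ _, ?_⟩
    rcases huv.2 with h1 | h1
    · exact Or.inl h1.symm
    · rw [mmf_symm] at h1
      exact Or.inr h1
  have hnear : ∀ u, (univ.filter (fun x => ¬ Disjoint (Bl ev a b R x) (Bl ev a b R u))).card ≤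
      β := by
    intro u
    refine (card_le_card (t := ball (GG (mmf ev a b)) (2 * R) u) ?_).trans
      (ball_card hGGcard _ _)
    intro x hx
    rw [mem_filter, not_disjoint_iff] at hx
    obtain ⟨-, z, hz1, hz2⟩ := hx
    unfold Bl at hz1 hz2
    rw [two_mul]
    exact ball_trans hz2 (ball_symm hGGsymm hz1)
  have H : Ctx ev t a b θ R p₀ β μ lo h := by
    refine ⟨hab, ht1, htn, h3, hμ, hθ, hθ1, hp0, hp1, hinv, hdep, hlow, hlow', hfix,
      hfix3, hnear⟩
  have hκn' : b * (1 / p₀ ^ 2 / t) ≤ κn := by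
    rw [hb]
    have : κ' * t * (1 / p₀ ^ 2 / t) = κ' / p₀ ^ 2 := by field_simp
    rw [this, div_le_iff₀ (by positivity)]
    exact k2
  have hQ : ∀ x, (Qs ev a b R x).card ≤ q := by
    intro x
    have h1 : Qs ev a b R x ⊆ univ.filter (fun u : V => u ≠ x ∧ a ≤ cd ev {x, u}) ∪
        univ.filter (fun y => ¬ Disjoint (Bl ev a b R y) (Bl ev a b R x)) := by
      intro y hy
      unfold Qs at hy
      rw [mem_filter] at hy
      rw [mem_union, mem_filter, mem_filter]
      rcases hy.2 with h2 | h2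
      · exact Or.inl ⟨mem_univ _, h2⟩
      · exact Or.inr ⟨mem_univ _, h2⟩
    have h2 := (card_le_card h1).trans (card_union_le _ _)
    have h4 := hheavy x
    have h5 := hnear x
    omega
  -- the mean
  have hmean1 : ∀ f, Gd ev a b R f → 2 / 3 * (1 - 2 * θ) / t ≤
      EE μ (fun ω => wA ev t a b θ R μ h ω f) := by
    intro f hf
    refine le_trans ?_ (H.wA_mean hf)
    have h1 : 3 * (1 / p₀ ^ 2 / t) * (24 * β * b / (θ ^ 2 * p₀ ^ 4 * t)) ≤ θ / 3 / t := by
      rw [hb]
      have e1 : 3 * (1 / p₀ ^ 2 / t) * (24 * β * (κ' * t) / (θ ^ 2 * p₀ ^ 4 * t)) =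
          (72 * β * κ' / (θ ^ 2 * p₀ ^ 6)) / t := by
        field_simp
        ring
      rw [e1]
      apply div_le_div_of_nonneg_right _ ht0.le
      rw [div_le_iff₀ (by positivity)]
      have h2 : κ' * (216 * (β + 1)) ≤ θ ^ 3 * p₀ ^ 6 := by
        rwa [le_div_iff₀ (by positivity)] at k3
      have h4 : 72 * (β : ℝ) * κ' ≤ κ' * (216 * (β + 1)) / 3 := by
        have : (0 : ℝ) ≤ β := Nat.cast_nonneg _
        nlinarith
      calc 72 * (β : ℝ) * κ' ≤ κ' * (216 * (β + 1)) / 3 := h4
        _ ≤ θ ^ 3 * p₀ ^ 6 / 3 := by linarith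
        _ = _ := by ring
    have h2 : 2 / 3 * (1 - 2 * θ) / t + θ / 3 / t ≤ 2 / 3 * (1 - θ) / t := by
      rw [← add_div]
      apply div_le_div_of_nonneg_right _ ht0.le
      linarith
    linarith
  have hmean : ∀ (v : V) (T : Finset ι), (∀ f ∈ T, v ∈ ev f ∧ nomed ev a b f) →
      2 / 3 * (1 - 2 * θ) * ((T.card : ℝ) - (q * 2 ^ q : ℕ)) / t ≤
      EE μ (fun ω => ∑ f ∈ univ.filter (fun f => v ∈ ev f), wA ev t a b θ R μ h ω f) := by
    intro v T hT
    rw [EE_sum]
    set T1 := T.filter (fun f => Gd ev a b R f) with hT1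
    set T2 := T.filter (fun f => ¬ Gd ev a b R f) with hT2
    have h1 : T1.card + T2.card = T.card := card_filter_add_card_filter_not _
    have h2 : T2.card ≤ q * 2 ^ q := by
      apply bad_count h3 hQ v
      intro f hf
      rw [hT2, mem_filter] at hf
      exact ⟨(hT f hf.1).1, (hT f hf.1).2, hf.2⟩
    have h4 : (T.card : ℝ) - (q * 2 ^ q : ℕ) ≤ T1.card := by
      have : T.card ≤ T1.card + q * 2 ^ q := by omega
      have h5 : (T.card : ℝ) ≤ T1.card + (q * 2 ^ q : ℕ) := by exact_mod_cast this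
      linarith
    have h5 : (T1.card : ℝ) * (2 / 3 * (1 - 2 * θ) / t) ≤
        ∑ f ∈ univ.filter (fun f => v ∈ ev f), EE μ (fun ω => wA ev t a b θ R μ h ω f) := by
      calc (T1.card : ℝ) * (2 / 3 * (1 - 2 * θ) / t)
          = ∑ _f ∈ T1, (2 / 3 * (1 - 2 * θ) / t : ℝ) := by rw [sum_const, nsmul_eq_mul]
        _ ≤ ∑ f ∈ T1, EE μ (fun ω => wA ev t a b θ R μ h ω f) := by
            refine sum_le_sum fun f hf => ?_
            rw [hT1, mem_filter] at hf
            exact hmean1 f hf.2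
        _ ≤ _ := by
            apply sum_le_sum_of_subset_of_nonneg
            · intro f hf
              rw [hT1, mem_filter] at hf
              rw [mem_filter]
              exact ⟨mem_univ _, (hT f hf.1).1⟩
            · intro f _ _
              exact EE_nonneg hμ fun ω => H.wA_nonneg ω f
    refine le_trans ?_ h5
    have h6 : (0 : ℝ) ≤ 2 / 3 * (1 - 2 * θ) / t := by
      apply div_nonneg _ ht0.le
      linarith
    have h7 := mul_le_mul_of_nonneg_right h4 h6
    calc _ = ((T.card : ℝ) - (q * 2 ^ q : ℕ)) * (2 / 3 * (1 - 2 * θ) / t) := by ring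
      _ ≤ _ := h7
  -- the local lemma
  set M : V → ℝ := fun v => EE μ (fun ω => ∑ f ∈ univ.filter (fun f => v ∈ ev f),
    wA ev t a b θ R μ h ω f) with hM
  set Z : V → Fin m → (Fin m → (I → Fin (n + 2))) → ℝ := fun v j ω =>
    ∑ f ∈ univ.filter (fun f => v ∈ ev f), wA ev t a b θ R μ h (ω j) f with hZ
  set Bd : V → (Fin m → (I → Fin (n + 2))) → Prop := fun v ω =>
    ∑ j, Z v j ω < ∑ _j : Fin m, M v - ε * m with hBd
  have hcur := Pr_curry (J := Fin m) (fun _ => hμ)
  have hP : ∀ v, PP (fun _ : Fin m => PW μ) (Bd v) ≤ Real.exp (-(ε ^ 2 * m / 2)) := by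
    intro v
    apply chern hcur.1 (Z v) (fun j ω => sum_nonneg fun f _ => H.wA_nonneg (ω j) f)
      (fun j ω => H.wA_sum_le (ω j) v)
    · intro j ω ω' hh
      simp only [hZ]
      rw [hh j (by simp)]
    · intro j ω
      simp only [hZ, hM]
      simp_rw [Function.update_self]
      exact le_refl _
    · exact hε
  have hlll := lll_loc (N := NH ev) (D := D) hcur.2
    (fun p : Fin m × I => lo p.2) NH_self NH_symm hD (R + 2)
    (fun v ω => Bd v (fun c i => ω (c, i))) ?_ (Real.exp (-(ε ^ 2 * m / 2)))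
    (Real.exp_pos _).le ?_ hL
  · obtain ⟨ω, hω⟩ := hlll
    refine ⟨Ab ev a b, fun j => wA ev t a b θ R μ h (fun i => ω (j, i)),
      fun e c hc => Ab_sub hab h3 hc, fun j => H.wA_good hκn' _, fun j v => H.wA_star _ v,
      fun j e => H.wA_le _ e, fun v T hT => ?_⟩
    have h1 := hω v
    simp only [hBd, not_lt] at h1
    refine le_trans ?_ h1
    have h2 := hmean v T hT
    have hm0 : (0 : ℝ) ≤ m := Nat.cast_nonneg m
    rw [sum_const, card_univ, Fintype.card_fin, nsmul_eq_mul]
    have := mul_le_mul_of_nonneg_left h2 hm0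
    linarith
  · intro v ω ω' hh
    have e1 : ∀ j, Z v j (fun c i => ω (c, i)) = Z v j (fun c i => ω' (c, i)) := by
      intro j
      simp only [hZ]
      refine sum_congr rfl fun f hf => ?_
      rw [mem_filter] at hf
      apply H.wA_dep hf.2
      intro i hi
      apply hh (j, i)
      rw [mem_sup] at hi ⊢
      exact hi
    change Bd v _ = Bd v _
    simp only [hBd]
    simp_rw [e1]
  · intro v
    have h1 := EE_curry (fun _ : Fin m => μ)
      (fun ω : Fin m × I → Fin (n + 2) => ind (Bd v (fun c i => ω (c, i))))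
    have h2 := hP v
    unfold PP at h2 ⊢
    rw [h1]
    exact h2

end K3h83.CI
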