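import Mathlib

/-!
# Decomposing a symmetric matrix into involutions
-/

set_option autoImplicit false
set_option linter.unusedSectionVars false

namespace K3h83.CI

open Finset

section
variable {V : Type} [Fintype V] [DecidableEq V]

theorem exists_perm (M : V → V → ℕ) (d : ℕ) (hd : 0 < d) (hr : ∀ i, ∑ j, M i j = d)
    (hc : ∀ j, ∑ i, M i j = d) : ∃ σ : Equiv.Perm V, ∀ i, 0 < M i (σ i) := by
  let f (i : V) : Finset V := univ.filter (fun j => M i j ≠ 0)
  have hf (A : Finset V) : A.card ≤ (A.biUnion f).card := by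
    have h0 (i : V) : ∑ j ∈ f i, M i j = d := by
      rw [← hr i]
      refine sum_subset (filter_subset _ _) fun j _ hj => ?_
      simpa [f] using hj
    have h1 : ∑ i ∈ A, ∑ j ∈ f i, M i j = A.card * d := by simp [h0]
    have h2 : ∑ j ∈ A.biUnion f, ∑ i, M i j = (A.biUnion f).card * d := by simp [hc]
    have h3 : A.card * d ≤ (A.biUnion f).card * d := by
      rw [← h1, ← h2, sum_comm (s := A.biUnion f)]
      calc ∑ i ∈ A, ∑ j ∈ f i, M i j ≤ ∑ i ∈ A, ∑ j ∈ A.biUnion f, M i j :=
            sum_le_sum fun i hi => sum_le_sum_of_subset (subset_biUnion_of_mem f hi)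
        _ ≤ ∑ i, ∑ j ∈ A.biUnion f, M i j := sum_le_sum_of_subset (subset_univ A)
    exact Nat.le_of_mul_le_mul_right h3 hd
  obtain ⟨g, hg, hg'⟩ := (all_card_le_biUnion_card_iff_exists_injective f).1 hf
  rw [Finite.injective_iff_bijective] at hg
  refine ⟨Equiv.ofBijective g hg, fun i => ?_⟩
  have := hg' i
  simp only [f, mem_filter] at this
  exact Nat.pos_of_ne_zero this.2

theorem perm_decomp (d : ℕ) : ∀ (M : V → V → ℕ), (∀ i, ∑ j, M i j = d) →
    (∀ j, ∑ i, M i j = d) → ∃ σ : Fin d → Equiv.Perm V,
      ∀ i j, (univ.filter (fun k => σ k i = j)).card = M i j := by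
  induction d with
  | zero =>
    intro M hr _
    refine ⟨fun k => k.elim0, fun i j => ?_⟩
    have h1 := hr i
    rw [sum_eq_zero_iff] at h1
    rw [h1 j (mem_univ j)]
    simp
  | succ d ih =>
    intro M hr hc
    obtain ⟨τ, hτ⟩ := exists_perm M (d + 1) (Nat.succ_pos d) hr hc
    have hle : ∀ i j, (if τ i = j then 1 else 0) ≤ M i j := by
      intro i j
      split_ifs with h
      · subst h; exact hτ i
      · exact Nat.zero_le _
    have g1 : ∀ i, ∑ j, (M i j - (if τ i = j then 1 else 0)) = d := by
      intro i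
      have h4 : ∑ j, (M i j - (if τ i = j then 1 else 0)) + ∑ j, (if τ i = j then 1 else 0) =
          ∑ j, M i j := by
        rw [← sum_add_distrib]
        exact sum_congr rfl fun j _ => Nat.sub_add_cancel (hle i j)
      rw [hr i, sum_ite_eq] at h4
      simp at h4
      omega
    have g2 : ∀ j, ∑ i, (M i j - (if τ i = j then 1 else 0)) = d := by
      intro j
      have h4 : ∑ i, (M i j - (if τ i = j then 1 else 0)) + ∑ i, (if τ i = j then 1 else 0) =
          ∑ i, M i j := by
        rw [← sum_add_distrib]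
        exact sum_congr rfl fun i _ => Nat.sub_add_cancel (hle i j)
      have h5 : ∑ i, (if τ i = j then 1 else 0) = 1 := by
        have : ∀ i, (if τ i = j then 1 else 0) = (if i = τ.symm j then 1 else 0) := by
          intro i
          congr 1
          rw [eq_iff_iff]
          constructor
          · rintro rfl; simp
          · rintro rfl; simp
        rw [sum_congr rfl fun i _ => this i, sum_ite_eq']
        simp
      rw [hc j, h5] at h4
      omega
    obtain ⟨σ, hσ⟩ := ih (fun i j => M i j - (if τ i = j then 1 else 0)) g1 g2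
    refine ⟨Fin.cons τ σ, fun i j => ?_⟩
    rw [Fin.univ_succ, filter_cons]
    have h2 := hσ i j
    have h3 := hle i j
    by_cases h : τ i = j
    · simp only [Fin.cons_zero, h, if_true] at h2 h3 ⊢
      rw [card_cons, filter_map, card_map]
      simp only [Function.comp_def, Function.Embedding.coeFn_mk, Fin.cons_succ]
      omega
    · simp only [Fin.cons_zero, h, if_false] at h2 h3 ⊢
      rw [filter_map, card_map]
      simp only [Function.comp_def, Function.Embedding.coeFn_mk, Fin.cons_succ]
      omega

theorem three_col (σ : Equiv.Perm V) : ∃ c : V → Fin 3, ∀ x, σ x ≠ x → c x ≠ c (σ x) := by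
  have key : ∀ S : Finset V, ∃ c : V → Fin 3, ∀ x ∈ S, σ x ∈ S → σ x ≠ x → c x ≠ c (σ x) := by
    intro S
    induction S using Finset.induction_on with
    | empty => exact ⟨fun _ => 0, by simp⟩
    | @insert a S ha ih =>
      obtain ⟨c, hc⟩ := ih
      have h3 : ∃ k : Fin 3, k ≠ c (σ a) ∧ k ≠ c (σ.symm a) := by
        generalize c (σ a) = p
        generalize c (σ.symm a) = q
        revert p q
        decide
      obtain ⟨k, hk1, hk2⟩ := h3
      refine ⟨Function.update c a k, fun x hx hσx hne => ?_⟩
      rcases mem_insert.1 hx with rfl | hx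
      · rw [Function.update_self, Function.update_of_ne hne]
        exact hk1
      · have hxa : x ≠ a := fun h => ha (h ▸ hx)
        rw [Function.update_of_ne hxa]
        rcases mem_insert.1 hσx with hσa | hσx
        · rw [hσa, Function.update_self]
          have : x = σ.symm a := by rw [← hσa]; simp
          rw [this]
          exact hk2.symm
        · have hσxa : σ x ≠ a := fun h => ha (h ▸ hσx)
          rw [Function.update_of_ne hσxa]
          exact hc x hx hσx hne
  obtain ⟨c, hc⟩ := key univ
  exact ⟨c, fun x hne => hc x (mem_univ _) (mem_univ _) hne⟩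

/-- the involution of colour `i` -/
def ginv (σ : Equiv.Perm V) (c : V → Fin 3) (i : Fin 3) (x : V) : V :=
  if σ x ≠ x ∧ c x = i then σ x
  else if σ.symm x ≠ x ∧ c (σ.symm x) = i then σ.symm x else x

theorem ginv_ginv (σ : Equiv.Perm V) (c : V → Fin 3) (hc : ∀ x, σ x ≠ x → c x ≠ c (σ x))
    (i : Fin 3) (x : V) : ginv σ c i (ginv σ c i x) = x := by
  by_cases h1 : σ x ≠ x ∧ c x = i
  · have e1 : ginv σ c i x = σ x := by unfold ginv; rw [if_pos h1]
    rw [e1]
    unfold ginv
    have h2 : ¬ (σ (σ x) ≠ σ x ∧ c (σ x) = i) := by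
      rintro ⟨-, h⟩
      exact hc x h1.1 (h1.2.trans h.symm)
    rw [if_neg h2, Equiv.symm_apply_apply, if_pos ⟨h1.1.symm, h1.2⟩]
  · by_cases h2 : σ.symm x ≠ x ∧ c (σ.symm x) = i
    · have e1 : ginv σ c i x = σ.symm x := by unfold ginv; rw [if_neg h1, if_pos h2]
      rw [e1]
      unfold ginv
      rw [Equiv.apply_symm_apply, if_pos ⟨h2.1.symm, h2.2⟩]
    · have e1 : ginv σ c i x = x := by unfold ginv; rw [if_neg h1, if_neg h2]
      rw [e1, e1]

theorem ginv_count (σ : Equiv.Perm V) (c : V → Fin 3) (hc : ∀ x, σ x ≠ x → c x ≠ c (σ x))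
    {x y : V} (hxy : x ≠ y) :
    (univ.filter (fun i => ginv σ c i x = y)).card =
      (if σ x = y then 1 else 0) + (if σ y = x then 1 else 0) := by
  have hs : σ.symm x = y ↔ σ y = x := by rw [Equiv.symm_apply_eq]; exact eq_comm
  have key : ∀ i, ginv σ c i x = y ↔ (σ x = y ∧ c x = i) ∨ (σ y = x ∧ c y = i) := by
    intro i
    unfold ginv
    constructor
    · intro h
      split_ifs at h with h1 h2
      · exact Or.inl ⟨h, h1.2⟩
      · refine Or.inr ⟨hs.1 h, ?_⟩
        rw [← h]
        exact h2.2
      · exact absurd h hxy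
    · rintro (⟨h, h'⟩ | ⟨h, h'⟩)
      · rw [if_pos ⟨by rw [h]; exact hxy.symm, h'⟩, h]
      · have h1 : ¬ (σ x ≠ x ∧ c x = i) := by
          rintro ⟨-, h4⟩
          have h5 : σ y ≠ y := by rw [h]; exact hxy
          have h6 := hc y h5
          rw [h] at h6
          exact h6 (h'.trans h4.symm)
        have h2 : σ.symm x = y := hs.2 h
        rw [if_neg h1, h2, if_pos ⟨hxy.symm, h'⟩]
  simp_rw [key]
  by_cases h1 : σ x = y
  · by_cases h2 : σ y = x
    · rw [if_pos h1, if_pos h2]
      have hne : c x ≠ c y := by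
        have := hc x (by rw [h1]; exact hxy.symm)
        rwa [h1] at this
      have : univ.filter (fun i => (σ x = y ∧ c x = i) ∨ (σ y = x ∧ c y = i)) = {c x, c y} := by
        ext i
        simp [h1, h2, eq_comm]
      rw [this, card_pair hne]
    · rw [if_pos h1, if_neg h2]
      have : univ.filter (fun i => (σ x = y ∧ c x = i) ∨ (σ y = x ∧ c y = i)) = {c x} := by
        ext i
        simp [h1, h2, eq_comm]
      rw [this, card_singleton]
  · by_cases h2 : σ y = x
    · rw [if_neg h1, if_pos h2]
      have : univ.filter (fun i => (σ x = y ∧ c x = i) ∨ (σ y = x ∧ c y = i)) = {c y} := by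
        ext i
        simp [h1, h2, eq_comm]
      rw [this, card_singleton]
    · rw [if_neg h1, if_neg h2]
      have : univ.filter (fun i => (σ x = y ∧ c x = i) ∨ (σ y = x ∧ c y = i)) = ∅ := by
        ext i
        simp [h1, h2]
      rw [this, card_empty]

/-- a symmetric matrix with row sums at most `d` off the diagonal is half the sum of `3 d`
involutions, off the diagonal -/
theorem invols (S : V → V → ℕ) (hs : ∀ u v, S u v = S v u) (d : ℕ)
    (hd : ∀ u, ∑ v ∈ univ.filter (fun v => v ≠ u), S u v ≤ d) :
    ∃ f : Fin (d * 3) → V → V, (∀ j u, f j (f j u) = u) ∧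
      ∀ u v, u ≠ v → (univ.filter (fun j => f j u = v)).card = 2 * S u v := by
  set M : V → V → ℕ := fun u v => if v = u then d - ∑ w ∈ univ.filter (fun w => w ≠ u), S u w
    else S u v with hM
  have hMs : ∀ u v, M u v = M v u := by
    intro u v
    simp only [hM]
    by_cases h : v = u
    · subst h; rfl
    · rw [if_neg h, if_neg (Ne.symm h)]
      exact hs u v
  have hrow : ∀ u, ∑ v, M u v = d := by
    intro u
    rw [← sum_filter_add_sum_filter_not univ (fun v => v = u)]
    have h1 : ∑ v ∈ univ.filter (fun v => v = u), M u v =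
        d - ∑ w ∈ univ.filter (fun w => w ≠ u), S u w := by
      rw [filter_eq', if_pos (mem_univ u), sum_singleton]
      simp [hM]
    have h2 : ∑ v ∈ univ.filter (fun v => ¬ v = u), M u v =
        ∑ w ∈ univ.filter (fun w => w ≠ u), S u w := by
      refine sum_congr rfl fun v hv => ?_
      rw [mem_filter] at hv
      simp only [hM]
      rw [if_neg hv.2]
    rw [h1, h2]
    have := hd u
    omega
  obtain ⟨σ, hσ⟩ := perm_decomp d M hrow (fun v => by
    rw [← hrow v]
    exact sum_congr rfl fun u _ => hMs u v)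
  choose c hc using fun k => three_col (σ k)
  refine ⟨fun j => ginv (σ (finProdFinEquiv.symm j).1) (c (finProdFinEquiv.symm j).1)
    (finProdFinEquiv.symm j).2, fun j u => ginv_ginv _ _ (hc _) _ _, fun u v huv => ?_⟩
  have h1 : (univ.filter (fun j : Fin (d * 3) => ginv (σ (finProdFinEquiv.symm j).1)
      (c (finProdFinEquiv.symm j).1) (finProdFinEquiv.symm j).2 u = v)).card =
      ∑ k, (univ.filter (fun i : Fin 3 => ginv (σ k) (c k) i u = v)).card := by
    rw [card_filter]
    simp_rw [card_filter]
    rw [← Fintype.sum_prod_type' (f := fun k i => if ginv (σ k) (c k) i u = v then 1 else 0)]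
    refine Fintype.sum_equiv finProdFinEquiv.symm _ _ fun j => rfl
  rw [h1]
  simp_rw [fun k => ginv_count (σ k) (c k) (hc k) huv]
  rw [sum_add_distrib]
  have h2 := hσ u v
  have h3 := hσ v u
  rw [card_filter] at h2 h3
  rw [h2, h3, hMs v u]
  simp only [hM]
  rw [if_neg huv.symm]
  ring

end

end K3h83.CI
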