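import Pool.Agent.K3h83.CI.Slice

/-!
# Chromatic index of simple 3-uniform hypergraphs
-/

set_option autoImplicit false
set_option linter.unusedSectionVars false

namespace K3h83.CI

open Finset

/-- greedy colouring -/
theorem greedy {ι : Type} [Fintype ι] [DecidableEq ι] (C : ι → Finset ι) (d : ℕ)
    (hs : ∀ e f, f ∈ C e → e ∈ C f) (hd : ∀ e, ((C e).erase e).card ≤ d) :
    ∃ c : ι → ℕ, (∀ e, c e < d + 1) ∧ ∀ e f, e ≠ f → f ∈ C e → c e ≠ c f := by
  classical
  have key : ∀ S : Finset ι, ∃ c : ι → ℕ, (∀ e, c e < d + 1) ∧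
      ∀ e ∈ S, ∀ f ∈ S, e ≠ f → f ∈ C e → c e ≠ c f := by
    intro S
    induction S using Finset.induction_on with
    | empty => exact ⟨fun _ => 0, by simp, by simp⟩
    | @insert a S ha ih =>
      obtain ⟨c, hc1, hc2⟩ := ih
      have h1 : (((C a).erase a).image c).card < (range (d + 1)).card := by
        rw [card_range]
        have := card_image_le (s := (C a).erase a) (f := c)
        have := hd a
        omega
      obtain ⟨k, hk, hk'⟩ := exists_mem_notMem_of_card_lt_card h1
      rw [mem_range] at hk
      have hk2 : ∀ f, f ≠ a → f ∈ C a → k ≠ c f := by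
        intro f hf hfC he
        apply hk'
        rw [he]
        exact mem_image_of_mem c (mem_erase.2 ⟨hf, hfC⟩)
      refine ⟨Function.update c a k, fun e => ?_, fun e he f hf hne hfC => ?_⟩
      · by_cases h : e = a
        · subst h; rw [Function.update_self]; exact hk
        · rw [Function.update_of_ne h]; exact hc1 e
      · rcases mem_insert.1 he with rfl | he
        · rw [Function.update_self, Function.update_of_ne hne.symm]
          exact hk2 f hne.symm hfC
        · have hea : e ≠ a := fun h => ha (h ▸ he)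
          rcases mem_insert.1 hf with rfl | hf
          · rw [Function.update_self, Function.update_of_ne hne]
            exact (hk2 e hne (hs e f hfC)).symm
          · have hfa : f ≠ a := fun h => ha (h ▸ hf)
            rw [Function.update_of_ne hea, Function.update_of_ne hfa]
            exact hc2 e he f hf hne hfC
  obtain ⟨c, hc1, hc2⟩ := key univ
  exact ⟨c, hc1, fun e f => hc2 e (mem_univ e) f (mem_univ f)⟩

theorem greedy_hyp {V ι : Type} [Fintype V] [DecidableEq V] [Fintype ι] [DecidableEq ι]
    (ev : ι → Finset V) (t : ℕ) (h3 : Hyp3 ev t) :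
    ∃ c : ι → ℕ, (∀ e, c e < 3 * t + 1) ∧ ∀ e f, e ≠ f → c e = c f → Disjoint (ev e) (ev f) := by
  classical
  obtain ⟨c, hc1, hc2⟩ := greedy (fun e => univ.filter (fun f => ¬ Disjoint (ev e) (ev f)))
    (3 * t) (fun e f hf => by
      rw [mem_filter] at hf ⊢
      exact ⟨mem_univ _, fun hd => hf.2 hd.symm⟩) (fun e => by
      have h1 : (univ.filter (fun f => ¬ Disjoint (ev e) (ev f))).erase e ⊆
          (ev e).biUnion (fun v => univ.filter (fun f => v ∈ ev f)) := by
        intro f hf
        rw [mem_erase, mem_filter, not_disjoint_iff] at hf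
        obtain ⟨-, -, v, hv1, hv2⟩ := hf
        rw [mem_biUnion]
        exact ⟨v, hv1, mem_filter.2 ⟨mem_univ _, hv2⟩⟩
      refine (card_le_card h1).trans (card_biUnion_le.trans ?_)
      calc _ ≤ ∑ _v ∈ ev e, t := sum_le_sum fun v _ => h3.deg v
        _ = 3 * t := by rw [sum_const, smul_eq_mul, h3.card3])
  refine ⟨c, hc1, fun e f hne he => ?_⟩
  by_contra hd
  exact hc2 e f hne (mem_filter.2 ⟨mem_univ _, hd⟩) he

theorem main (θ : ℝ) (hθ : 0 < θ) (hθ1 : θ < 1) :
    ∃ T : ℕ, ∀ t : ℕ, ∀ (V ι : Type) [Fintype V] [DecidableEq V] [Fintype ι]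
      [DecidableEq ι] (ev : ι → Finset V), Hyp3 ev t →
      ∃ (k : ℕ) (c : ι → ℕ), 1 ≤ k ∧ (k : ℝ) ≤ 3 / 2 / (1 - θ) * t + (3 * T + 1) ∧
        (∀ e, c e < k) ∧ ∀ e f, e ≠ f → c e = c f → Disjoint (ev e) (ev f) := by
  classical
  obtain ⟨T, hT⟩ := slice θ hθ hθ1
  have h1θ : 0 < 1 - θ := by linarith
  refine ⟨T, fun t => ?_⟩
  induction t using Nat.strong_induction_on with
  | _ t ih =>
    intro V ι _ _ _ _ ev h3
    by_cases htT : t < T
    · obtain ⟨c, hc1, hc2⟩ := greedy_hyp ev t h3
      refine ⟨3 * T + 1, c, by omega, ?_, fun e => (hc1 e).trans_le (by omega), hc2⟩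
      have : 0 ≤ 3 / 2 / (1 - θ) * (t : ℝ) := by positivity
      push_cast
      linarith
    · push Not at htT
      obtain ⟨m, M, hm1, hmt, hM, hdeg⟩ := hT t htT V ι ev h3
      set P := univ.biUnion M with hP
      set x : ℝ := t - 2 / 3 * (1 - θ) * m with hx
      have hmr : (1 : ℝ) ≤ m := by exact_mod_cast hm1
      have hmtr : (m : ℝ) ≤ t := by exact_mod_cast hmt
      have hx0 : 0 ≤ x := by
        rw [hx]
        have : 2 / 3 * (1 - θ) * (m : ℝ) ≤ 1 * m :=
          mul_le_mul_of_nonneg_right (by linarith) (by linarith)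
        linarith
      have hxt : x < t := by
        rw [hx]
        have : 0 < 2 / 3 * (1 - θ) * (m : ℝ) := by positivity
        linarith
      set t' : ℕ := ⌊x⌋₊ with ht'
      have ht'x : (t' : ℝ) ≤ x := Nat.floor_le hx0
      have ht't : t' < t := by
        have : (t' : ℝ) < t := lt_of_le_of_lt ht'x hxt
        exact_mod_cast this
      set ev' : {e : ι // e ∉ P} → Finset V := fun e => ev e.1 with hev'
      have h3' : Hyp3 ev' t' := by
        refine ⟨fun e f hef => Subtype.ext (h3.inj hef), fun e => h3.card3 _, fun v => ?_⟩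
        apply Nat.le_floor
        refine le_trans ?_ (hdeg v)
        have : (univ.filter (fun e : {e : ι // e ∉ P} => v ∈ ev' e)).card ≤
            (univ.filter (fun f => v ∈ ev f ∧ f ∉ P)).card := by
          apply card_le_card_of_injOn (fun e : {e : ι // e ∉ P} => e.1)
          · intro e he
            rw [mem_coe, mem_filter] at he
            rw [mem_coe, mem_filter]
            exact ⟨mem_univ _, he.2, e.2⟩
          · intro e _ f _ hef
            exact Subtype.ext hef
        exact_mod_cast this
      obtain ⟨k', c', hk'1, hk'2, hc'1, hc'2⟩ := ih t' ht't V {e : ι // e ∉ P} ev' h3'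
      -- the colours of the removed edges
      have hex : ∀ e ∈ P, ∃ j : Fin m, e ∈ M j := by
        intro e he
        rw [hP, mem_biUnion] at he
        obtain ⟨j, -, hj⟩ := he
        exact ⟨j, hj⟩
      choose g hg using hex
      refine ⟨m + k', fun e => if h : e ∈ P then (g e h).val else m + c' ⟨e, h⟩, by omega, ?_,
        fun e => ?_, fun e f hne he => ?_⟩
      · push_cast
        have h1 : 3 / 2 / (1 - θ) * (t' : ℝ) ≤ 3 / 2 / (1 - θ) * x :=
          mul_le_mul_of_nonneg_left ht'x (by positivity)
        have h2 : 3 / 2 / (1 - θ) * x = 3 / 2 / (1 - θ) * t - m := by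
          rw [hx]
          field_simp
        linarith
      · by_cases h : e ∈ P
        · simp only [dif_pos h]
          have := (g e h).isLt
          omega
        · simp only [dif_neg h]
          have := hc'1 ⟨e, h⟩
          omega
      · by_cases h1 : e ∈ P <;> by_cases h2 : f ∈ P
        · simp only [dif_pos h1, dif_pos h2] at he
          have h4 : g e h1 = g f h2 := Fin.ext he
          have h5 := hg e h1
          have h6 := hg f h2
          rw [← h4] at h6
          exact hM _ e h5 f h6 hne
        · simp only [dif_pos h1, dif_neg h2] at he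
          have := (g e h1).isLt
          omega
        · simp only [dif_neg h1, dif_pos h2] at he
          have := (g f h2).isLt
          omega
        · simp only [dif_neg h1, dif_neg h2] at he
          exact hc'2 ⟨e, h1⟩ ⟨f, h2⟩ (fun hh => hne (congrArg Subtype.val hh)) (by omega)

end K3h83.CI
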