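import Pool.Agent.K3h83.CI.PM

/-!
# The local lemma for product spaces, balls, and a sequential Chernoff bound
-/

set_option autoImplicit false
set_option linter.unusedSectionVars false

namespace K3h83.CI

open Finset

section LLL
variable {I α J : Type} [Fintype I] [DecidableEq I] [Fintype α] [DecidableEq J]

theorem one_sub_sum_le {Ω : Type} (A : J → Ω → Prop) (T : Finset J) (ω : Ω) :
    1 - ∑ i ∈ T, ind (A i ω) ≤ ∏ i ∈ T, (1 - ind (A i ω)) := by
  by_cases h : ∃ i ∈ T, A i ω
  · obtain ⟨i, hi, hA⟩ := h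
    have h1 : (1 : ℝ) ≤ ∑ i ∈ T, ind (A i ω) := by
      calc (1 : ℝ) = ind (A i ω) := (ind_true hA).symm
        _ ≤ _ := single_le_sum (f := fun i => ind (A i ω)) (fun _ _ => ind_nonneg _) hi
    have h2 : 0 ≤ ∏ i ∈ T, (1 - ind (A i ω)) :=
      prod_nonneg fun i _ => by linarith [ind_le_one (A i ω)]
    linarith
  · push Not at h
    rw [prod_eq_one fun i hi => by rw [ind_false (h i hi), sub_zero],
      sum_eq_zero fun i hi => ind_false (h i hi), sub_zero]

theorem lll_key {μ : I → α → ℝ} (h : Pr μ) (A : J → (I → α) → Prop) (S : J → Finset I)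
    (hdep : ∀ j, Dep (A j) (S j)) (p : ℝ) (hp0 : 0 ≤ p) (hp : ∀ j, PP μ (A j) ≤ p) (d : ℕ)
    (hd : ∀ j (T : Finset J), (∀ i ∈ T, ¬ Disjoint (S i) (S j)) → T.card ≤ d)
    (h4 : 4 * p * d ≤ 1) :
    ∀ n : ℕ, ∀ T : Finset J, T.card = n → ∀ j,
      EE μ (fun ω => ind (A j ω) * ∏ i ∈ T, (1 - ind (A i ω))) ≤
        2 * p * EE μ (fun ω => ∏ i ∈ T, (1 - ind (A i ω))) := by
  classical
  intro n
  induction n using Nat.strong_induction_on with
  | _ n ih =>
    intro T hT j
    set T₁ := T.filter (fun i => ¬ Disjoint (S i) (S j)) with hT₁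
    set T₂ := T.filter (fun i => ¬ ¬ Disjoint (S i) (S j)) with hT₂
    have hfac : ∀ x : J, ∀ ω : I → α, 0 ≤ 1 - ind (A x ω) := fun x ω => by
      linarith [ind_le_one (A x ω)]
    have hsplit : ∀ ω : I → α, ∏ i ∈ T, (1 - ind (A i ω)) =
        (∏ i ∈ T₁, (1 - ind (A i ω))) * ∏ i ∈ T₂, (1 - ind (A i ω)) := by
      intro ω
      rw [hT₁, hT₂, prod_filter_mul_prod_filter_not]
    have hdep₂ : Dep (fun ω => ∏ i ∈ T₂, (1 - ind (A i ω))) (T₂.biUnion S) := by
      apply Dep.prod
      intro k hk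
      exact ((hdep k).mono (subset_biUnion_of_mem S hk)).comp (fun P => 1 - ind P)
    have hdisj : Disjoint (S j) (T₂.biUnion S) := by
      rw [disjoint_biUnion_right]
      intro i hi
      rw [hT₂, mem_filter, not_not] at hi
      exact hi.2.symm
    have hind : EE μ (fun ω => ind (A j ω) * ∏ i ∈ T₂, (1 - ind (A i ω))) =
        PP μ (A j) * EE μ (fun ω => ∏ i ∈ T₂, (1 - ind (A i ω))) :=
      EE_indep h ((hdep j).comp ind) hdep₂ hdisj
    have hE2 : 0 ≤ EE μ (fun ω => ∏ i ∈ T₂, (1 - ind (A i ω))) :=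
      EE_nonneg h fun ω => prod_nonneg fun i _ => hfac i ω
    have h1 : EE μ (fun ω => ind (A j ω) * ∏ i ∈ T, (1 - ind (A i ω))) ≤
        p * EE μ (fun ω => ∏ i ∈ T₂, (1 - ind (A i ω))) := by
      calc _ ≤ EE μ (fun ω => ind (A j ω) * ∏ i ∈ T₂, (1 - ind (A i ω))) := by
            refine EE_mono h fun ω => ?_
            rw [hsplit ω]
            have h5 : ∏ i ∈ T₁, (1 - ind (A i ω)) ≤ 1 :=
              prod_le_one (fun i _ => hfac i ω) fun i _ => by linarith [ind_nonneg (A i ω)]
            have h6 : 0 ≤ ∏ i ∈ T₂, (1 - ind (A i ω)) := prod_nonneg fun i _ => hfac i ω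
            refine mul_le_mul_of_nonneg_left ?_ (ind_nonneg _)
            nlinarith
        _ = _ := hind
        _ ≤ _ := mul_le_mul_of_nonneg_right (hp j) hE2
    rcases T₁.eq_empty_or_nonempty with he | hne
    · have h2 : EE μ (fun ω => ∏ i ∈ T, (1 - ind (A i ω))) =
          EE μ (fun ω => ∏ i ∈ T₂, (1 - ind (A i ω))) := by
        congr 1
        funext ω
        rw [hsplit ω, he, prod_empty, one_mul]
      rw [h2]
      nlinarith
    · have hlt : T₂.card < n := by
        have h7 : T₁.card + T₂.card = T.card := card_filter_add_card_filter_not _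
        have h8 := hne.card_pos
        omega
      have hcard : (T₁.card : ℝ) ≤ d := by
        exact_mod_cast hd j T₁ fun i hi => (mem_filter.1 hi).2
      have h3 : EE μ (fun ω => ∏ i ∈ T₂, (1 - ind (A i ω))) -
          ∑ i ∈ T₁, EE μ (fun ω => ind (A i ω) * ∏ i ∈ T₂, (1 - ind (A i ω))) ≤
          EE μ (fun ω => ∏ i ∈ T, (1 - ind (A i ω))) := by
        rw [← EE_sum, ← EE_sub]
        refine EE_mono h fun ω => ?_
        rw [hsplit ω, ← sum_mul]
        have h6 : 0 ≤ ∏ i ∈ T₂, (1 - ind (A i ω)) := prod_nonneg fun i _ => hfac i ω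
        have h9 := one_sub_sum_le A T₁ ω
        nlinarith
      have h4' : ∑ i ∈ T₁, EE μ (fun ω => ind (A i ω) * ∏ i ∈ T₂, (1 - ind (A i ω))) ≤
          T₁.card * (2 * p * EE μ (fun ω => ∏ i ∈ T₂, (1 - ind (A i ω)))) := by
        rw [← nsmul_eq_mul]
        exact sum_le_card_nsmul _ _ _ fun i _ => ih _ hlt T₂ rfl i
      have h10 : (T₁.card : ℝ) * (2 * p * EE μ (fun ω => ∏ i ∈ T₂, (1 - ind (A i ω)))) ≤
          1 / 2 * EE μ (fun ω => ∏ i ∈ T₂, (1 - ind (A i ω))) := by
        have h11 : (T₁.card : ℝ) * (2 * p) ≤ 1 / 2 := by nlinarith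
        nlinarith
      nlinarith

/-- the symmetric local lemma -/
theorem lll [Fintype J] {μ : I → α → ℝ} (h : Pr μ) (A : J → (I → α) → Prop) (S : J → Finset I)
    (hdep : ∀ j, Dep (A j) (S j)) (p : ℝ) (hp0 : 0 ≤ p) (hp : ∀ j, PP μ (A j) ≤ p) (d : ℕ)
    (hd : ∀ j (T : Finset J), (∀ i ∈ T, ¬ Disjoint (S i) (S j)) → T.card ≤ d)
    (hd1 : 1 ≤ d) (h4 : 4 * p * d ≤ 1) :
    ∃ ω, ∀ j, ¬ A j ω := by
  classical
  have hp4 : 4 * p ≤ 1 := by
    have : (1 : ℝ) ≤ d := by exact_mod_cast hd1
    nlinarith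
  have hpos : ∀ T : Finset J, 0 < EE μ (fun ω => ∏ i ∈ T, (1 - ind (A i ω))) := by
    intro T
    induction T using Finset.induction_on with
    | empty =>
      simp only [prod_empty]
      rw [EE_one h]
      norm_num
    | @insert j T hj ih =>
      have h1 := lll_key h A S hdep p hp0 hp d hd h4 T.card T rfl j
      have h2 : EE μ (fun ω => ∏ i ∈ insert j T, (1 - ind (A i ω))) =
          EE μ (fun ω => ∏ i ∈ T, (1 - ind (A i ω))) -
          EE μ (fun ω => ind (A j ω) * ∏ i ∈ T, (1 - ind (A i ω))) := by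
        rw [← EE_sub]
        congr 1
        funext ω
        rw [prod_insert hj]
        ring
      rw [h2]
      nlinarith
  by_contra hcon
  push Not at hcon
  have h0 := hpos univ
  have h1 : (fun ω => ∏ i, (1 - ind (A i ω))) = fun _ : I → α => (0 : ℝ) := by
    funext ω
    obtain ⟨j, hj⟩ := hcon ω
    exact prod_eq_zero (mem_univ j) (by rw [ind_true hj, sub_self])
  rw [h1, EE_const h] at h0
  exact lt_irrefl _ h0

end LLL

section Ball
variable {V : Type} [DecidableEq V]

/-- balls with respect to a neighbourhood function -/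
def ball (N : V → Finset V) : ℕ → V → Finset V
  | 0, v => {v}
  | k + 1, v => (ball N k v).biUnion N

variable {N : V → Finset V}

theorem ball_succ (k : ℕ) (v : V) : ball N (k + 1) v = (ball N k v).biUnion N := rfl

theorem ball_self (hN : ∀ v, v ∈ N v) (k : ℕ) (v : V) : v ∈ ball N k v := by
  induction k with
  | zero => simp [ball]
  | succ k ih => exact mem_biUnion.2 ⟨v, ih, hN v⟩

theorem ball_mono (hN : ∀ v, v ∈ N v) {k l : ℕ} (h : k ≤ l) (v : V) :
    ball N k v ⊆ ball N l v := by
  induction h with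
  | refl => exact Subset.refl _
  | @step l _ ih => exact fun x hx => mem_biUnion.2 ⟨x, ih hx, hN x⟩

theorem ball_trans {i j : ℕ} {u v w : V} (h : u ∈ ball N i v) (h' : w ∈ ball N j u) :
    w ∈ ball N (i + j) v := by
  induction j generalizing w with
  | zero =>
    simp only [ball, mem_singleton] at h'
    subst h'
    exact h
  | succ j ih =>
    rw [ball_succ, mem_biUnion] at h'
    obtain ⟨x, hx, hwx⟩ := h'
    rw [← add_assoc, ball_succ, mem_biUnion]
    exact ⟨x, ih hx, hwx⟩

theorem ball_one (v : V) : ball N 1 v = N v := by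
  rw [ball_succ]
  simp [ball]

theorem ball_symm (hs : ∀ u v, u ∈ N v → v ∈ N u) {k : ℕ} {u v : V} (h : u ∈ ball N k v) :
    v ∈ ball N k u := by
  induction k generalizing u with
  | zero =>
    simp only [ball, mem_singleton] at h ⊢
    exact h.symm
  | succ k ih =>
    rw [ball_succ, mem_biUnion] at h
    obtain ⟨x, hx, hux⟩ := h
    have h1 := ih hx
    rw [add_comm]
    refine ball_trans (i := 1) ?_ h1
    rw [ball_one]
    exact hs _ _ hux

theorem ball_card {D : ℕ} (hD : ∀ v, (N v).card ≤ D) (k : ℕ) (v : V) :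
    (ball N k v).card ≤ D ^ k := by
  induction k with
  | zero => simp [ball]
  | succ k ih =>
    rw [ball_succ]
    calc _ ≤ ∑ x ∈ ball N k v, (N x).card := card_biUnion_le
      _ ≤ ∑ _x ∈ ball N k v, D := sum_le_sum fun x _ => hD x
      _ = (ball N k v).card * D := by rw [sum_const, smul_eq_mul]
      _ ≤ D ^ k * D := Nat.mul_le_mul_right _ ih
      _ = D ^ (k + 1) := (pow_succ _ _).symm

/-- the coordinates located inside a set -/
def sup {I : Type} [Fintype I] (loc : I → Finset V) (B : Finset V) : Finset I :=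
  univ.filter (fun i => (loc i).Nonempty ∧ loc i ⊆ B)

theorem mem_sup {I : Type} [Fintype I] (loc : I → Finset V) (B : Finset V) (i : I) :
    i ∈ sup loc B ↔ (loc i).Nonempty ∧ loc i ⊆ B := by simp [sup]

theorem sup_mono {I : Type} [Fintype I] (loc : I → Finset V) {B C : Finset V} (h : B ⊆ C) :
    sup loc B ⊆ sup loc C := fun i hi => by
  rw [mem_sup] at hi ⊢
  exact ⟨hi.1, hi.2.trans h⟩

theorem sup_disjoint {I : Type} [Fintype I] [DecidableEq I] (loc : I → Finset V) {B C : Finset V}
    (h : Disjoint B C) : Disjoint (sup loc B) (sup loc C) := by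
  rw [disjoint_left]
  intro i hi hi'
  rw [mem_sup] at hi hi'
  obtain ⟨x, hx⟩ := hi.1
  exact (disjoint_left.1 h) (hi.2 hx) (hi'.2 hx)

/-- the local lemma for located coordinates -/
theorem lll_loc [Fintype V] {I α : Type} [Fintype I] [DecidableEq I] [Fintype α]
    {μ : I → α → ℝ} (h : Pr μ) (loc : I → Finset V) (hN : ∀ v, v ∈ N v)
    (hs : ∀ u v, u ∈ N v → v ∈ N u) {D : ℕ} (hD : ∀ v, (N v).card ≤ D) (k : ℕ)
    (A : V → (I → α) → Prop) (hdep : ∀ v, Dep (A v) (sup loc (ball N k v)))
    (p : ℝ) (hp0 : 0 ≤ p) (hp : ∀ v, PP μ (A v) ≤ p) (h4 : 4 * p * (D : ℝ) ^ (2 * k) ≤ 1) :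
    ∃ ω, ∀ v, ¬ A v ω := by
  rcases isEmpty_or_nonempty V with hV | ⟨⟨v₀⟩⟩
  · have : Nonempty (I → α) := by
      by_contra hcon
      rw [not_nonempty_iff] at hcon
      have h1 := EE_one h
      unfold EE at h1
      rw [Fintype.sum_empty] at h1
      norm_num at h1
    obtain ⟨ω⟩ := this
    exact ⟨ω, fun v => (hV.false v).elim⟩
  refine lll h A (fun v => sup loc (ball N k v)) hdep p hp0 hp (D ^ (2 * k)) ?_ ?_ ?_
  · intro v T hT
    calc T.card ≤ (ball N (2 * k) v).card := by
          apply card_le_card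
          intro u hu
          have h1 := hT u hu
          rw [disjoint_left] at h1
          push Not at h1
          obtain ⟨i, hi, hi'⟩ := h1
          rw [mem_sup] at hi hi'
          obtain ⟨x, hx⟩ := hi.1
          have h2 := hi.2 hx
          have h3 := hi'.2 hx
          rw [two_mul]
          exact ball_trans h3 (ball_symm hs h2)
      _ ≤ D ^ (2 * k) := ball_card hD _ _
  · apply Nat.one_le_pow
    have := hD v₀
    have h1 : 0 < (N v₀).card := card_pos.2 ⟨v₀, hN v₀⟩
    omega
  · push_cast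
    exact h4

end Ball

section Chern
variable {m : ℕ} {Ω : Type} [Fintype Ω]

theorem exp_neg_le_quad {x : ℝ} (hx : 0 ≤ x) : Real.exp (-x) ≤ 1 - x + x ^ 2 / 2 := by
  have h1 := Real.quadratic_le_exp_of_nonneg hx
  rw [Real.exp_neg, inv_le_comm₀ (Real.exp_pos x) (by nlinarith [sq_nonneg (x - 1)])]
  refine le_trans ?_ h1
  rw [inv_le_iff_one_le_mul₀ (by nlinarith [sq_nonneg (x - 1)])]
  nlinarith [pow_nonneg hx 4]

/-- sequential Chernoff bound (lower tail) -/
theorem chern {q : Fin m → Ω → ℝ} (hq : Pr q)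
    (Z : Fin m → (Fin m → Ω) → ℝ) (hZ0 : ∀ c ω, 0 ≤ Z c ω) (hZ1 : ∀ c ω, Z c ω ≤ 1)
    (hdep : ∀ c, Dep (Z c) (univ.filter (· ≤ c))) (M : Fin m → ℝ)
    (hM : ∀ c ω, M c ≤ ∑ a, q c a * Z c (Function.update ω c a)) (ε : ℝ) (hε : 0 < ε) :
    PP q (fun ω => ∑ c, Z c ω < ∑ c, M c - ε * m) ≤ Real.exp (-(ε ^ 2 * m / 2)) := by
  classical
  have key : ∀ k : ℕ, k ≤ m →
      EE q (fun ω => Real.exp (-(ε * ∑ c ∈ univ.filter (fun c : Fin m => c.val < k), Z c ω))) ≤
        Real.exp (∑ c ∈ univ.filter (fun c : Fin m => c.val < k), (-(ε * M c) + ε ^ 2 / 2)) := by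
    intro k
    induction k with
    | zero =>
      intro _
      simp only [Nat.not_lt_zero, filter_false, sum_empty, mul_zero, neg_zero, Real.exp_zero]
      rw [EE_one hq]
    | succ k ih =>
      intro hk
      have ih' := ih (by omega)
      set c₀ : Fin m := ⟨k, by omega⟩ with hc₀
      have hins : univ.filter (fun c : Fin m => c.val < k + 1) =
          insert c₀ (univ.filter (fun c : Fin m => c.val < k)) := by
        ext c
        simp only [mem_filter, mem_univ, true_and, mem_insert, hc₀, Fin.ext_iff]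
        omega
      have hni : c₀ ∉ univ.filter (fun c : Fin m => c.val < k) := by
        simp [hc₀]
      rw [hins, sum_insert hni, Real.exp_add]
      have e1 : ∀ ω : Fin m → Ω, Real.exp (-(ε * ∑ c ∈ insert c₀ (univ.filter
          (fun c : Fin m => c.val < k)), Z c ω)) =
          Real.exp (-(ε * ∑ c ∈ univ.filter (fun c : Fin m => c.val < k), Z c ω)) *
          Real.exp (-(ε * Z c₀ ω)) := by
        intro ω
        rw [sum_insert hni, ← Real.exp_add]
        congr 1
        ring
      simp_rw [e1]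
      rw [EE_update hq c₀]
      have e2 : ∀ (ω : Fin m → Ω) (a : Ω), ∑ c ∈ univ.filter (fun c : Fin m => c.val < k),
          Z c (Function.update ω c₀ a) = ∑ c ∈ univ.filter (fun c : Fin m => c.val < k), Z c ω := by
        intro ω a
        refine sum_congr rfl fun c hc => ?_
        refine hdep c _ _ fun i hi => ?_
        rw [mem_filter] at hi hc
        have : i ≠ c₀ := by
          intro he
          have h1 : i.val ≤ c.val := hi.2
          rw [he] at h1
          have h2 := hc.2
          simp only [hc₀] at h1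
          omega
        simp [this]
      have e3 : ∀ ω : Fin m → Ω, ∑ a, q c₀ a * (Real.exp (-(ε * ∑ c ∈ univ.filter
          (fun c : Fin m => c.val < k), Z c (Function.update ω c₀ a))) *
          Real.exp (-(ε * Z c₀ (Function.update ω c₀ a)))) ≤
          Real.exp (-(ε * M c₀) + ε ^ 2 / 2) *
          Real.exp (-(ε * ∑ c ∈ univ.filter (fun c : Fin m => c.val < k), Z c ω)) := by
        intro ω
        have e4 : ∑ a, q c₀ a * (Real.exp (-(ε * ∑ c ∈ univ.filter
          (fun c : Fin m => c.val < k), Z c (Function.update ω c₀ a))) *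
          Real.exp (-(ε * Z c₀ (Function.update ω c₀ a)))) =
          (∑ a, q c₀ a * Real.exp (-(ε * Z c₀ (Function.update ω c₀ a)))) *
          Real.exp (-(ε * ∑ c ∈ univ.filter (fun c : Fin m => c.val < k), Z c ω)) := by
          rw [sum_mul]
          refine sum_congr rfl fun a _ => ?_
          rw [e2 ω a]
          ring
        rw [e4]
        refine mul_le_mul_of_nonneg_right ?_ (Real.exp_pos _).le
        calc ∑ a, q c₀ a * Real.exp (-(ε * Z c₀ (Function.update ω c₀ a)))
            ≤ ∑ a, q c₀ a * (1 - ε * Z c₀ (Function.update ω c₀ a) + ε ^ 2 / 2) := by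
              refine sum_le_sum fun a _ => mul_le_mul_of_nonneg_left ?_ (hq.nonneg _ _)
              have hz0 := hZ0 c₀ (Function.update ω c₀ a)
              have hz1 := hZ1 c₀ (Function.update ω c₀ a)
              have h5 := exp_neg_le_quad (x := ε * Z c₀ (Function.update ω c₀ a)) (by positivity)
              have h6 : (ε * Z c₀ (Function.update ω c₀ a)) ^ 2 ≤ ε ^ 2 := by
                rw [mul_pow]
                have : Z c₀ (Function.update ω c₀ a) ^ 2 ≤ 1 := by nlinarith
                nlinarith [sq_nonneg ε]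
              linarith
          _ = 1 - ε * (∑ a, q c₀ a * Z c₀ (Function.update ω c₀ a)) + ε ^ 2 / 2 := by
              have h7 : ∀ a, q c₀ a * (1 - ε * Z c₀ (Function.update ω c₀ a) + ε ^ 2 / 2) =
                  q c₀ a * (1 + ε ^ 2 / 2) - ε * (q c₀ a * Z c₀ (Function.update ω c₀ a)) :=
                fun a => by ring
              simp_rw [h7]
              rw [sum_sub_distrib, ← sum_mul, ← mul_sum, hq.sum_one]
              ring
          _ ≤ 1 - ε * M c₀ + ε ^ 2 / 2 := by nlinarith [hM c₀ ω]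
          _ ≤ _ := by
              have := Real.add_one_le_exp (-(ε * M c₀) + ε ^ 2 / 2)
              linarith
      calc _ ≤ EE q (fun ω => Real.exp (-(ε * M c₀) + ε ^ 2 / 2) *
          Real.exp (-(ε * ∑ c ∈ univ.filter (fun c : Fin m => c.val < k), Z c ω))) :=
            EE_mono hq e3
        _ = Real.exp (-(ε * M c₀) + ε ^ 2 / 2) * EE q (fun ω =>
          Real.exp (-(ε * ∑ c ∈ univ.filter (fun c : Fin m => c.val < k), Z c ω))) := EE_mul _ _ _
        _ ≤ _ := mul_le_mul_of_nonneg_left ih' (Real.exp_pos _).le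
  have hfin := key m le_rfl
  have hall : univ.filter (fun c : Fin m => c.val < m) = univ := by
    ext c
    simp
  rw [hall] at hfin
  have h8 : PP q (fun ω => ∑ c, Z c ω < ∑ c, M c - ε * m) ≤
      PP q (fun ω => Real.exp (-(ε * (∑ c, M c - ε * m))) ≤
        Real.exp (-(ε * ∑ c, Z c ω))) := by
    refine PP_mono hq fun ω hω => ?_
    rw [Real.exp_le_exp]
    nlinarith
  refine h8.trans ((PP_markov hq (fun ω => (Real.exp_pos _).le) (Real.exp_pos _)).trans ?_)
  rw [div_le_iff₀ (Real.exp_pos _), ← Real.exp_add]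
  refine hfin.trans (Real.exp_le_exp.2 ?_)
  rw [sum_add_distrib, sum_neg_distrib, ← mul_sum, sum_const, card_univ, Fintype.card_fin,
    nsmul_eq_mul]
  nlinarith

end Chern

end K3h83.CI
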