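import Pool.Agent.K3h83.CI.LLL

/-!
# Merging two involutions locally
-/

set_option autoImplicit false
set_option linter.unusedSectionVars false

namespace K3h83.CI

open Finset

section
variable {V : Type} [DecidableEq V]

/-- neighbourhood with respect to two maps -/
def nb (h f : V → V) (x : V) : Finset V := {x, h x, f x}

theorem nb_self (h f : V → V) (x : V) : x ∈ nb h f x := by simp [nb]

theorem nb_symm {h f : V → V} (hh : ∀ x, h (h x) = x) (hf : ∀ x, f (f x) = x) (u v : V)
    (huv : u ∈ nb h f v) : v ∈ nb h f u := by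
  simp only [nb, mem_insert, mem_singleton] at huv ⊢
  rcases huv with rfl | rfl | rfl
  · exact Or.inl rfl
  · exact Or.inr (Or.inl (hh v).symm)
  · exact Or.inr (Or.inr (hf v).symm)

/-- the element with the largest key -/
noncomputable def ld (key : V → ℕ) (B : Finset V) (d : V) : V := by
  classical
  exact if hB : B.Nonempty then Classical.choose (exists_max_image B key hB) else d

theorem ld_spec (key : V → ℕ) {B : Finset V} (hB : B.Nonempty) (d : V) :
    ld key B d ∈ B ∧ ∀ y ∈ B, key y ≤ key (ld key B d) := by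
  unfold ld
  rw [dif_pos hB]
  exact Classical.choose_spec (exists_max_image B key hB)

theorem ld_unique {key : V → ℕ} (hk : Function.Injective key) {B : Finset V} {x : V}
    (hx : x ∈ B) (hmax : ∀ y ∈ B, key y ≤ key x) (d : V) : ld key B d = x := by
  obtain ⟨h1, h2⟩ := ld_spec key ⟨x, hx⟩ d
  exact hk (le_antisymm (hmax _ h1) (h2 x hx))

theorem ld_congr {key key' : V → ℕ} (hk' : Function.Injective key')
    {B : Finset V} (hB : B.Nonempty) (h : ∀ y ∈ B, key y = key' y) (d d' : V) :
    ld key B d = ld key' B d' := by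
  obtain ⟨h1, h2⟩ := ld_spec key hB d
  refine (ld_unique hk' h1 (fun y hy => ?_) d').symm
  rw [← h y hy, ← h _ h1]
  exact h2 y hy

/-- the leader of `u` -/
noncomputable def Ld' (h f : V → V) (key : V → ℕ) (r : ℕ) (u : V) : V :=
  ld key (ball (nb h f) r u) u

/-- merging two involutions -/
noncomputable def mrg (h f : V → V) (key : V → ℕ) (coin : V → Bool) (r : ℕ) (u : V) : V :=
  if coin (Ld' h f key r u) = true ∧ Ld' h f key r (h u) = Ld' h f key r u then h u
  else if coin (Ld' h f key r u) = false ∧ Ld' h f key r (f u) = Ld' h f key r u then f u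
  else u

theorem mrg_mem (h f : V → V) (key : V → ℕ) (coin : V → Bool) (r : ℕ) (u : V) :
    mrg h f key coin r u ∈ nb h f u := by
  unfold mrg nb
  split_ifs <;> simp

theorem mrg_mrg {h f : V → V} (hh : ∀ x, h (h x) = x) (hf : ∀ x, f (f x) = x) (key : V → ℕ)
    (coin : V → Bool) (r : ℕ) (u : V) : mrg h f key coin r (mrg h f key coin r u) = u := by
  by_cases h1 : coin (Ld' h f key r u) = true ∧ Ld' h f key r (h u) = Ld' h f key r u
  · have e1 : mrg h f key coin r u = h u := by unfold mrg; rw [if_pos h1]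
    rw [e1]
    unfold mrg
    rw [hh, h1.2, if_pos ⟨h1.1, rfl⟩]
  · by_cases h2 : coin (Ld' h f key r u) = false ∧ Ld' h f key r (f u) = Ld' h f key r u
    · have e1 : mrg h f key coin r u = f u := by unfold mrg; rw [if_neg h1, if_pos h2]
      rw [e1]
      unfold mrg
      have h3 : ¬ (coin (Ld' h f key r (f u)) = true ∧
          Ld' h f key r (h (f u)) = Ld' h f key r (f u)) := by
        rintro ⟨h4, -⟩
        rw [h2.2, h2.1] at h4
        exact absurd h4 (by simp)
      rw [if_neg h3, hf, h2.2, if_pos ⟨h2.1, rfl⟩]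
    · have e1 : mrg h f key coin r u = u := by unfold mrg; rw [if_neg h1, if_neg h2]
      rw [e1, e1]

theorem mrg_iff {h f : V → V} (key : V → ℕ) (coin : V → Bool) (r : ℕ) {u v : V} (huv : u ≠ v) :
    mrg h f key coin r u = v ↔ Ld' h f key r v = Ld' h f key r u ∧
      ((coin (Ld' h f key r u) = true ∧ h u = v) ∨
        (coin (Ld' h f key r u) = false ∧ f u = v)) := by
  unfold mrg
  constructor
  · intro h1
    split_ifs at h1 with h2 h3
    · subst h1
      exact ⟨h2.2, Or.inl ⟨h2.1, rfl⟩⟩
    · subst h1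
      exact ⟨h3.2, Or.inr ⟨h3.1, rfl⟩⟩
    · exact absurd h1 huv
  · rintro ⟨h1, ⟨h2, h3⟩ | ⟨h2, h3⟩⟩
    · rw [h3, if_pos ⟨h2, h1⟩]
    · have h4 : ¬ (coin (Ld' h f key r u) = true ∧ Ld' h f key r (h u) = Ld' h f key r u) := by
        rintro ⟨h5, -⟩
        rw [h2] at h5
        exact absurd h5 (by simp)
      rw [if_neg h4, h3, if_pos ⟨h2, h1⟩]

/-- leaders agree if the leader of a larger ball is well inside -/
theorem leader_eq {h f : V → V} (hh : ∀ x, h (h x) = x) (hf : ∀ x, f (f x) = x) {key : V → ℕ}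
    (hk : Function.Injective key) (r : ℕ) {u v : V} (hv : v ∈ nb h f u)
    (hx : ld key (ball (nb h f) (r + 2) u) u ∈ ball (nb h f) r u) :
    Ld' h f key (r + 1) v = Ld' h f key (r + 1) u := by
  set x := ld key (ball (nb h f) (r + 2) u) u with hxdef
  have hs := nb_self h f
  have hmax : ∀ y ∈ ball (nb h f) (r + 2) u, key y ≤ key x :=
    (ld_spec key ⟨u, ball_self hs _ u⟩ u).2
  have h1 : Ld' h f key (r + 1) u = x :=
    ld_unique hk (ball_mono hs (by omega) u hx)
      (fun y hy => hmax y (ball_mono hs (by omega) u hy)) u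
  have h2 : Ld' h f key (r + 1) v = x := by
    apply ld_unique hk
    · have : u ∈ ball (nb h f) 1 v := by
        rw [ball_one]
        exact nb_symm hh hf _ _ hv
      rw [add_comm r 1]
      exact ball_trans this hx
    · intro y hy
      apply hmax
      have : v ∈ ball (nb h f) 1 u := by rw [ball_one]; exact hv
      have h3 := ball_trans this hy
      have e : 1 + (r + 1) = r + 2 := by omega
      rwa [e] at h3
  rw [h1, h2]

/-- ball growth -/
theorem out_le {h f : V → V} (hh : ∀ x, h (h x) = x) (hf : ∀ x, f (f x) = x) (u : V) (k : ℕ) :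
    ((ball (nb h f) k u).image h \ ball (nb h f) k u).card ≤ 1 ∧
    ((ball (nb h f) k u).image f \ ball (nb h f) k u).card ≤ 1 := by
  have hmem : ∀ k y, y ∈ ball (nb h f) k u → h y ∈ ball (nb h f) (k + 1) u ∧
      f y ∈ ball (nb h f) (k + 1) u := by
    intro k y hy
    rw [ball_succ]
    exact ⟨mem_biUnion.2 ⟨y, hy, by simp [nb]⟩, mem_biUnion.2 ⟨y, hy, by simp [nb]⟩⟩
  have hcase : ∀ k y, y ∈ ball (nb h f) (k + 1) u → y ∈ ball (nb h f) k u ∨
      (∃ z ∈ ball (nb h f) k u, h z = y) ∨ (∃ z ∈ ball (nb h f) k u, f z = y) := by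
    intro k y hy
    rw [ball_succ, mem_biUnion] at hy
    obtain ⟨z, hz, hyz⟩ := hy
    simp only [nb, mem_insert, mem_singleton] at hyz
    rcases hyz with rfl | rfl | rfl
    · exact Or.inl hz
    · exact Or.inr (Or.inl ⟨z, hz, rfl⟩)
    · exact Or.inr (Or.inr ⟨z, hz, rfl⟩)
  induction k with
  | zero =>
    constructor
    · refine (card_le_card sdiff_subset).trans (card_image_le.trans ?_)
      simp [ball]
    · refine (card_le_card sdiff_subset).trans (card_image_le.trans ?_)
      simp [ball]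
  | succ k ih =>
    constructor
    · refine le_trans (card_le_card (t := ((ball (nb h f) k u).image f \
        ball (nb h f) k u).image h) ?_) (card_image_le.trans ih.2)
      intro y hy
      rw [mem_sdiff, mem_image] at hy
      obtain ⟨⟨z, hz, rfl⟩, hn⟩ := hy
      rw [mem_image]
      refine ⟨z, ?_, rfl⟩
      rw [mem_sdiff, mem_image]
      have hz1 : z ∉ ball (nb h f) k u := fun hz1 => hn (hmem k z hz1).1
      refine ⟨?_, hz1⟩
      rcases hcase k z hz with h1 | ⟨y, hy, rfl⟩ | ⟨y, hy, rfl⟩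
      · exact absurd h1 hz1
      · exfalso
        apply hn
        rw [hh]
        exact ball_mono (nb_self h f) (by omega) u hy
      · exact ⟨y, hy, rfl⟩
    · refine le_trans (card_le_card (t := ((ball (nb h f) k u).image h \
        ball (nb h f) k u).image f) ?_) (card_image_le.trans ih.1)
      intro y hy
      rw [mem_sdiff, mem_image] at hy
      obtain ⟨⟨z, hz, rfl⟩, hn⟩ := hy
      rw [mem_image]
      refine ⟨z, ?_, rfl⟩
      rw [mem_sdiff, mem_image]
      have hz1 : z ∉ ball (nb h f) k u := fun hz1 => hn (hmem k z hz1).2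
      refine ⟨?_, hz1⟩
      rcases hcase k z hz with h1 | ⟨y, hy, rfl⟩ | ⟨y, hy, rfl⟩
      · exact absurd h1 hz1
      · exact ⟨y, hy, rfl⟩
      · exfalso
        apply hn
        rw [hf]
        exact ball_mono (nb_self h f) (by omega) u hy

theorem shell_le {h f : V → V} (hh : ∀ x, h (h x) = x) (hf : ∀ x, f (f x) = x) (u : V) (k : ℕ) :
    (ball (nb h f) (k + 1) u \ ball (nb h f) k u).card ≤ 2 := by
  obtain ⟨h1, h2⟩ := out_le hh hf u k
  have h3 : ball (nb h f) (k + 1) u \ ball (nb h f) k u ⊆
      ((ball (nb h f) k u).image h \ ball (nb h f) k u) ∪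
      ((ball (nb h f) k u).image f \ ball (nb h f) k u) := by
    intro y hy
    rw [mem_sdiff, ball_succ, mem_biUnion] at hy
    obtain ⟨⟨z, hz, hyz⟩, hn⟩ := hy
    rw [mem_union, mem_sdiff, mem_sdiff, mem_image, mem_image]
    simp only [nb, mem_insert, mem_singleton] at hyz
    rcases hyz with rfl | rfl | rfl
    · exact absurd hz hn
    · exact Or.inl ⟨⟨z, hz, rfl⟩, hn⟩
    · exact Or.inr ⟨⟨z, hz, rfl⟩, hn⟩
  have := (card_le_card h3).trans (card_union_le _ _)
  omega

theorem ball_grow (N : V → Finset V) (hN : ∀ v, v ∈ N v) (u : V) (k : ℕ) :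
    ball N (k + 1) u = ball N k u ∨ k + 1 ≤ (ball N k u).card := by
  induction k with
  | zero => right; simp [ball]
  | succ k ih =>
    rcases ih with h1 | h1
    · left
      rw [ball_succ (k + 1), h1, ← ball_succ, h1]
    · by_cases h2 : ball N (k + 1) u = ball N k u
      · left
        rw [ball_succ (k + 1), h2, ← ball_succ, h2]
      · right
        have h3 : ball N k u ⊂ ball N (k + 1) u :=
          (ball_mono hN (Nat.le_succ k) u).ssubset_of_ne (Ne.symm h2)
        have := card_lt_card h3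
        omega

/-- the outer shell is small compared with the ball -/
theorem shell2 {h f : V → V} (hh : ∀ x, h (h x) = x) (hf : ∀ x, f (f x) = x) (u : V) (k : ℕ) :
    (ball (nb h f) (k + 2) u \ ball (nb h f) k u = ∅) ∨
    ((ball (nb h f) (k + 2) u \ ball (nb h f) k u).card ≤ 4 ∧
      k + 1 ≤ (ball (nb h f) (k + 2) u).card) := by
  have hs := nb_self h f
  by_cases h1 : ball (nb h f) (k + 1) u = ball (nb h f) k u
  · left
    rw [ball_succ (k + 1), h1, ← ball_succ, h1, sdiff_self]
    rfl
  · right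
    have h2 := (ball_grow (nb h f) hs u k).resolve_left h1
    have h3 := card_le_card (ball_mono hs (show k ≤ k + 2 by omega) u)
    refine ⟨?_, by omega⟩
    have h4 := shell_le hh hf u k
    have h5 := shell_le hh hf u (k + 1)
    have h6 : ball (nb h f) (k + 2) u \ ball (nb h f) k u ⊆
        (ball (nb h f) (k + 1 + 1) u \ ball (nb h f) (k + 1) u) ∪
        (ball (nb h f) (k + 1) u \ ball (nb h f) k u) := by
      intro y hy
      rw [mem_sdiff] at hy
      rw [mem_union, mem_sdiff, mem_sdiff]
      by_cases h7 : y ∈ ball (nb h f) (k + 1) u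
      · exact Or.inr ⟨h7, hy.2⟩
      · exact Or.inl ⟨hy.1, h7⟩
    have := (card_le_card h6).trans (card_union_le _ _)
    omega

/-! ### locality -/

theorem ball_nb_congr {G : V → Finset V} {h h' f : V → V}
    (hG : ∀ x, x ∈ G x ∧ h x ∈ G x ∧ f x ∈ G x) (u : V) (k : ℕ)
    (hag : ∀ x ∈ ball G k u, h x = h' x) :
    ball (nb h f) k u = ball (nb h' f) k u ∧ ball (nb h f) k u ⊆ ball G k u := by
  have hGs : ∀ x, x ∈ G x := fun x => (hG x).1
  induction k with
  | zero => exact ⟨rfl, Subset.refl _⟩
  | succ k ih =>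
    obtain ⟨h1, h2⟩ := ih fun x hx => hag x (ball_mono hGs (Nat.le_succ k) u hx)
    constructor
    · rw [ball_succ, ball_succ, ← h1]
      refine biUnion_congr rfl fun x hx => ?_
      unfold nb
      rw [hag x (ball_mono hGs (Nat.le_succ k) u (h2 hx))]
    · rw [ball_succ, ball_succ]
      refine biUnion_subset.2 fun x hx => ?_
      refine Subset.trans ?_ (subset_biUnion_of_mem G (h2 hx))
      intro y hy
      simp only [nb, mem_insert, mem_singleton] at hy
      rcases hy with rfl | rfl | rfl
      · exact (hG _).1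
      · exact (hG _).2.1
      · exact (hG _).2.2

theorem Ld'_congr {G : V → Finset V} {h h' f : V → V}
    (hG : ∀ x, x ∈ G x ∧ h x ∈ G x ∧ f x ∈ G x) {key key' : V → ℕ}
    (hk' : Function.Injective key') (u : V) (r : ℕ)
    (hag : ∀ x ∈ ball G r u, h x = h' x) (hkey : ∀ x ∈ ball G r u, key x = key' x) :
    Ld' h f key r u = Ld' h' f key' r u ∧ Ld' h f key r u ∈ ball G r u := by
  obtain ⟨h1, h2⟩ := ball_nb_congr hG u r hag
  have hne : (ball (nb h f) r u).Nonempty := ⟨u, ball_self (nb_self h f) r u⟩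
  unfold Ld'
  rw [← h1]
  exact ⟨ld_congr hk' hne (fun y hy => hkey y (h2 hy)) _ _, h2 (ld_spec key hne u).1⟩

theorem mrg_congr {G : V → Finset V} {h h' f : V → V}
    (hG : ∀ x, x ∈ G x ∧ h x ∈ G x ∧ f x ∈ G x) {key key' : V → ℕ}
    (hk' : Function.Injective key') {coin coin' : V → Bool} (u : V) (r : ℕ)
    (hag : ∀ x ∈ ball G (r + 1) u, h x = h' x)
    (hkey : ∀ x ∈ ball G (r + 1) u, key x = key' x)
    (hcoin : ∀ x ∈ ball G (r + 1) u, coin x = coin' x) :
    mrg h f key coin r u = mrg h' f key' coin' r u := by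
  have hGs : ∀ x, x ∈ G x := fun x => (hG x).1
  have hsub : ∀ v, v ∈ G u → ball G r v ⊆ ball G (r + 1) u := by
    intro v hv x hx
    have : v ∈ ball G 1 u := by rw [ball_one]; exact hv
    rw [add_comm r 1]
    exact ball_trans this hx
  have hu := hsub u (hG u).1
  have key1 : ∀ v, v ∈ G u → Ld' h f key r v = Ld' h' f key' r v ∧
      Ld' h f key r v ∈ ball G r v := fun v hv =>
    Ld'_congr hG hk' v r (fun x hx => hag x (hsub v hv hx)) (fun x hx => hkey x (hsub v hv hx))
  have ehu : h u = h' u := hag u (ball_self hGs _ u)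
  obtain ⟨a1, a2⟩ := key1 u (hG u).1
  obtain ⟨b1, -⟩ := key1 (h u) (hG u).2.1
  obtain ⟨c1, -⟩ := key1 (f u) (hG u).2.2
  have hc := hcoin _ (hu a2)
  unfold mrg
  rw [b1, c1, hc, a1, ehu]

end

end K3h83.CI
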