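import Pool.Agent.K3h83.CI.Merge

/-!
# Probabilities of one merging step
-/

set_option autoImplicit false
set_option linter.unusedSectionVars false

namespace K3h83.CI

open Finset

theorem pow_step (N : ℝ) (hN : 0 ≤ N) (k : ℕ) :
    N ^ (k + 1) + (k + 1) * N ^ k ≤ (N + 1) ^ (k + 1) := by
  induction k with
  | zero => simp
  | succ k ih =>
    have h1 : (N + 1) ^ (k + 1 + 1) = (N + 1) * (N + 1) ^ (k + 1) := by ring
    rw [h1]
    have h2 : (N + 1) * (N ^ (k + 1) + (k + 1) * N ^ k) ≤ (N + 1) * (N + 1) ^ (k + 1) :=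
      mul_le_mul_of_nonneg_left ih (by linarith)
    have h3 : (N + 1) * (N ^ (k + 1) + (k + 1) * N ^ k) =
        N ^ (k + 1 + 1) + (k + 1 + 1) * N ^ (k + 1) + (k + 1) * N ^ k := by ring
    have h4 : 0 ≤ ((k : ℝ) + 1) * N ^ k := by positivity
    push_cast
    linarith

theorem pow_sum (k N : ℕ) :
    ∑ a ∈ range N, ((a : ℝ) + 1) ^ k ≤ (N : ℝ) ^ (k + 1) / (k + 1) + (N : ℝ) ^ k := by
  induction N with
  | zero => simp
  | succ N ih =>
    rw [sum_range_succ]
    have h1 := pow_step N (Nat.cast_nonneg N) k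
    have h2 : (N : ℝ) ^ (k + 1) / (k + 1) + (N : ℝ) ^ k ≤ ((N : ℝ) + 1) ^ (k + 1) / (k + 1) := by
      rw [le_div_iff₀ (by positivity), add_mul, div_mul_cancel₀ _ (by positivity)]
      linarith
    push_cast
    linarith

section
variable {V : Type} [Fintype V] [DecidableEq V] {I : Type} [Fintype I] [DecidableEq I]
  {n : ℕ} {μ : I → Fin (n + 2) → ℝ}

theorem EE_prod_sub (hμ : Pr μ) {la : V → I} (hla : Function.Injective la) (T : Finset V)
    (g : V → Fin (n + 2) → ℝ) :
    EE μ (fun ω => ∏ y ∈ T, g y (ω (la y))) = ∏ y ∈ T, ∑ a, μ (la y) a * g y a := by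
  induction T using Finset.induction_on with
  | empty => simp [EE_one hμ]
  | @insert y T hy ih =>
    have h1 : (fun ω : I → Fin (n + 2) => ∏ y ∈ insert y T, g y (ω (la y))) =
        fun ω => g y (ω (la y)) * ∏ y ∈ T, g y (ω (la y)) := by
      funext ω
      rw [prod_insert hy]
    rw [h1, EE_indep hμ (S := {la y}) (T := T.image la), ih, prod_insert hy,
      EE_coord hμ (la y) (g y)]
    · intro ω ω' hh
      change g y (ω (la y)) = g y (ω' (la y))
      rw [hh _ (mem_singleton_self _)]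
    · apply Dep.prod
      intro k hk ω ω' hh
      change g k (ω (la k)) = g k (ω' (la k))
      rw [hh _ (mem_image_of_mem la hk)]
    · rw [disjoint_singleton_left, mem_image]
      rintro ⟨z, hz, hzy⟩
      exact hy (hla hzy ▸ hz)

/-- the probability that a given point has the largest label in `B` -/
theorem max_prob (hμ : Pr μ) {la : V → I} (hla : Function.Injective la)
    (hu : ∀ x a, μ (la x) a = 1 / ((n : ℝ) + 2)) (B : Finset V) {x : V} (hx : x ∈ B) :
    PP μ (fun ω => ∀ y ∈ B, (ω (la y)).val ≤ (ω (la x)).val) ≤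
      1 / (B.card : ℝ) + 1 / ((n : ℝ) + 2) := by
  have hn : (0 : ℝ) < (n : ℝ) + 2 := by positivity
  have hB : 0 < B.card := card_pos.2 ⟨x, hx⟩
  set g : Fin (n + 2) → V → Fin (n + 2) → ℝ := fun a y b =>
    if y = x then ind (b = a) else ind (b ≤ a) with hg
  have hg0 : ∀ a y b, 0 ≤ g a y b := by
    intro a y b
    simp only [hg]
    split_ifs <;> exact ind_nonneg _
  have h1 : PP μ (fun ω => ∀ y ∈ B, (ω (la y)).val ≤ (ω (la x)).val) ≤
      EE μ (fun ω => ∑ a, ∏ y ∈ B, g a y (ω (la y))) := by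
    refine EE_mono hμ fun ω => ?_
    by_cases h : ∀ y ∈ B, (ω (la y)).val ≤ (ω (la x)).val
    · rw [ind_true h]
      have h2 : ∏ y ∈ B, g (ω (la x)) y (ω (la y)) = 1 := by
        refine prod_eq_one fun y hy => ?_
        simp only [hg]
        split_ifs with hyx
        · subst hyx; exact ind_true rfl
        · exact ind_true (h y hy)
      calc (1 : ℝ) = ∏ y ∈ B, g (ω (la x)) y (ω (la y)) := h2.symm
        _ ≤ _ := single_le_sum (f := fun a => ∏ y ∈ B, g a y (ω (la y)))
          (fun a _ => prod_nonneg fun y _ => hg0 a y _) (mem_univ (ω (la x)))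
    · rw [ind_false h]
      exact sum_nonneg fun a _ => prod_nonneg fun y _ => hg0 a y _
  refine h1.trans ?_
  rw [EE_sum]
  have h3 : ∀ a : Fin (n + 2), EE μ (fun ω => ∏ y ∈ B, g a y (ω (la y))) =
      1 / ((n : ℝ) + 2) * (((a.val : ℝ) + 1) / ((n : ℝ) + 2)) ^ (B.card - 1) := by
    intro a
    rw [EE_prod_sub hμ hla B (g a), ← mul_prod_erase B _ hx]
    congr 1
    · simp only [hg, hu, if_true]
      rw [← mul_sum, sum_eq_single a]
      · rw [ind_true rfl, mul_one]
      · intro b _ hb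
        exact ind_false hb
      · intro ha
        exact absurd (mem_univ a) ha
    · rw [← card_erase_of_mem hx]
      apply prod_eq_pow_card
      intro y hy
      have hyx : y ≠ x := (mem_erase.1 hy).1
      simp only [hg, hu, if_neg hyx]
      rw [← mul_sum]
      have h4 : ∑ b : Fin (n + 2), ind (b ≤ a) = (a.val : ℝ) + 1 := by
        have h5 : ∀ b : Fin (n + 2), ind (b ≤ a) = if b ≤ a then (1 : ℝ) else 0 := by
          intro b
          unfold ind
          congr
        rw [sum_congr rfl fun b _ => h5 b, sum_boole]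
        have : univ.filter (fun b : Fin (n + 2) => b ≤ a) = Iic a := by
          ext b; simp
        rw [this, Fin.card_Iic]
        push_cast
        ring
      rw [h4]
      field_simp
  rw [sum_congr rfl fun a _ => h3 a]
  have h7 : ∑ a : Fin (n + 2), 1 / ((n : ℝ) + 2) * (((a.val : ℝ) + 1) / ((n : ℝ) + 2)) ^
      (B.card - 1) = 1 / ((n : ℝ) + 2) ^ (B.card - 1 + 1) *
      ∑ a ∈ range (n + 2), ((a : ℝ) + 1) ^ (B.card - 1) := by
    rw [← Fin.sum_univ_eq_sum_range (fun a => ((a : ℝ) + 1) ^ (B.card - 1)) (n + 2), mul_sum]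
    refine sum_congr rfl fun a _ => ?_
    rw [div_pow, pow_succ]
    field_simp
  rw [h7]
  have h8 := pow_sum (B.card - 1) (n + 2)
  have h9 : ((B.card - 1 : ℕ) : ℝ) + 1 = B.card := by
    have : B.card - 1 + 1 = B.card := by omega
    exact_mod_cast this
  push_cast at h8
  calc 1 / ((n : ℝ) + 2) ^ (B.card - 1 + 1) * ∑ a ∈ range (n + 2), ((a : ℝ) + 1) ^ (B.card - 1)
      ≤ 1 / ((n : ℝ) + 2) ^ (B.card - 1 + 1) * (((n : ℝ) + 2) ^ (B.card - 1 + 1) /
        (((B.card - 1 : ℕ) : ℝ) + 1) + ((n : ℝ) + 2) ^ (B.card - 1)) :=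
        mul_le_mul_of_nonneg_left h8 (by positivity)
    _ = 1 / (B.card : ℝ) + 1 / ((n : ℝ) + 2) := by
        rw [h9]
        have hBr : (0 : ℝ) < B.card := by exact_mod_cast hB
        rw [pow_succ]
        field_simp

/-- injective keys built from labels -/
noncomputable def keyOf (lab : V → ℕ) (x : V) : ℕ :=
  lab x * Fintype.card V + (Fintype.equivFin V x).val

theorem keyOf_inj (lab : V → ℕ) : Function.Injective (keyOf lab) := by
  intro x y h
  unfold keyOf at h
  have hx := (Fintype.equivFin V x).isLt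
  have hy := (Fintype.equivFin V y).isLt
  have hc : 0 < Fintype.card V := by omega
  have h1 : (lab x * Fintype.card V + (Fintype.equivFin V x).val) % Fintype.card V =
      (Fintype.equivFin V x).val := by
    rw [add_comm, Nat.add_mul_mod_self_right, Nat.mod_eq_of_lt hx]
  have h2 : (lab y * Fintype.card V + (Fintype.equivFin V y).val) % Fintype.card V =
      (Fintype.equivFin V y).val := by
    rw [add_comm, Nat.add_mul_mod_self_right, Nat.mod_eq_of_lt hy]
  rw [h, h2] at h1
  exact (Fintype.equivFin V).injective (Fin.ext h1.symm)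

theorem lab_le_of_key {lab : V → ℕ} {x y : V} (h : keyOf lab y ≤ keyOf lab x) :
    lab y ≤ lab x := by
  unfold keyOf at h
  have hx := (Fintype.equivFin V x).isLt
  by_contra hlt
  push Not at hlt
  have h1 : (lab x + 1) * Fintype.card V ≤ lab y * Fintype.card V :=
    Nat.mul_le_mul_right _ hlt
  nlinarith

/-- neighbours have the same leader with large probability -/
theorem leader_prob (hμ : Pr μ) {la : V → I} (hla : Function.Injective la)
    (hu : ∀ x a, μ (la x) a = 1 / ((n : ℝ) + 2)) {h f : V → V} (hh : ∀ x, h (h x) = x)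
    (hf : ∀ x, f (f x) = x) (r : ℕ) {u v : V} (hv : v ∈ nb h f u) :
    1 - 4 * (1 / ((r : ℝ) + 1) + 1 / ((n : ℝ) + 2)) ≤
      PP μ (fun ω => Ld' h f (keyOf fun x => (ω (la x)).val) (r + 1) v =
        Ld' h f (keyOf fun x => (ω (la x)).val) (r + 1) u) := by
  set B := ball (nb h f) (r + 2) u with hB
  set C := ball (nb h f) r u with hC
  have hBn : B.Nonempty := ⟨u, ball_self (nb_self h f) _ u⟩
  have h1 : PP μ (fun ω => ¬ (Ld' h f (keyOf fun x => (ω (la x)).val) (r + 1) v =
        Ld' h f (keyOf fun x => (ω (la x)).val) (r + 1) u)) ≤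
      PP μ (fun ω => ∃ x ∈ B \ C, ∀ y ∈ B, (ω (la y)).val ≤ (ω (la x)).val) := by
    refine PP_mono hμ fun ω hne => ?_
    have h2 : ld (keyOf fun x => (ω (la x)).val) B u ∉ C := fun hin =>
      hne (leader_eq hh hf (keyOf_inj _) r hv hin)
    obtain ⟨h3, h4⟩ := ld_spec (keyOf fun x => (ω (la x)).val) hBn u
    exact ⟨_, mem_sdiff.2 ⟨h3, h2⟩, fun y hy =>
      lab_le_of_key (lab := fun x => (ω (la x)).val) (h4 y hy)⟩
  have h2 := h1.trans (PP_exists_le hμ (B \ C)
    (fun x ω => ∀ y ∈ B, (ω (la y)).val ≤ (ω (la x)).val))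
  have h3 : ∑ x ∈ B \ C, PP μ (fun ω => ∀ y ∈ B, (ω (la y)).val ≤ (ω (la x)).val) ≤
      4 * (1 / ((r : ℝ) + 1) + 1 / ((n : ℝ) + 2)) := by
    rcases shell2 hh hf u r with h4 | ⟨h4, h5⟩
    · rw [← hB, ← hC] at h4
      rw [h4, sum_empty]
      positivity
    · rw [← hB, ← hC] at h4
      rw [← hB] at h5
      calc _ ≤ ∑ _x ∈ B \ C, (1 / ((r : ℝ) + 1) + 1 / ((n : ℝ) + 2)) := by
            refine sum_le_sum fun x hx => ?_
            refine (max_prob hμ hla hu B (mem_sdiff.1 hx).1).trans ?_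
            have h6 : ((r : ℝ) + 1) ≤ B.card := by exact_mod_cast h5
            have := one_div_le_one_div_of_le (by positivity) h6
            linarith
        _ = (B \ C).card * (1 / ((r : ℝ) + 1) + 1 / ((n : ℝ) + 2)) := by
            rw [sum_const, nsmul_eq_mul]
        _ ≤ 4 * (1 / ((r : ℝ) + 1) + 1 / ((n : ℝ) + 2)) := by
            apply mul_le_mul_of_nonneg_right _ (by positivity)
            exact_mod_cast h4
  rw [PP_not hμ] at h2
  linarith

/-- the probability formula for one merging step -/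
theorem step_formula (hμ : Pr μ) {la co : V → I}
    {S : Finset I} (hlS : ∀ x, la x ∉ S) (hcS : ∀ x, co x ∉ S)
    (hlc : ∀ x y, la x ≠ co y) {lam : ℝ} (hc0 : ∀ x, μ (co x) 0 = lam)
    {H : (I → Fin (n + 2)) → V → V} (hH : Dep H S) (f : V → V) (r : ℕ) {u v : V} (huv : u ≠ v) :
    PP μ (fun ω => mrg (H ω) f (keyOf fun x => (ω (la x)).val)
      (fun x => decide (ω (co x) = 0)) r u = v) =
    ∑ h : V → V, PP μ (fun ω => H ω = h) *
      (PP μ (fun ω => Ld' h f (keyOf fun x => (ω (la x)).val) r v =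
        Ld' h f (keyOf fun x => (ω (la x)).val) r u) *
      (lam * ind (h u = v) + (1 - lam) * ind (f u = v))) := by
  classical
  -- abbreviations
  set K : (I → Fin (n + 2)) → V → ℕ := fun ω => keyOf fun x => (ω (la x)).val with hK
  have hpt : ∀ ω : I → Fin (n + 2), ind (mrg (H ω) f (K ω)
      (fun x => decide (ω (co x) = 0)) r u = v) =
      ∑ h : V → V, ∑ x : V, ind (H ω = h) *
        (ind (Ld' h f (K ω) r v = Ld' h f (K ω) r u ∧ Ld' h f (K ω) r u = x) *
        (ind (ω (co x) = 0) * ind (h u = v) + (1 - ind (ω (co x) = 0)) * ind (f u = v))) := by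
    intro ω
    rw [sum_eq_single (H ω)]
    · rw [sum_eq_single (Ld' (H ω) f (K ω) r u)]
      · rw [ind_true (rfl : H ω = H ω), one_mul]
        have e1 := mrg_iff (h := H ω) (f := f) (K ω) (fun x => decide (ω (co x) = 0)) r huv
        rw [ind_congr e1]
        simp only [decide_eq_true_eq, decide_eq_false_iff_not]
        by_cases a1 : Ld' (H ω) f (K ω) r v = Ld' (H ω) f (K ω) r u <;>
        by_cases a2 : ω (co (Ld' (H ω) f (K ω) r u)) = 0 <;>
        by_cases a3 : H ω u = v <;> by_cases a4 : f u = v <;> simp [ind, a1, a2, a3, a4]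
      · intro x _ hx
        rw [ind_false (A := Ld' (H ω) f (K ω) r v = Ld' (H ω) f (K ω) r u ∧
          Ld' (H ω) f (K ω) r u = x) fun hh => hx hh.2.symm]
        ring
      · intro hx
        exact absurd (mem_univ _) hx
    · intro h _ hne
      refine sum_eq_zero fun x _ => ?_
      rw [ind_false (A := H ω = h) fun hh => hne hh.symm, zero_mul]
    · intro hx
      exact absurd (mem_univ _) hx
  have h1 : PP μ (fun ω => mrg (H ω) f (K ω) (fun x => decide (ω (co x) = 0)) r u = v) =
      EE μ (fun ω => ∑ h : V → V, ∑ x : V, ind (H ω = h) *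
        (ind (Ld' h f (K ω) r v = Ld' h f (K ω) r u ∧ Ld' h f (K ω) r u = x) *
        (ind (ω (co x) = 0) * ind (h u = v) + (1 - ind (ω (co x) = 0)) * ind (f u = v)))) := by
    unfold PP
    congr 1
    funext ω
    exact hpt ω
  rw [h1, EE_sum]
  refine sum_congr rfl fun h _ => ?_
  rw [EE_sum]
  have hdep1 : Dep (fun ω => ind (H ω = h)) S := hH.comp (fun g => ind (g = h))
  have hdepK : Dep K (univ.image la) := by
    intro ω ω' hh
    simp only [hK]
    congr 1
    funext x
    rw [hh (la x) (mem_image_of_mem la (mem_univ x))]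
  have hdep2 : ∀ x, Dep (fun ω => ind (Ld' h f (K ω) r v = Ld' h f (K ω) r u ∧
      Ld' h f (K ω) r u = x)) (univ.image la) := fun x =>
    hdepK.comp (fun k => ind (Ld' h f k r v = Ld' h f k r u ∧ Ld' h f k r u = x))
  have hdep3 : ∀ x, Dep (fun ω : I → Fin (n + 2) => ind (ω (co x) = 0) * ind (h u = v) +
      (1 - ind (ω (co x) = 0)) * ind (f u = v)) {co x} := by
    intro x ω ω' hh
    change ind (ω (co x) = 0) * _ + _ = ind (ω' (co x) = 0) * _ + _
    rw [hh _ (mem_singleton_self _)]
  have hdep23 : ∀ x, Dep (fun ω => ind (Ld' h f (K ω) r v = Ld' h f (K ω) r u ∧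
      Ld' h f (K ω) r u = x) * (ind (ω (co x) = 0) * ind (h u = v) +
      (1 - ind (ω (co x) = 0)) * ind (f u = v))) (univ.image la ∪ {co x}) := fun x =>
    ((hdep2 x).mono subset_union_left).comp₂ ((hdep3 x).mono subset_union_right) (· * ·)
  have hd1 : ∀ x, Disjoint S (univ.image la ∪ {co x}) := by
    intro x
    rw [disjoint_right]
    intro i hi
    rcases mem_union.1 hi with hi | hi
    · obtain ⟨y, -, rfl⟩ := mem_image.1 hi
      exact hlS y
    · rw [mem_singleton.1 hi]
      exact hcS x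
  have hd2 : ∀ x, Disjoint (univ.image la) {co x} := by
    intro x
    rw [disjoint_singleton_right, mem_image]
    rintro ⟨y, -, hy⟩
    exact hlc y x hy
  have hE3 : ∀ x, EE μ (fun ω : I → Fin (n + 2) => ind (ω (co x) = 0) * ind (h u = v) +
      (1 - ind (ω (co x) = 0)) * ind (f u = v)) = lam * ind (h u = v) +
      (1 - lam) * ind (f u = v) := by
    intro x
    have e1 : EE μ (fun ω : I → Fin (n + 2) => ind (ω (co x) = 0)) = lam := by
      rw [EE_coord hμ (co x) (fun a => ind (a = 0)), sum_eq_single 0]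
      · rw [ind_true rfl, mul_one, hc0]
      · intro b _ hb
        rw [ind_false hb, mul_zero]
      · intro hx
        exact absurd (mem_univ _) hx
    have e2 : (fun ω : I → Fin (n + 2) => ind (ω (co x) = 0) * ind (h u = v) +
      (1 - ind (ω (co x) = 0)) * ind (f u = v)) = fun ω =>
        (ind (h u = v) - ind (f u = v)) * ind (ω (co x) = 0) + ind (f u = v) := by
      funext ω
      ring
    rw [e2, EE_add, EE_mul, e1, EE_const hμ]
    ring
  have h4 : ∀ x, EE μ (fun ω => ind (H ω = h) * (ind (Ld' h f (K ω) r v = Ld' h f (K ω) r u ∧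
      Ld' h f (K ω) r u = x) * (ind (ω (co x) = 0) * ind (h u = v) +
      (1 - ind (ω (co x) = 0)) * ind (f u = v)))) = PP μ (fun ω => H ω = h) *
      (EE μ (fun ω => ind (Ld' h f (K ω) r v = Ld' h f (K ω) r u ∧
      Ld' h f (K ω) r u = x)) * (lam * ind (h u = v) + (1 - lam) * ind (f u = v))) := by
    intro x
    rw [EE_indep hμ hdep1 (hdep23 x) (hd1 x), EE_indep hμ (hdep2 x) (hdep3 x) (hd2 x), hE3 x]
    rfl
  rw [sum_congr rfl fun x _ => h4 x, ← mul_sum, ← sum_mul, ← EE_sum]
  congr 2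
  unfold PP
  congr 1
  funext ω
  by_cases a1 : Ld' h f (K ω) r v = Ld' h f (K ω) r u
  · rw [ind_true a1, sum_eq_single (Ld' h f (K ω) r u)]
    · exact ind_true ⟨a1, rfl⟩
    · intro x _ hx
      exact ind_false fun hh => hx hh.2.symm
    · intro hx
      exact absurd (mem_univ _) hx
  · rw [ind_false a1]
    exact sum_eq_zero fun x _ => ind_false fun hh => a1 hh.1

theorem sum_PP_eq (hμ : Pr μ) (H : (I → Fin (n + 2)) → V → V) (g : (V → V) → ℝ) :
    ∑ h : V → V, PP μ (fun ω => H ω = h) * g h = EE μ (fun ω => g (H ω)) := by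
  classical
  unfold PP
  have : ∀ h : V → V, EE μ (fun ω => ind (H ω = h)) * g h =
      EE μ (fun ω => g h * ind (H ω = h)) := fun h => by rw [EE_mul]; ring
  rw [sum_congr rfl fun h _ => this h, ← EE_sum]
  congr 1
  funext ω
  rw [sum_eq_single (H ω)]
  · rw [ind_true rfl, mul_one]
  · intro h _ hh
    rw [ind_false fun e => hh e.symm, mul_zero]
  · intro hx
    exact absurd (mem_univ _) hx

/-- bounds for one merging step -/
theorem step_bounds (hμ : Pr μ) {la co : V → I} (hla : Function.Injective la)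
    (hu : ∀ x a, μ (la x) a = 1 / ((n : ℝ) + 2))
    {S : Finset I} (hlS : ∀ x, la x ∉ S) (hcS : ∀ x, co x ∉ S)
    (hlc : ∀ x y, la x ≠ co y) {lam : ℝ} (hl0 : 0 ≤ lam) (hl1 : lam ≤ 1)
    (hc0 : ∀ x, μ (co x) 0 = lam)
    {H : (I → Fin (n + 2)) → V → V} (hH : Dep H S) (hinv : ∀ ω x, H ω (H ω x) = x)
    {f : V → V} (hf : ∀ x, f (f x) = x) (r : ℕ) {u v : V} (huv : u ≠ v) :
    PP μ (fun ω => mrg (H ω) f (keyOf fun x => (ω (la x)).val)
      (fun x => decide (ω (co x) = 0)) (r + 1) u = v) ≤
      lam * PP μ (fun ω => H ω u = v) + (1 - lam) * ind (f u = v) ∧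
    (1 - 4 * (1 / ((r : ℝ) + 1) + 1 / ((n : ℝ) + 2))) *
      (lam * PP μ (fun ω => H ω u = v) + (1 - lam) * ind (f u = v)) ≤
    PP μ (fun ω => mrg (H ω) f (keyOf fun x => (ω (la x)).val)
      (fun x => decide (ω (co x) = 0)) (r + 1) u = v) := by
  classical
  have e1 := step_formula hμ hlS hcS hlc hc0 hH f (r + 1) huv
  have e2 : ∑ h : V → V, PP μ (fun ω => H ω = h) *
      (lam * ind (h u = v) + (1 - lam) * ind (f u = v)) =
      lam * PP μ (fun ω => H ω u = v) + (1 - lam) * ind (f u = v) := by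
    rw [sum_PP_eq hμ H (fun h => lam * ind (h u = v) + (1 - lam) * ind (f u = v))]
    rw [EE_add, EE_mul, EE_const hμ]
    rfl
  have hpos : ∀ h : V → V, 0 ≤ lam * ind (h u = v) + (1 - lam) * ind (f u = v) := fun h => by
    have := ind_nonneg (h u = v)
    have := ind_nonneg (f u = v)
    have : 0 ≤ 1 - lam := by linarith
    positivity
  rw [e1]
  constructor
  · rw [← e2]
    refine sum_le_sum fun h _ => mul_le_mul_of_nonneg_left ?_ (PP_nonneg hμ _)
    have h2 := PP_le_one hμ (fun ω => Ld' h f (keyOf fun x => (ω (la x)).val) (r + 1) v =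
        Ld' h f (keyOf fun x => (ω (la x)).val) (r + 1) u)
    have h3 := PP_nonneg hμ (fun ω => Ld' h f (keyOf fun x => (ω (la x)).val) (r + 1) v =
        Ld' h f (keyOf fun x => (ω (la x)).val) (r + 1) u)
    nlinarith [hpos h]
  · rw [← e2, mul_sum]
    refine sum_le_sum fun h _ => ?_
    by_cases hI : ∀ x, h (h x) = x
    · by_cases hv : v ∈ nb h f u
      · have h2 := leader_prob hμ hla hu hI hf r hv
        have h4 : 0 ≤ PP μ (fun ω => H ω = h) * (lam * ind (h u = v) +
            (1 - lam) * ind (f u = v)) := mul_nonneg (PP_nonneg hμ _) (hpos h)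
        nlinarith
      · have h5 : h u ≠ v := fun e => hv (by simp [nb, e])
        have h6 : f u ≠ v := fun e => hv (by simp [nb, e])
        rw [ind_false h5, ind_false h6]
        simp
    · have h7 : PP μ (fun ω => H ω = h) = 0 := by
        have : ∀ ω, ¬ (H ω = h) := fun ω e => hI (e ▸ hinv ω)
        unfold PP
        simp_rw [fun ω => ind_false (this ω)]
        exact EE_const hμ 0
      rw [h7]
      simp

end

end K3h83.CI
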