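import Pool.Agent.K3h83.CI.LLL
import Pool.Agent.TH437.SP.Nib

/-!
# One round of the nibble for one copy, edge by edge
-/

set_option autoImplicit false
set_option linter.unusedSectionVars false

namespace K3h83.CI

open Finset H115R4

section
variable {ι β : Type} [Fintype ι] [DecidableEq ι] [Fintype β] [DecidableEq β]

/-- the weights of the bits of one round -/
noncomputable def nmu (p : ι → ℝ) (c : β → ℝ) : (ι ⊕ β) → Bool → ℝ
  | Sum.inl e, b => if b = true then p e else 1 - p e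
  | Sum.inr v, b => if b = true then c v else 1 - c v

theorem nmu_pr {p : ι → ℝ} {c : β → ℝ} (hp : ∀ e, 0 ≤ p e ∧ p e ≤ 1)
    (hc : ∀ v, 0 ≤ c v ∧ c v ≤ 1) : Pr (nmu p c) := by
  constructor
  · rintro (e | v) (_ | _)
    · simp only [nmu, Bool.false_eq_true, if_false]; linarith [(hp e).2]
    · simp only [nmu, if_true]; exact (hp e).1
    · simp only [nmu, Bool.false_eq_true, if_false]; linarith [(hc v).2]
    · simp only [nmu, if_true]; exact (hc v).1
  · rintro (e | v) <;> rw [Fintype.sum_bool] <;> simp [nmu]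

/-- edge bits -/
def xs (ω : ι ⊕ β → Bool) : ι → Bool := fun e => ω (Sum.inl e)
/-- block bits -/
def ys (ω : ι ⊕ β → Bool) : β → Bool := fun v => ω (Sum.inr v)

theorem EE_nmu (p : ι → ℝ) (c : β → ℝ) (G : (ι → Bool) → (β → Bool) → ℝ) :
    EE (nmu p c) (fun ω => G (xs ω) (ys ω)) = Ex p c G := by
  unfold EE Ex
  rw [← Fintype.sum_prod_type' (f := fun x y => PrW p c x y * G x y)]
  refine Fintype.sum_equiv (Equiv.sumArrowEquivProdArrow ι β Bool) _ _ fun ω => ?_
  change PW (nmu p c) ω * G (xs ω) (ys ω) = PrW p c (xs ω) (ys ω) * G (xs ω) (ys ω)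
  congr 1
  unfold PW PrW
  rw [Fintype.prod_sum_type]
  rfl

variable {A : ι → Finset β} {w : ι → ℝ} {r : ℕ} {κ t : ℝ}

theorem pc_bd (hG : Good A w r κ) (ht0 : 0 ≤ t) (ht1 : t ≤ 1 / 2) (hκ : κ ≤ 1) :
    (∀ e, 0 ≤ t * w e ∧ t * w e ≤ 1) ∧ (∀ v, 0 ≤ cv A w t v ∧ cv A w t v ≤ 1) := by
  refine ⟨fun e => ?_, fun v => ?_⟩
  · have ha := hG.nonneg e
    have hb := hG.w_le e
    constructor
    · positivity
    · nlinarith
  · have := cv_bd_proof ι β A w r κ t hG ht0 ht1 hκ v
    exact this.2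

/-- isolated picked edges, one edge -/
theorem iso_prob (hG : Good A w r κ) (ht0 : 0 ≤ t) (ht1 : t ≤ 1 / 2) (hκ : κ ≤ 1) (e : ι) :
    t * (1 - t * r) * w e ≤
      EE (nmu (fun e => t * w e) (cv A w t)) (fun ω => ind (e ∈ iso A w (xs ω))) := by
  classical
  have e1 := EE_nmu (fun e => t * w e) (cv A w t) (fun x _ => ind (e ∈ iso A w x))
  rw [e1]
  rcases eq_or_lt_of_le (hG.nonneg e) with h0 | h0
  · rw [← h0, mul_zero, ← e1]
    exact EE_nonneg (nmu_pr (pc_bd hG ht0 ht1 hκ).1 (pc_bd hG ht0 ht1 hκ).2)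
      fun _ => ind_nonneg _
  · set F : Finset ι := univ.filter (fun f => f ≠ e ∧ ¬ Disjoint (A e) (A f)) with hF
    have he : e ∉ F := by simp [hF]
    have hfun : (fun (x : ι → Bool) (_ : β → Bool) => ind (e ∈ iso A w x)) =
        fun x _ => if x e = true ∧ (∀ f ∈ F, x f = false) then (1 : ℝ) else 0 := by
      funext x _
      unfold ind
      congr 1
      rw [eq_iff_iff]
      unfold iso
      rw [mem_filter]
      constructor
      · rintro ⟨-, -, hx, hh⟩
        refine ⟨hx, fun f hf => ?_⟩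
        rw [hF, Finset.mem_filter] at hf
        by_contra hxf
        exact hf.2.2 (hh f hf.2.1 (by simpa using hxf))
      · rintro ⟨hx, hh⟩
        refine ⟨mem_univ _, h0, hx, fun f hf hxf => ?_⟩
        by_contra hd
        have := hh f (by rw [hF, Finset.mem_filter]; exact ⟨Finset.mem_univ _, hf, hd⟩)
        rw [this] at hxf
        exact absurd hxf (by simp)
    rw [hfun, Ex_pick_proof ι β (fun e => t * w e) (cv A w t) e F he]
    have hle1 := (pc_bd hG ht0 ht1 hκ).1
    have hprod : 1 - ∑ f ∈ F, t * w f ≤ ∏ f ∈ F, (1 - t * w f) :=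
      H115R4.NC.prod_ge F (fun f => t * w f) (fun f _ => (hle1 f).1) (fun f _ => (hle1 f).2)
    have hS : ∑ f ∈ F, w f ≤ r := by
      have hA : ∑ f ∈ F, w f ≤ ∑ f, ∑ v ∈ A e, (if v ∈ A f then w f else 0) := by
        have hB : ∑ f ∈ F, w f ≤ ∑ f ∈ F, ∑ v ∈ A e, (if v ∈ A f then w f else 0) := by
          refine Finset.sum_le_sum fun f hf => ?_
          rw [hF, Finset.mem_filter] at hf
          obtain ⟨v, hv1, hv2⟩ := Finset.not_disjoint_iff.1 hf.2.2
          calc w f = (if v ∈ A f then w f else 0) := by rw [if_pos hv2]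
            _ ≤ _ := Finset.single_le_sum (f := fun v => if v ∈ A f then w f else 0)
                (fun u _ => by
                  split_ifs
                  · exact hG.nonneg f
                  · exact le_refl _) hv1
        refine hB.trans ?_
        refine Finset.sum_le_sum_of_subset_of_nonneg (Finset.subset_univ F) fun f _ _ => ?_
        refine Finset.sum_nonneg fun u _ => ?_
        split_ifs
        · exact hG.nonneg f
        · exact le_refl _
      refine hA.trans ?_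
      rw [Finset.sum_comm]
      have hC : ∀ v ∈ A e, ∑ f, (if v ∈ A f then w f else 0) ≤ 1 := by
        intro v _
        have := hG.deg_le v
        unfold deg at this
        rw [← Finset.sum_filter]
        exact this
      refine (Finset.sum_le_sum hC).trans ?_
      rw [Finset.sum_const, nsmul_eq_mul, mul_one]
      exact_mod_cast hG.rank e
    have h2 : 1 - t * r ≤ ∏ f ∈ F, (1 - t * w f) := by
      refine le_trans ?_ hprod
      rw [← Finset.mul_sum]
      have := mul_le_mul_of_nonneg_left hS ht0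
      linarith
    have h3 : 0 ≤ t * w e := (hle1 e).1
    calc t * (1 - t * r) * w e = (t * w e) * (1 - t * r) := by ring
      _ ≤ (t * w e) * ∏ f ∈ F, (1 - t * w f) := mul_le_mul_of_nonneg_left h2 h3

theorem sm_T : second_moment :=
  second_moment_of' cv_bd_proof sp_lower_proof (Ex_sp_of Ex_surv_proof)

open Classical in
/-- the mean of the new weight, one edge -/
theorem wn_mean {d : ℝ} (hG : Good A w r κ) (ht0 : 0 ≤ t) (ht1 : t ≤ 1 / 2) (hd : 0 < d)
    (hκ : κ ≤ 1) (hκr : 8 * (r : ℝ) ^ 2 * κ ≤ 1) (e : ι) :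
    ((1 - t) - 2 ^ r * (r * ((8 * (r : ℝ) ^ 2 + 4 ^ r * (r + 1)) * κ / d ^ 2))) / (1 + d) * w e ≤
      EE (nmu (fun e => t * w e) (cv A w t)) (fun ω => wn A w t d (xs ω) (ys ω) e) := by
  have hd' : (0 : ℝ) < 1 + d := by linarith
  have hbd := pc_bd hG ht0 ht1 hκ
  have hpr := nmu_pr hbd.1 hbd.2
  have hw := NE_wt_nonneg hG ht1 e
  have hκ0 : 0 ≤ κ := (hG.nonneg e).trans (hG.w_le e)
  -- pointwise
  have h1 : ∀ ω : ι ⊕ β → Bool, 1 / (1 + d) * (wt A w t e * ((if ∀ v ∈ A e, Sv A (xs ω) (ys ω) v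
      then 1 else 0) - ∑ v ∈ A e, 1 / d ^ 2 * (if Sv A (xs ω) (ys ω) v then
        (Ld A w t (xs ω) (ys ω) v - deg A w v) ^ 2 else 0))) ≤
      wn A w t d (xs ω) (ys ω) e := by
    intro ω
    have hnn : ∀ v, (0 : ℝ) ≤ 1 / d ^ 2 * (if Sv A (xs ω) (ys ω) v then
        (Ld A w t (xs ω) (ys ω) v - deg A w v) ^ 2 else 0) := by
      intro v
      apply mul_nonneg (by positivity)
      split_ifs
      · positivity
      · exact le_refl _
    have hwn := NE_wn_nonneg hG ht1 hd (xs ω) (ys ω) e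
    rw [div_mul_eq_mul_div, one_mul, div_le_iff₀ hd']
    by_cases hS : Se A (xs ω) (ys ω) e
    · have hS' : ∀ v ∈ A e, Sv A (xs ω) (ys ω) v := hS
      rw [if_pos hS']
      by_cases hall : ∀ v ∈ A e, Ld A w t (xs ω) (ys ω) v ≤ 1 + d
      · have e2 : wn A w t d (xs ω) (ys ω) e * (1 + d) = wt A w t e := by
          unfold wn
          rw [if_pos (show Se A (xs ω) (ys ω) e ∧ ∀ v ∈ A e, Ld A w t (xs ω) (ys ω) v ≤ 1 + d
            from ⟨hS, hall⟩), div_mul_cancel₀ _ hd'.ne']
        rw [e2]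
        have := sum_nonneg fun v (_ : v ∈ A e) => hnn v
        nlinarith
      · push Not at hall
        obtain ⟨v, hv, hlt⟩ := hall
        have h3 : (1 : ℝ) ≤ ∑ v ∈ A e, 1 / d ^ 2 * (if Sv A (xs ω) (ys ω) v then
            (Ld A w t (xs ω) (ys ω) v - deg A w v) ^ 2 else 0) := by
          refine le_trans ?_ (single_le_sum (fun v _ => hnn v) hv)
          rw [if_pos (hS' v hv), div_mul_eq_mul_div, one_mul, one_le_div (by positivity)]
          have hdeg := hG.deg_le v
          have h4 : d ≤ Ld A w t (xs ω) (ys ω) v - deg A w v := by linarith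
          nlinarith
        nlinarith
    · have hS' : ¬ ∀ v ∈ A e, Sv A (xs ω) (ys ω) v := hS
      rw [if_neg hS']
      have := sum_nonneg fun v (_ : v ∈ A e) => hnn v
      nlinarith
  refine le_trans ?_ (EE_mono hpr h1)
  rw [EE_mul, EE_mul, EE_sub, EE_sum]
  simp_rw [EE_mul]
  have e5 : EE (nmu (fun e => t * w e) (cv A w t)) (fun ω => if ∀ v ∈ A e, Sv A (xs ω) (ys ω) v
      then (1 : ℝ) else 0) = sp A w t (A e) := by
    rw [EE_nmu (fun e => t * w e) (cv A w t) (fun x y => if ∀ v ∈ A e, Sv A x y v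
      then (1 : ℝ) else 0)]
    exact Ex_sp_of Ex_surv_proof ι β A w t (A e)
  rw [e5]
  have e6 : (1 - t) * w e ≤ wt A w t e * sp A w t (A e) := by
    have e2 := sp_lower_proof ι β A w r κ t hG ht0 ht1 hκ (A e)
    have e4 : (1 - t) * w e = wt A w t e * (1 - t) ^ (A e).card := by
      unfold wt
      have hcard : (A e).card = ((A e).card - 1) + 1 :=
        (Nat.succ_pred_eq_of_pos (Finset.card_pos.2 (hG.nonempty e))).symm
      have hpos : (0 : ℝ) < (1 - t) ^ ((A e).card - 1) := pow_pos (by linarith) _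
      rw [div_mul_eq_mul_div, eq_div_iff hpos.ne']
      conv_rhs => rw [hcard, pow_succ]
      ring
    rw [e4]
    exact mul_le_mul_of_nonneg_left e2 hw
  have e7 : ∑ v ∈ A e, 1 / d ^ 2 * EE (nmu (fun e => t * w e) (cv A w t)) (fun ω =>
      if Sv A (xs ω) (ys ω) v then (Ld A w t (xs ω) (ys ω) v - deg A w v) ^ 2 else 0) ≤
      r * ((8 * (r : ℝ) ^ 2 + 4 ^ r * (r + 1)) * κ / d ^ 2) := by
    calc _ ≤ ∑ _v ∈ A e, (8 * (r : ℝ) ^ 2 + 4 ^ r * (r + 1)) * κ / d ^ 2 := by
          refine sum_le_sum fun v _ => ?_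
          rw [div_mul_eq_mul_div, one_mul]
          refine div_le_div_of_nonneg_right ?_ (by positivity)
          rw [EE_nmu (fun e => t * w e) (cv A w t) (fun x y => if Sv A x y v then
            (Ld A w t x y v - deg A w v) ^ 2 else 0)]
          refine (sm_T ι β A w r κ t hG ht0 ht1 hκ hκr v).trans ?_
          have h8 := hG.deg_le v
          have h9 : 0 ≤ (8 * (r : ℝ) ^ 2 + 4 ^ r * (r + 1)) * κ := by positivity
          nlinarith
      _ = (A e).card * ((8 * (r : ℝ) ^ 2 + 4 ^ r * (r + 1)) * κ / d ^ 2) := by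
          rw [sum_const, nsmul_eq_mul]
      _ ≤ _ := by
          apply mul_le_mul_of_nonneg_right _ (by positivity)
          exact_mod_cast hG.rank e
  have e8 := NE_wt_le hG ht1 e
  have e9 : 0 ≤ r * ((8 * (r : ℝ) ^ 2 + 4 ^ r * (r + 1)) * κ / d ^ 2) := by positivity
  rw [div_mul_eq_mul_div, div_mul_eq_mul_div, one_mul]
  refine div_le_div_of_nonneg_right ?_ hd'.le
  have e10 : wt A w t e * ∑ v ∈ A e, 1 / d ^ 2 * EE (nmu (fun e => t * w e) (cv A w t)) (fun ω =>
      if Sv A (xs ω) (ys ω) v then (Ld A w t (xs ω) (ys ω) v - deg A w v) ^ 2 else 0) ≤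
      2 ^ r * w e * (r * ((8 * (r : ℝ) ^ 2 + 4 ^ r * (r + 1)) * κ / d ^ 2)) := by
    calc _ ≤ wt A w t e * (r * ((8 * (r : ℝ) ^ 2 + 4 ^ r * (r + 1)) * κ / d ^ 2)) :=
          mul_le_mul_of_nonneg_left e7 hw
      _ ≤ _ := mul_le_mul_of_nonneg_right e8 e9
  rw [mul_sub]
  nlinarith

end

end K3h83.CI
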