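import Pool.Agent.K3h83.CI.Nib1

/-!
# One round of the nibble for many copies, with the local lemma
-/

set_option autoImplicit false
set_option linter.unusedSectionVars false

namespace K3h83.CI

open Finset H115R4

/-- a configuration of `m` weighted hypergraphs (copies) on blocks of vertices -/
structure Cfg {V ι : Type} [Fintype V] [DecidableEq V] [Fintype ι] [DecidableEq ι] (m D : ℕ)
    (N : V → Finset V) (ev : ι → Finset V) (A : Fin m → ι → Finset (Finset V))
    (w : Fin m → ι → ℝ) (κ : ℝ) : Prop where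
  self : ∀ v, v ∈ N v
  symm : ∀ u v, u ∈ N v → v ∈ N u
  cardN : ∀ v, (N v).card ≤ D
  edge : ∀ e, ∀ u ∈ ev e, ∀ v ∈ ev e, u ∈ N v
  blk : ∀ c e, ∀ b ∈ A c e, b.Nonempty ∧ b ⊆ ev e
  good : ∀ c, Good (A c) (w c) 3 κ
  star : ∀ c v, ∃ b, ∀ e, v ∈ ev e → 0 < w c e → b ∈ A c e
  small : ∀ c e, m * w c e ≤ κ

theorem sum_ind_le_one {κ : Type} (s : Finset κ) (Q : κ → Prop)
    (h : ∀ e ∈ s, ∀ e' ∈ s, Q e → Q e' → e = e') : ∑ e ∈ s, ind (Q e) ≤ 1 := by
  classical
  by_cases hex : ∃ e ∈ s, Q e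
  · obtain ⟨e, he, hQ⟩ := hex
    rw [sum_eq_single_of_mem e he fun e' he' hne => ind_false fun hQ' =>
      hne (h e' he' e he hQ' hQ)]
    exact ind_le_one _
  · push Not at hex
    rw [sum_eq_zero fun e he => ind_false (hex e he)]
    norm_num

section
variable {V ι : Type} [Fintype V] [DecidableEq V] [Fintype ι] [DecidableEq ι] {m D : ℕ}
  {N : V → Finset V} {ev : ι → Finset V} {A : Fin m → ι → Finset (Finset V)}
  {w : Fin m → ι → ℝ} {κ t d : ℝ}

/-- the location of a bit -/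
def loc (ev : ι → Finset V) : ι ⊕ Finset V → Finset V
  | Sum.inl e => ev e
  | Sum.inr b => b

/-- the weights of the bits of copy `c` -/
noncomputable def cmu (A : Fin m → ι → Finset (Finset V)) (w : Fin m → ι → ℝ) (t : ℝ)
    (c : Fin m) : ι ⊕ Finset V → Bool → ℝ :=
  nmu (fun e => t * w c e) (cv (A c) (w c) t)

theorem Cfg.ev_nonempty (h : Cfg m D N ev A w κ) (c : Fin m) (e : ι) : (ev e).Nonempty := by
  obtain ⟨b, hb⟩ := (h.good c).nonempty e
  obtain ⟨⟨x, hx⟩, h2⟩ := h.blk c e b hb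
  exact ⟨x, h2 hx⟩

theorem Cfg.ev_ball (h : Cfg m D N ev A w κ) {e : ι} {y v : V} {k : ℕ} (hy : y ∈ ev e)
    (hyv : y ∈ ball N k v) : ev e ⊆ ball N (k + 1) v := by
  intro u hu
  rw [ball_succ, mem_biUnion]
  exact ⟨y, hyv, h.edge e u hu y hy⟩

theorem Cfg.ev_ball₁ (h : Cfg m D N ev A w κ) {e : ι} {v : V} (hv : v ∈ ev e) :
    ev e ⊆ ball N 1 v := h.ev_ball (k := 0) hv (by simp [ball])

/-- edges meeting in a block -/
theorem Cfg.meet (h : Cfg m D N ev A w κ) {c : Fin m} {e f : ι} {b : Finset V} {v : V} {k : ℕ}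
    (he : ev e ⊆ ball N k v) (hb : b ∈ A c e) (hbf : b ∈ A c f) :
    ev f ⊆ ball N (k + 1) v := by
  obtain ⟨⟨x, hx⟩, h2⟩ := h.blk c e b hb
  obtain ⟨-, h3⟩ := h.blk c f b hbf
  exact h.ev_ball (h3 hx) (he (h2 hx))

/-- agreement of two outcomes on a ball -/
def Agree (N : V → Finset V) (ev : ι → Finset V) (v : V) (k : ℕ)
    (x x' : ι ⊕ Finset V → Bool) : Prop :=
  ∀ i, (loc ev i).Nonempty → loc ev i ⊆ ball N k v → x i = x' i

theorem Agree.edge (h : Cfg m D N ev A w κ) {v : V} {k : ℕ} {x x' : ι ⊕ Finset V → Bool}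
    (ha : Agree N ev v k x x') (c : Fin m) {e : ι} (he : ev e ⊆ ball N k v) : xs x e = xs x' e :=
  ha (Sum.inl e) (h.ev_nonempty c e) he

theorem iso_congr (h : Cfg m D N ev A w κ) {v : V} {x x' : ι ⊕ Finset V → Bool}
    (ha : Agree N ev v 3 x x') (c : Fin m) {e : ι} (he : v ∈ ev e) :
    e ∈ iso (A c) (w c) (xs x) ↔ e ∈ iso (A c) (w c) (xs x') := by
  have hb := h.ev_ball₁ he
  have h3 : ev e ⊆ ball N 3 v := hb.trans (ball_mono h.self (by norm_num) v)
  have aux : ∀ f, ¬ Disjoint (A c e) (A c f) → xs x f = xs x' f := by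
    intro f hf
    obtain ⟨b, hb1, hb2⟩ := not_disjoint_iff.1 hf
    exact ha.edge h c ((h.meet hb hb1 hb2).trans (ball_mono h.self (by norm_num) v))
  unfold iso
  simp only [mem_filter, mem_univ, true_and]
  rw [ha.edge h c h3]
  have : (∀ f, f ≠ e → xs x f = true → Disjoint (A c e) (A c f)) ↔
      (∀ f, f ≠ e → xs x' f = true → Disjoint (A c e) (A c f)) := by
    constructor
    · intro hh f hf hx
      by_contra hd
      exact hd (hh f hf (by rw [aux f hd]; exact hx))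
    · intro hh f hf hx
      by_contra hd
      exact hd (hh f hf (by rw [← aux f hd]; exact hx))
  rw [this]

theorem Se_congr (h : Cfg m D N ev A w κ) {v : V} {x x' : ι ⊕ Finset V → Bool}
    (ha : Agree N ev v 3 x x') (c : Fin m) {e : ι} (he : ev e ⊆ ball N 2 v) :
    Se (A c) (xs x) (ys x) e ↔ Se (A c) (xs x') (ys x') e := by
  unfold Se Sv
  refine forall_congr' fun b => forall_congr' fun hb => ?_
  obtain ⟨hbn, hbe⟩ := h.blk c e b hb
  have e1 : ys x b = ys x' b := ha (Sum.inr b) hbn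
    (hbe.trans (he.trans (ball_mono h.self (by norm_num) v)))
  rw [e1]
  have : (∀ f, b ∈ A c f → xs x f = false) ↔ (∀ f, b ∈ A c f → xs x' f = false) :=
    forall_congr' fun f => forall_congr' fun hf => by rw [ha.edge h c (h.meet he hb hf)]
  rw [this]

theorem wn_congr (h : Cfg m D N ev A w κ) {v : V} {x x' : ι ⊕ Finset V → Bool}
    (ha : Agree N ev v 3 x x') (c : Fin m) {e : ι} (he : v ∈ ev e) :
    wn (A c) (w c) t d (xs x) (ys x) e = wn (A c) (w c) t d (xs x') (ys x') e := by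
  classical
  have hb := h.ev_ball₁ he
  have h2 : ev e ⊆ ball N 2 v := hb.trans (ball_mono h.self (by norm_num) v)
  have e1 : ∀ b ∈ A c e, Ld (A c) (w c) t (xs x) (ys x) b = Ld (A c) (w c) t (xs x') (ys x') b := by
    intro b hb1
    unfold Ld
    refine sum_congr rfl fun g hg => ?_
    rw [mem_filter] at hg
    have h3 := h.meet hb hb1 hg.2
    have h4 := Se_congr h ha c h3
    by_cases hS : Se (A c) (xs x) (ys x) g
    · rw [if_pos hS, if_pos (h4.1 hS)]
    · rw [if_neg hS, if_neg fun hh => hS (h4.2 hh)]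
  unfold wn
  have h4 := Se_congr h ha c h2
  have h5 : (Se (A c) (xs x) (ys x) e ∧ ∀ v ∈ A c e, Ld (A c) (w c) t (xs x) (ys x) v ≤ 1 + d) ↔
      (Se (A c) (xs x') (ys x') e ∧ ∀ v ∈ A c e, Ld (A c) (w c) t (xs x') (ys x') v ≤ 1 + d) := by
    rw [h4]
    refine and_congr_right fun _ => forall_congr' fun b => forall_congr' fun hb1 => ?_
    rw [e1 b hb1]
  by_cases hS : Se (A c) (xs x) (ys x) e ∧ ∀ v ∈ A c e, Ld (A c) (w c) t (xs x) (ys x) v ≤ 1 + d
  · rw [if_pos hS, if_pos (h5.1 hS)]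
  · rw [if_neg hS, if_neg fun hh => hS (h5.2 hh)]

/-- picked isolated edges of copy `c` -/
noncomputable def Pk (A : Fin m → ι → Finset (Finset V)) (w : Fin m → ι → ℝ)
    (ω : Fin m → (ι ⊕ Finset V → Bool)) (c : Fin m) : Finset ι := iso (A c) (w c) (xs (ω c))

/-- new weights -/
noncomputable def wN (A : Fin m → ι → Finset (Finset V)) (w : Fin m → ι → ℝ) (t d : ℝ)
    (ω : Fin m → (ι ⊕ Finset V → Bool)) (c : Fin m) (e : ι) : ℝ :=
  wn (A c) (w c) t d (xs (ω c)) (ys (ω c)) e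

theorem Pk_pos {ω : Fin m → (ι ⊕ Finset V → Bool)} {c : Fin m} {e : ι} (h : e ∈ Pk A w ω c) :
    0 < w c e ∧ ω c (Sum.inl e) = true := by
  unfold Pk iso at h
  rw [mem_filter] at h
  exact ⟨h.2.1, h.2.2.1⟩

theorem Pk_unique (h : Cfg m D N ev A w κ) {ω : Fin m → (ι ⊕ Finset V → Bool)} {c : Fin m}
    {v : V} {e e' : ι} (he : e ∈ Pk A w ω c) (he' : e' ∈ Pk A w ω c) (hv : v ∈ ev e)
    (hv' : v ∈ ev e') : e = e' := by
  obtain ⟨b, hb⟩ := h.star c v
  have h1 := hb e hv (Pk_pos he).1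
  have h2 := hb e' hv' (Pk_pos he').1
  by_contra hne
  unfold Pk iso at he
  rw [mem_filter] at he
  have h3 := he.2.2.2 e' (fun hh => hne hh.symm) (Pk_pos he').2
  exact (disjoint_left.1 h3) h1 h2

theorem wN_nonneg (h : Cfg m D N ev A w κ) (ht1 : t ≤ 1 / 2) (hd : 0 < d)
    (ω : Fin m → (ι ⊕ Finset V → Bool)) (c : Fin m) (e : ι) : 0 ≤ wN A w t d ω c e :=
  NE_wn_nonneg (h.good c) ht1 hd _ _ _

theorem wN_le (h : Cfg m D N ev A w κ) (ht1 : t ≤ 1 / 2) (hd : 0 < d)
    (ω : Fin m → (ι ⊕ Finset V → Bool)) (c : Fin m) (e : ι) : wN A w t d ω c e ≤ 8 * w c e := by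
  have := NE_wn_le (h.good c) ht1 hd (xs (ω c)) (ys (ω c)) e
  norm_num at this
  exact this

theorem wN_pos (h : Cfg m D N ev A w κ) (ht1 : t ≤ 1 / 2) (hd : 0 < d)
    {ω : Fin m → (ι ⊕ Finset V → Bool)} {c : Fin m} {e : ι} (hp : 0 < wN A w t d ω c e) :
    0 < w c e := by
  have := wN_le h ht1 hd ω c e
  linarith

theorem wN_good (h : Cfg m D N ev A w κ) (ht0 : 0 ≤ t) (ht1 : t ≤ 1 / 2) (hd : 0 < d)
    (ω : Fin m → (ι ⊕ Finset V → Bool)) (c : Fin m) :
    Good (A c) (wN A w t d ω c) 3 (8 * κ) :=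
  wn_good_proof ι (Finset V) (A c) (w c) 3 κ (8 * κ) t d (h.good c) ht0 ht1 hd
    (by norm_num) _ _

theorem wN_sum_le (h : Cfg m D N ev A w κ) (ht0 : 0 ≤ t) (ht1 : t ≤ 1 / 2) (hd : 0 < d)
    (ω : Fin m → (ι ⊕ Finset V → Bool)) (c : Fin m) (v : V) :
    ∑ e ∈ univ.filter (fun e => v ∈ ev e), wN A w t d ω c e ≤ 1 := by
  obtain ⟨b, hb⟩ := h.star c v
  have hg := wN_good h ht0 ht1 hd ω c
  have h1 := hg.deg_le b
  unfold deg at h1
  refine le_trans ?_ h1
  rw [sum_filter, sum_filter]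
  refine sum_le_sum fun e _ => ?_
  have h0 := wN_nonneg h ht1 hd ω c e
  by_cases hv : v ∈ ev e
  · rw [if_pos hv]
    rcases eq_or_lt_of_le h0 with h2 | h2
    · rw [← h2]
      split_ifs <;> exact le_refl _
    · rw [if_pos (hb e hv (wN_pos h ht1 hd h2))]
  · rw [if_neg hv]
    split_ifs
    · exact h0
    · exact le_refl _

/-- new edge at `v` in copy `c` -/
noncomputable def Z1 (ev : ι → Finset V) (A : Fin m → ι → Finset (Finset V))
    (w : Fin m → ι → ℝ) (v : V) (c : Fin m) (ω : Fin m → (ι ⊕ Finset V → Bool)) : ℝ :=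
  ∑ e ∈ univ.filter (fun e => v ∈ ev e),
    ind (e ∈ Pk A w ω c ∧ ∀ c' < c, e ∉ Pk A w ω c')

/-- new weight at `v` in copy `c` -/
noncomputable def Z2 (ev : ι → Finset V) (A : Fin m → ι → Finset (Finset V))
    (w : Fin m → ι → ℝ) (t d : ℝ) (v : V) (c : Fin m) (ω : Fin m → (ι ⊕ Finset V → Bool)) : ℝ :=
  ∑ e ∈ univ.filter (fun e => v ∈ ev e), wN A w t d ω c e

theorem Z1_sum_le (ω : Fin m → (ι ⊕ Finset V → Bool)) (v : V) :
    ∑ c, Z1 ev A w v c ω ≤
      (((univ.biUnion (Pk A w ω)).filter (fun e => v ∈ ev e)).card : ℝ) := by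
  classical
  unfold Z1
  rw [sum_comm]
  have h1 : (((univ.biUnion (Pk A w ω)).filter (fun e => v ∈ ev e)).card : ℝ) =
      ∑ e ∈ univ.filter (fun e => v ∈ ev e), ind (e ∈ univ.biUnion (Pk A w ω)) := by
    rw [card_filter]
    push_cast
    rw [sum_filter, ← sum_filter_add_sum_filter_not univ (fun e => e ∈ univ.biUnion (Pk A w ω))]
    rw [sum_eq_zero (s := univ.filter (fun e => e ∉ univ.biUnion (Pk A w ω)))]
    · rw [add_zero, filter_mem_eq_inter, univ_inter]
      refine sum_congr rfl fun e he => ?_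
      rw [ind_true he]
    · intro e he
      rw [mem_filter] at he
      rw [ind_false he.2]
      split_ifs <;> rfl
  rw [h1]
  refine sum_le_sum fun e _ => ?_
  by_cases hex : e ∈ univ.biUnion (Pk A w ω)
  · rw [ind_true hex]
    refine sum_ind_le_one univ _ ?_
    rintro c - c' - ⟨h1, h2⟩ ⟨h3, h4⟩
    rcases lt_trichotomy c c' with h | h | h
    · exact absurd h1 (h4 c h)
    · exact h
    · exact absurd h3 (h2 c' h)
  · rw [ind_false hex]
    refine (sum_eq_zero fun c _ => ind_false ?_).le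
    rintro ⟨h5, -⟩
    exact hex (mem_biUnion.2 ⟨c, mem_univ c, h5⟩)

theorem Z1_bd (h : Cfg m D N ev A w κ) (v : V) (c : Fin m)
    (ω : Fin m → (ι ⊕ Finset V → Bool)) : 0 ≤ Z1 ev A w v c ω ∧ Z1 ev A w v c ω ≤ 1 := by
  refine ⟨sum_nonneg fun _ _ => ind_nonneg _, sum_ind_le_one _ _ ?_⟩
  intro e he e' he' h1 h2
  rw [mem_filter] at he he'
  exact Pk_unique h h1.1 h2.1 he.2 he'.2

/-- number of edges at `v` picked by the copies before `c` -/
theorem old_le (h : Cfg m D N ev A w κ) (v : V) (c : Fin m)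
    (ω : Fin m → (ι ⊕ Finset V → Bool)) :
    ∑ e ∈ univ.filter (fun e => v ∈ ev e), ind (¬ ∀ c' < c, e ∉ Pk A w ω c') ≤ m := by
  calc _ ≤ ∑ e ∈ univ.filter (fun e => v ∈ ev e), ∑ c', ind (e ∈ Pk A w ω c') := by
        refine sum_le_sum fun e _ => ?_
        by_cases hh : ∀ c' < c, e ∉ Pk A w ω c'
        · rw [ind_false (not_not.2 hh)]
          exact sum_nonneg fun _ _ => ind_nonneg _
        · rw [ind_true hh]
          push Not at hh
          obtain ⟨c', -, hc'⟩ := hh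
          calc (1 : ℝ) = ind (e ∈ Pk A w ω c') := (ind_true hc').symm
            _ ≤ _ := single_le_sum (f := fun c' => ind (e ∈ Pk A w ω c'))
              (fun _ _ => ind_nonneg _) (mem_univ c')
    _ = ∑ c', ∑ e ∈ univ.filter (fun e => v ∈ ev e), ind (e ∈ Pk A w ω c') := sum_comm
    _ ≤ ∑ _c' : Fin m, (1 : ℝ) := by
        refine sum_le_sum fun c' _ => sum_ind_le_one _ _ ?_
        intro e he e' he' h1 h2
        rw [mem_filter] at he he'
        exact Pk_unique h h1 h2 he.2 he'.2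
    _ = m := by simp

theorem Z1_mean (h : Cfg m D N ev A w κ) (ht0 : 0 ≤ t) (ht1 : t ≤ 1 / 4) (hκ : κ ≤ 1) (v : V)
    (c : Fin m) (ω : Fin m → (ι ⊕ Finset V → Bool)) :
    t * (1 - t * 3) * ∑ e ∈ univ.filter (fun e => v ∈ ev e), w c e - κ ≤
      ∑ a, PW (cmu A w t c) a * Z1 ev A w v c (Function.update ω c a) := by
  classical
  have hm : (0 : ℝ) < m := by
    have := c.pos
    exact_mod_cast this
  have e1 : ∀ a, Z1 ev A w v c (Function.update ω c a) =
      ∑ e ∈ univ.filter (fun e => v ∈ ev e), ind (∀ c' < c, e ∉ Pk A w ω c') *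
        ind (e ∈ iso (A c) (w c) (xs a)) := by
    intro a
    unfold Z1
    refine sum_congr rfl fun e _ => ?_
    rw [← ind_and]
    apply ind_congr
    rw [and_comm]
    refine and_congr (forall_congr' fun c' => forall_congr' fun hc' => ?_) ?_
    · unfold Pk
      rw [Function.update_of_ne hc'.ne]
    · unfold Pk
      rw [Function.update_self]
  have e2 : ∑ a, PW (cmu A w t c) a * Z1 ev A w v c (Function.update ω c a) =
      ∑ e ∈ univ.filter (fun e => v ∈ ev e), ind (∀ c' < c, e ∉ Pk A w ω c') *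
        EE (cmu A w t c) (fun a => ind (e ∈ iso (A c) (w c) (xs a))) := by
    simp_rw [e1]
    have := EE_sum (univ.filter (fun e => v ∈ ev e)) (cmu A w t c)
      (fun e a => ind (∀ c' < c, e ∉ Pk A w ω c') * ind (e ∈ iso (A c) (w c) (xs a)))
    simp_rw [EE_mul] at this
    rw [← this]
    rfl
  rw [e2]
  have h1 : ∀ e ∈ univ.filter (fun e => v ∈ ev e), t * (1 - t * 3) * w c e -
      κ / m * ind (¬ ∀ c' < c, e ∉ Pk A w ω c') ≤ ind (∀ c' < c, e ∉ Pk A w ω c') *
        EE (cmu A w t c) (fun a => ind (e ∈ iso (A c) (w c) (xs a))) := by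
    intro e _
    have h2 := iso_prob (h.good c) ht0 (by linarith) hκ e
    have h2' : t * (1 - t * 3) * w c e ≤
        EE (cmu A w t c) (fun a => ind (e ∈ iso (A c) (w c) (xs a))) := by
      have : ((3 : ℕ) : ℝ) = 3 := by norm_num
      rw [this] at h2
      exact h2
    by_cases hh : ∀ c' < c, e ∉ Pk A w ω c'
    · rw [ind_true hh, ind_false (not_not.2 hh)]
      linarith
    · rw [ind_false hh, ind_true hh]
      have h3 : w c e ≤ κ / m := by
        rw [le_div_iff₀ hm, mul_comm]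
        exact h.small c e
      have h4 := (h.good c).nonneg e
      have h5 : t * (1 - t * 3) ≤ 1 := by nlinarith
      nlinarith
  have h2 := sum_le_sum h1
  rw [sum_sub_distrib, ← mul_sum, ← mul_sum] at h2
  refine le_trans ?_ h2
  have h3 := old_le h v c ω
  have h4 : 0 ≤ κ / m := by
    by_cases hι : Nonempty ι
    · obtain ⟨e⟩ := hι
      exact div_nonneg (((h.good c).nonneg e).trans ((h.good c).w_le e)) hm.le
    · by_contra hneg
      have hE : IsEmpty ι := not_nonempty_iff.1 hι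
      have hk : κ < 0 := by
        by_contra hk
        push Not at hk
        exact hneg (div_nonneg hk hm.le)
      -- no vertices constraint available; use codegree bound
      have := (h.good c).codeg_le ∅ univ
      by_cases hVe : (∅ : Finset V) = univ
      · -- V is empty, but then v is impossible
        exact absurd (mem_univ v) (by rw [← hVe]; simp)
      · have h6 := this hVe
        unfold codeg at h6
        rw [sum_eq_zero fun e _ => (hE.false e).elim] at h6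
        linarith
  have h5 : κ / m * ∑ e ∈ univ.filter (fun e => v ∈ ev e), ind (¬ ∀ c' < c, e ∉ Pk A w ω c') ≤
      κ := by
    calc _ ≤ κ / m * m := mul_le_mul_of_nonneg_left h3 h4
      _ = κ := div_mul_cancel₀ _ hm.ne'
  linarith

theorem Z2_mean {η : ℝ} (h : Cfg m D N ev A w κ) (ht0 : 0 ≤ t) (ht1 : t ≤ 1 / 2) (hd : 0 < d)
    (hκ : κ ≤ 1) (hκr : 8 * ((3 : ℕ) : ℝ) ^ 2 * κ ≤ 1)
    (hη : 1 - t - η ≤ ((1 - t) - 2 ^ 3 * (((3 : ℕ) : ℝ) * ((8 * ((3 : ℕ) : ℝ) ^ 2 + 4 ^ 3 *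
      (((3 : ℕ) : ℝ) + 1)) * κ / d ^ 2))) / (1 + d)) (v : V)
    (c : Fin m) (ω : Fin m → (ι ⊕ Finset V → Bool)) :
    (1 - t - η) * ∑ e ∈ univ.filter (fun e => v ∈ ev e), w c e ≤
      ∑ a, PW (cmu A w t c) a * Z2 ev A w t d v c (Function.update ω c a) := by
  classical
  have e2 : ∑ a, PW (cmu A w t c) a * Z2 ev A w t d v c (Function.update ω c a) =
      ∑ e ∈ univ.filter (fun e => v ∈ ev e),
        EE (cmu A w t c) (fun a => wn (A c) (w c) t d (xs a) (ys a) e) := by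
    unfold Z2 wN
    simp_rw [Function.update_self]
    have := EE_sum (univ.filter (fun e => v ∈ ev e)) (cmu A w t c)
      (fun e a => wn (A c) (w c) t d (xs a) (ys a) e)
    rw [← this]
    rfl
  rw [e2, mul_sum]
  refine sum_le_sum fun e _ => ?_
  have h1 := wn_mean (h.good c) ht0 ht1 hd hκ hκr e
  refine le_trans ?_ h1
  exact mul_le_mul_of_nonneg_right hη ((h.good c).nonneg e)

/-- **one round** -/
theorem round {η ε : ℝ} (h : Cfg m D N ev A w κ) (ht0 : 0 ≤ t) (ht1 : t ≤ 1 / 4) (hd : 0 < d)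
    (hκ : κ ≤ 1) (hκr : 8 * ((3 : ℕ) : ℝ) ^ 2 * κ ≤ 1)
    (hη : 1 - t - η ≤ ((1 - t) - 2 ^ 3 * (((3 : ℕ) : ℝ) * ((8 * ((3 : ℕ) : ℝ) ^ 2 + 4 ^ 3 *
      (((3 : ℕ) : ℝ) + 1)) * κ / d ^ 2))) / (1 + d)) (hε : 0 < ε)
    (hL : 8 * Real.exp (-(ε ^ 2 * m / 2)) * (D : ℝ) ^ 6 ≤ 1) :
    ∃ ω : Fin m → (ι ⊕ Finset V → Bool), ∀ v : V,
      t * (1 - t * 3) * (∑ c, ∑ e ∈ univ.filter (fun e => v ∈ ev e), w c e) - κ * m - ε * m ≤
        (((univ.biUnion (Pk A w ω)).filter (fun e => v ∈ ev e)).card : ℝ) ∧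
      (1 - t - η) * (∑ c, ∑ e ∈ univ.filter (fun e => v ∈ ev e), w c e) - ε * m ≤
        ∑ c, ∑ e ∈ univ.filter (fun e => v ∈ ev e), wN A w t d ω c e := by
  classical
  have hpr : ∀ c, Pr (cmu A w t c) := fun c =>
    nmu_pr (pc_bd (h.good c) ht0 (by linarith) hκ).1 (pc_bd (h.good c) ht0 (by linarith) hκ).2
  have hcur := Pr_curry hpr
  set M1 : V → Fin m → ℝ := fun v c =>
    t * (1 - t * 3) * ∑ e ∈ univ.filter (fun e => v ∈ ev e), w c e - κ with hM1
  set M2 : V → Fin m → ℝ := fun v c =>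
    (1 - t - η) * ∑ e ∈ univ.filter (fun e => v ∈ ev e), w c e with hM2
  set B : V → (Fin m → (ι ⊕ Finset V → Bool)) → Prop := fun v ω =>
    (∑ c, Z1 ev A w v c ω < ∑ c, M1 v c - ε * m) ∨
      (∑ c, Z2 ev A w t d v c ω < ∑ c, M2 v c - ε * m) with hB
  have hdep1 : ∀ v c, Dep (Z1 ev A w v c) (univ.filter (· ≤ c)) := by
    intro v c ω ω' hh
    unfold Z1
    refine sum_congr rfl fun e _ => ind_congr ?_
    have e1 : ∀ c' ≤ c, Pk A w ω c' = Pk A w ω' c' := fun c' hc' => by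
      unfold Pk
      rw [hh c' (by simpa using hc')]
    rw [e1 c le_rfl]
    refine and_congr_right fun _ => forall_congr' fun c' => forall_congr' fun hc' => ?_
    rw [e1 c' hc'.le]
  have hdep2 : ∀ v c, Dep (Z2 ev A w t d v c) (univ.filter (· ≤ c)) := by
    intro v c ω ω' hh
    unfold Z2 wN
    rw [hh c (by simp)]
  have hP : ∀ v, PP (fun c => PW (cmu A w t c)) (B v) ≤ 2 * Real.exp (-(ε ^ 2 * m / 2)) := by
    intro v
    refine (PP_or_le hcur.1 _ _).trans ?_
    have h1 := chern hcur.1 (Z1 ev A w v) (fun c ω => (Z1_bd h v c ω).1)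
      (fun c ω => (Z1_bd h v c ω).2) (hdep1 v) (M1 v)
      (fun c ω => Z1_mean h ht0 ht1 hκ v c ω) ε hε
    have h2 := chern hcur.1 (Z2 ev A w t d v)
      (fun c ω => sum_nonneg fun e _ => wN_nonneg h (by linarith) hd ω c e)
      (fun c ω => wN_sum_le h ht0 (by linarith) hd ω c v) (hdep2 v) (M2 v)
      (fun c ω => Z2_mean h ht0 (by linarith) hd hκ hκr hη v c ω) ε hε
    linarith
  -- the local lemma
  have hlll := lll_loc (N := N) (D := D) hcur.2
    (fun p : Fin m × (ι ⊕ Finset V) => loc ev p.2) h.self h.symm h.cardN 3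
    (fun v ω => B v (fun c i => ω (c, i))) ?_ (2 * Real.exp (-(ε ^ 2 * m / 2)))
    (by positivity) ?_ ?_
  · obtain ⟨ω, hω⟩ := hlll
    refine ⟨fun c i => ω (c, i), fun v => ?_⟩
    have h1 := hω v
    rw [hB] at h1
    push Not at h1
    obtain ⟨h2, h3⟩ := h1
    constructor
    · refine le_trans ?_ (h2.trans (Z1_sum_le _ v))
      rw [hM1, sum_sub_distrib, ← mul_sum]
      simp
      linarith
    · refine le_trans ?_ h3
      rw [hM2, ← mul_sum]
  · intro v ω ω' hh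
    have hag : ∀ c : Fin m, Agree N ev v 3 (fun i => ω (c, i)) (fun i => ω' (c, i)) := by
      intro c i h1 h2
      exact hh (c, i) ((mem_sup _ _ _).2 ⟨h1, h2⟩)
    have e1 : ∀ c, Z1 ev A w v c (fun c i => ω (c, i)) = Z1 ev A w v c (fun c i => ω' (c, i)) := by
      intro c
      unfold Z1
      refine sum_congr rfl fun e he => ind_congr ?_
      rw [mem_filter] at he
      have e2 : ∀ c', e ∈ Pk A w (fun c i => ω (c, i)) c' ↔ e ∈ Pk A w (fun c i => ω' (c, i)) c' :=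
        fun c' => iso_congr h (hag c') c' he.2
      rw [e2 c]
      refine and_congr_right fun _ => forall_congr' fun c' => forall_congr' fun _ => ?_
      rw [e2 c']
    have e3 : ∀ c, Z2 ev A w t d v c (fun c i => ω (c, i)) =
        Z2 ev A w t d v c (fun c i => ω' (c, i)) := by
      intro c
      unfold Z2
      refine sum_congr rfl fun e he => ?_
      rw [mem_filter] at he
      exact wn_congr h (hag c) c he.2
    change B v _ = B v _
    rw [hB]
    simp only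
    simp_rw [e1, e3]
  · intro v
    have h1 := EE_curry (fun c => cmu A w t c)
      (fun ω : Fin m × (ι ⊕ Finset V) → Bool => ind (B v (fun c i => ω (c, i))))
    have h2 := hP v
    unfold PP at h2 ⊢
    rw [h1]
    exact h2
  · calc 4 * (2 * Real.exp (-(ε ^ 2 * m / 2))) * (D : ℝ) ^ (2 * 3)
        = 8 * Real.exp (-(ε ^ 2 * m / 2)) * (D : ℝ) ^ 6 := by ring
      _ ≤ 1 := hL

end

end K3h83.CI
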