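import Mathlib

/-!
# Finite product probability spaces with arbitrary weights
-/

set_option autoImplicit false
set_option linter.unusedSectionVars false

namespace K3h83.CI

open Finset

section PM
variable {I α : Type} [Fintype I] [DecidableEq I] [Fintype α]

/-- probability weights on each coordinate -/
structure Pr (μ : I → α → ℝ) : Prop where
  nonneg : ∀ i a, 0 ≤ μ i a
  sum_one : ∀ i, ∑ a, μ i a = 1

/-- weight of an outcome -/
noncomputable def PW (μ : I → α → ℝ) (ω : I → α) : ℝ := ∏ i, μ i (ω i)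

/-- expectation -/
noncomputable def EE (μ : I → α → ℝ) (F : (I → α) → ℝ) : ℝ := ∑ ω, PW μ ω * F ω

open Classical in
/-- indicator -/
noncomputable def ind (A : Prop) : ℝ := if A then 1 else 0

/-- probability -/
noncomputable def PP (μ : I → α → ℝ) (A : (I → α) → Prop) : ℝ := EE μ (fun ω => ind (A ω))

theorem ind_nonneg (A : Prop) : 0 ≤ ind A := by unfold ind; split_ifs <;> norm_num
theorem ind_le_one (A : Prop) : ind A ≤ 1 := by unfold ind; split_ifs <;> norm_num
theorem ind_true {A : Prop} (h : A) : ind A = 1 := by unfold ind; rw [if_pos h]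
theorem ind_false {A : Prop} (h : ¬ A) : ind A = 0 := by unfold ind; rw [if_neg h]
theorem ind_mono {A B : Prop} (h : A → B) : ind A ≤ ind B := by
  by_cases hA : A
  · rw [ind_true hA, ind_true (h hA)]
  · rw [ind_false hA]; exact ind_nonneg B
theorem ind_and (A B : Prop) : ind (A ∧ B) = ind A * ind B := by
  by_cases hA : A <;> by_cases hB : B <;> simp [ind, hA, hB]
theorem ind_not (A : Prop) : ind (¬ A) = 1 - ind A := by
  by_cases hA : A <;> simp [ind, hA]
theorem ind_congr {A B : Prop} (h : A ↔ B) : ind A = ind B := by rw [propext h]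
theorem ind_sq (A : Prop) : ind A * ind A = ind A := by
  by_cases hA : A <;> simp [ind, hA]

theorem PW_nonneg {μ : I → α → ℝ} (h : Pr μ) (ω : I → α) : 0 ≤ PW μ ω :=
  prod_nonneg fun i _ => h.nonneg i _

/-- the product formula -/
theorem EE_prod (μ : I → α → ℝ) (g : I → α → ℝ) :
    EE μ (fun ω => ∏ i, g i (ω i)) = ∏ i, ∑ a, μ i a * g i a := by
  have h := Finset.prod_univ_sum (fun _ : I => (Finset.univ : Finset α))
    (fun i a => μ i a * g i a)
  rw [Fintype.piFinset_univ] at h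
  rw [h]
  unfold EE PW
  refine sum_congr rfl fun ω _ => ?_
  rw [prod_mul_distrib]

theorem EE_one {μ : I → α → ℝ} (h : Pr μ) : EE μ (fun _ => 1) = 1 := by
  have := EE_prod μ (fun _ _ => 1)
  simp only [prod_const_one, mul_one] at this
  rw [this]
  exact prod_eq_one fun i _ => h.sum_one i

theorem EE_add (μ : I → α → ℝ) (F G : (I → α) → ℝ) :
    EE μ (fun ω => F ω + G ω) = EE μ F + EE μ G := by
  unfold EE
  rw [← sum_add_distrib]
  exact sum_congr rfl fun ω _ => by ring

theorem EE_sub (μ : I → α → ℝ) (F G : (I → α) → ℝ) :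
    EE μ (fun ω => F ω - G ω) = EE μ F - EE μ G := by
  unfold EE
  rw [← sum_sub_distrib]
  exact sum_congr rfl fun ω _ => by ring

theorem EE_mul (μ : I → α → ℝ) (c : ℝ) (F : (I → α) → ℝ) :
    EE μ (fun ω => c * F ω) = c * EE μ F := by
  unfold EE
  rw [mul_sum]
  exact sum_congr rfl fun ω _ => by ring

theorem EE_const {μ : I → α → ℝ} (h : Pr μ) (c : ℝ) : EE μ (fun _ => c) = c := by
  have := EE_mul μ c (fun _ => 1)
  simp only [mul_one] at this
  rw [this, EE_one h, mul_one]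

theorem EE_sum {κ : Type} (s : Finset κ) (μ : I → α → ℝ) (F : κ → (I → α) → ℝ) :
    EE μ (fun ω => ∑ k ∈ s, F k ω) = ∑ k ∈ s, EE μ (F k) := by
  unfold EE
  rw [sum_comm]
  exact sum_congr rfl fun ω _ => by rw [mul_sum]

theorem EE_mono {μ : I → α → ℝ} (h : Pr μ) {F G : (I → α) → ℝ} (hFG : ∀ ω, F ω ≤ G ω) :
    EE μ F ≤ EE μ G :=
  sum_le_sum fun ω _ => mul_le_mul_of_nonneg_left (hFG ω) (PW_nonneg h ω)

theorem EE_nonneg {μ : I → α → ℝ} (h : Pr μ) {F : (I → α) → ℝ} (hF : ∀ ω, 0 ≤ F ω) :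
    0 ≤ EE μ F :=
  sum_nonneg fun ω _ => mul_nonneg (PW_nonneg h ω) (hF ω)

theorem PP_nonneg {μ : I → α → ℝ} (h : Pr μ) (A : (I → α) → Prop) : 0 ≤ PP μ A :=
  EE_nonneg h fun _ => ind_nonneg _

theorem PP_le_one {μ : I → α → ℝ} (h : Pr μ) (A : (I → α) → Prop) : PP μ A ≤ 1 := by
  unfold PP
  calc _ ≤ EE μ (fun _ => 1) := EE_mono h fun _ => ind_le_one _
    _ = 1 := EE_one h

theorem PP_mono {μ : I → α → ℝ} (h : Pr μ) {A B : (I → α) → Prop} (hAB : ∀ ω, A ω → B ω) :
    PP μ A ≤ PP μ B := EE_mono h fun ω => ind_mono (hAB ω)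

theorem PP_congr (μ : I → α → ℝ) {A B : (I → α) → Prop} (hAB : ∀ ω, A ω ↔ B ω) :
    PP μ A = PP μ B := by
  unfold PP
  congr 1
  funext ω
  exact ind_congr (hAB ω)

theorem PP_not {μ : I → α → ℝ} (h : Pr μ) (A : (I → α) → Prop) :
    PP μ (fun ω => ¬ A ω) = 1 - PP μ A := by
  unfold PP
  simp_rw [ind_not]
  rw [EE_sub, EE_one h]

theorem PP_true {μ : I → α → ℝ} (h : Pr μ) {A : (I → α) → Prop} (hA : ∀ ω, A ω) :
    PP μ A = 1 := by
  unfold PP
  simp_rw [fun ω => ind_true (hA ω)]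
  exact EE_one h

theorem PP_or_le {μ : I → α → ℝ} (h : Pr μ) (A B : (I → α) → Prop) :
    PP μ (fun ω => A ω ∨ B ω) ≤ PP μ A + PP μ B := by
  unfold PP
  rw [← EE_add]
  refine EE_mono h fun ω => ?_
  by_cases hA : A ω <;> by_cases hB : B ω <;> simp [ind, hA, hB]

theorem PP_exists_le {μ : I → α → ℝ} (h : Pr μ) {κ : Type} (s : Finset κ)
    (A : κ → (I → α) → Prop) :
    PP μ (fun ω => ∃ k ∈ s, A k ω) ≤ ∑ k ∈ s, PP μ (A k) := by
  unfold PP
  rw [← EE_sum]
  refine EE_mono h fun ω => ?_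
  by_cases hA : ∃ k ∈ s, A k ω
  · rw [ind_true hA]
    obtain ⟨k, hk, hkA⟩ := hA
    calc (1 : ℝ) = ind (A k ω) := (ind_true hkA).symm
      _ ≤ _ := single_le_sum (f := fun k => ind (A k ω)) (fun i _ => ind_nonneg _) hk
  · rw [ind_false hA]
    exact sum_nonneg fun _ _ => ind_nonneg _

/-- Markov's inequality -/
theorem PP_markov {μ : I → α → ℝ} (h : Pr μ) {F : (I → α) → ℝ} (hF : ∀ ω, 0 ≤ F ω) {c : ℝ}
    (hc : 0 < c) : PP μ (fun ω => c ≤ F ω) ≤ EE μ F / c := by
  rw [le_div_iff₀ hc, mul_comm]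
  unfold PP
  rw [← EE_mul]
  refine EE_mono h fun ω => ?_
  by_cases hA : c ≤ F ω
  · rw [ind_true hA, mul_one]; exact hA
  · rw [ind_false hA, mul_zero]; exact hF ω

/-- `F` depends only on the coordinates in `S` -/
def Dep {β : Type} (F : (I → α) → β) (S : Finset I) : Prop :=
  ∀ ω ω' : I → α, (∀ i ∈ S, ω i = ω' i) → F ω = F ω'

omit [Fintype I] [DecidableEq I] [Fintype α] in
theorem Dep.mono {β : Type} {F : (I → α) → β} {S T : Finset I} (h : Dep F S) (hST : S ⊆ T) :
    Dep F T := fun ω ω' hh => h ω ω' fun i hi => hh i (hST hi)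

omit [Fintype I] [DecidableEq I] [Fintype α] in
theorem Dep.comp {β γ : Type} {F : (I → α) → β} {S : Finset I} (h : Dep F S) (g : β → γ) :
    Dep (fun ω => g (F ω)) S := fun ω ω' hh => by
  change g (F ω) = g (F ω')
  rw [h ω ω' hh]

omit [Fintype I] [DecidableEq I] [Fintype α] in
theorem Dep.const {β : Type} (b : β) (S : Finset I) : Dep (fun _ : I → α => b) S :=
  fun _ _ _ => rfl

omit [Fintype I] [DecidableEq I] [Fintype α] in
theorem Dep.comp₂ {β γ δ : Type} {F : (I → α) → β} {G : (I → α) → γ} {S : Finset I}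
    (h : Dep F S) (h' : Dep G S) (g : β → γ → δ) :
    Dep (fun ω => g (F ω) (G ω)) S := fun ω ω' hh => by
  change g (F ω) (G ω) = g (F ω') (G ω')
  rw [h ω ω' hh, h' ω ω' hh]

omit [Fintype I] [DecidableEq I] [Fintype α] in
theorem Dep.sum {κ : Type} (s : Finset κ) {F : κ → (I → α) → ℝ} {S : Finset I}
    (h : ∀ k ∈ s, Dep (F k) S) : Dep (fun ω => ∑ k ∈ s, F k ω) S := fun ω ω' hh =>
  sum_congr rfl fun k hk => h k hk ω ω' hh

omit [Fintype I] [DecidableEq I] [Fintype α] in
theorem Dep.prod {κ : Type} (s : Finset κ) {F : κ → (I → α) → ℝ} {S : Finset I}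
    (h : ∀ k ∈ s, Dep (F k) S) : Dep (fun ω => ∏ k ∈ s, F k ω) S := fun ω ω' hh =>
  prod_congr rfl fun k hk => h k hk ω ω' hh

omit [Fintype I] [DecidableEq I] [Fintype α] in
theorem Dep.forall {κ : Type} {F : κ → (I → α) → Prop} {S : Finset I}
    (h : ∀ k, Dep (F k) S) : Dep (fun ω => ∀ k, F k ω) S := fun ω ω' hh => by
  apply propext
  exact forall_congr' fun k => by rw [h k ω ω' hh]

/-- swap the coordinates outside `S` -/
def mix (S : Finset I) (ω ω' : I → α) : I → α := fun i => if i ∈ S then ω i else ω' i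

theorem PW_mix (μ : I → α → ℝ) (S : Finset I) (ω ω' : I → α) :
    PW μ (mix S ω ω') * PW μ (mix S ω' ω) = PW μ ω * PW μ ω' := by
  unfold PW mix
  rw [← prod_mul_distrib, ← prod_mul_distrib]
  refine prod_congr rfl fun i _ => ?_
  split_ifs
  · rfl
  · ring

theorem mix_mix (S : Finset I) (ω ω' : I → α) :
    mix S (mix S ω ω') (mix S ω' ω) = ω := by
  funext i
  unfold mix
  split_ifs <;> rfl

theorem EE_mix (μ : I → α → ℝ) (S : Finset I) (F : (I → α) → (I → α) → ℝ) :
    ∑ ω, ∑ ω', PW μ ω * PW μ ω' * F (mix S ω ω') (mix S ω' ω) =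
      ∑ ω, ∑ ω', PW μ ω * PW μ ω' * F ω ω' := by
  rw [← sum_product', ← sum_product']
  refine sum_nbij' (fun p => (mix S p.1 p.2, mix S p.2 p.1))
    (fun p => (mix S p.1 p.2, mix S p.2 p.1)) ?_ ?_ ?_ ?_ ?_
  · intro p _; exact mem_univ _
  · intro p _; exact mem_univ _
  · intro p _
    exact Prod.ext (mix_mix S p.1 p.2) (mix_mix S p.2 p.1)
  · intro p _
    exact Prod.ext (mix_mix S p.1 p.2) (mix_mix S p.2 p.1)
  · intro p _
    change PW μ p.1 * PW μ p.2 * _ = PW μ (mix S p.1 p.2) * PW μ (mix S p.2 p.1) * _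
    rw [PW_mix]

/-- independence -/
theorem EE_indep {μ : I → α → ℝ} (h : Pr μ) {F G : (I → α) → ℝ} {S T : Finset I}
    (hF : Dep F S) (hG : Dep G T) (hST : Disjoint S T) :
    EE μ (fun ω => F ω * G ω) = EE μ F * EE μ G := by
  have h1 : EE μ F * EE μ G = ∑ ω, ∑ ω', PW μ ω * PW μ ω' * (F ω * G ω') := by
    unfold EE
    rw [sum_mul_sum]
    refine sum_congr rfl fun ω _ => sum_congr rfl fun ω' _ => by ring
  have h2 : ∀ ω ω' : I → α, F ω * G ω' = (fun a (_ : I → α) => F a * G a) (mix S ω ω')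
      (mix S ω' ω) := by
    intro ω ω'
    have e1 : F ω = F (mix S ω ω') := hF _ _ fun i hi => by simp [mix, hi]
    have e2 : G ω' = G (mix S ω ω') := hG _ _ fun i hi => by
      have : i ∉ S := fun hS => (disjoint_left.1 hST) hS hi
      simp [mix, this]
    rw [e1, e2]
  have h5 : ∑ ω, ∑ ω', PW μ ω * PW μ ω' * (F ω * G ω') =
      ∑ ω, ∑ ω', PW μ ω * PW μ ω' * (fun a (_ : I → α) => F a * G a) (mix S ω ω')
      (mix S ω' ω) :=
    sum_congr rfl fun ω _ => sum_congr rfl fun ω' _ => by rw [h2 ω ω']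
  rw [h1, h5, EE_mix μ S (fun a _ => F a * G a)]
  unfold EE
  refine sum_congr rfl fun ω _ => ?_
  have h3 : ∑ ω', PW μ ω' = 1 := by
    have := EE_one h
    unfold EE at this
    simpa using this
  rw [← sum_mul, ← mul_sum, h3, mul_one]

theorem PP_indep {μ : I → α → ℝ} (h : Pr μ) {A B : (I → α) → Prop} {S T : Finset I}
    (hA : Dep A S) (hB : Dep B T) (hST : Disjoint S T) :
    PP μ (fun ω => A ω ∧ B ω) = PP μ A * PP μ B := by
  unfold PP
  simp_rw [ind_and]
  exact EE_indep h (hA.comp ind) (hB.comp ind) hST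

/-- marginal of one coordinate -/
theorem EE_coord {μ : I → α → ℝ} (h : Pr μ) (k : I) (g : α → ℝ) :
    EE μ (fun ω => g (ω k)) = ∑ a, μ k a * g a := by
  have e : (fun ω : I → α => g (ω k)) =
      fun ω => ∏ i, (if i = k then g (ω i) else 1) := by
    funext ω
    rw [prod_ite_eq' univ k (fun i => g (ω i))]
    simp
  rw [e, EE_prod μ (fun i a => if i = k then g a else 1)]
  rw [prod_eq_single k]
  · simp
  · intro i _ hi
    simp [hi, h.sum_one i]
  · intro hk
    exact absurd (mem_univ k) hk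

/-- integrating out one coordinate -/
theorem EE_update {μ : I → α → ℝ} (h : Pr μ) (k : I) (F : (I → α) → ℝ) :
    EE μ F = EE μ (fun ω => ∑ a, μ k a * F (Function.update ω k a)) := by
  have h3 : ∑ ω', PW μ ω' = 1 := by
    have := EE_one h
    unfold EE at this
    simpa using this
  have h1 : EE μ F = ∑ ω, ∑ ω', PW μ ω * PW μ ω' * (fun a (_ : I → α) => F a) ω ω' := by
    unfold EE
    refine sum_congr rfl fun ω _ => ?_
    rw [← sum_mul, ← mul_sum, h3, mul_one]
  rw [h1, ← EE_mix μ {k}, sum_comm]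
  unfold EE
  refine sum_congr rfl fun ω _ => ?_
  have h4 := EE_coord h k (fun a => F (Function.update ω k a))
  change _ = PW μ ω * (∑ a, μ k a * F (Function.update ω k a))
  rw [← h4]
  unfold EE
  rw [mul_sum]
  refine sum_congr rfl fun ω' _ => ?_
  have e : mix {k} ω' ω = Function.update ω k (ω' k) := by
    funext i
    unfold mix
    by_cases hi : i = k
    · subst hi; simp
    · simp [hi]
  change PW μ ω' * PW μ ω * F (mix {k} ω' ω) = _
  rw [e]
  ring

end PM

/-- regrouping the coordinates -/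
theorem EE_curry {J I α : Type} [Fintype J] [DecidableEq J] [Fintype I] [DecidableEq I]
    [Fintype α] (μ : J → I → α → ℝ) (F : (J × I → α) → ℝ) :
    EE (fun p : J × I => μ p.1 p.2) F =
      EE (fun j : J => PW (μ j)) (fun ω : J → I → α => F (fun p => ω p.1 p.2)) := by
  unfold EE
  refine Fintype.sum_equiv (Equiv.curry J I α) _ _ fun ω => ?_
  congr 1
  unfold PW
  rw [Fintype.prod_prod_type]
  rfl

theorem Pr_curry {J I α : Type} [Fintype J] [DecidableEq J] [Fintype I] [DecidableEq I]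
    [Fintype α] {μ : J → I → α → ℝ} (h : ∀ j, Pr (μ j)) :
    Pr (fun j : J => PW (μ j)) ∧ Pr (fun p : J × I => μ p.1 p.2) := by
  refine ⟨⟨fun j a => PW_nonneg (h j) a, fun j => ?_⟩, ⟨fun p a => (h p.1).nonneg _ _,
    fun p => (h p.1).sum_one _⟩⟩
  have := EE_one (h j)
  unfold EE at this
  simpa using this

end K3h83.CI
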