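import Pool.Agent.K3h83.CI.Seq

/-!
# Local random matchings of a multigraph of bounded simple degree
-/

set_option autoImplicit false
set_option linter.unusedSectionVars false

namespace K3h83.CI

open Finset

/-- the support graph -/
def GG {V : Type} [Fintype V] [DecidableEq V] (mm : V → V → ℕ) (u : V) : Finset V :=
  univ.filter (fun v => v = u ∨ 0 < mm u v)

theorem sum_PP_one {V : Type} [Fintype V] [DecidableEq V] {I α : Type} [Fintype I]
    [DecidableEq I] [Fintype α] {μ : I → α → ℝ} (hμ : Pr μ) (g : (I → α) → V) :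
    ∑ v, PP μ (fun ω => g ω = v) = 1 := by
  unfold PP
  rw [← EE_sum, ← EE_one hμ]
  congr 1
  funext ω
  rw [sum_eq_single (g ω)]
  · exact ind_true rfl
  · intro v _ hv
    exact ind_false hv.symm
  · intro hx
    exact absurd (mem_univ _) hx

/-- **local random matchings** -/
theorem RM (Δ : ℕ) (θ : ℝ) (hθ : 0 < θ) (hθ1 : θ ≤ 1) :
    ∃ (R : ℕ) (p₀ : ℝ), 0 < p₀ ∧ p₀ ≤ 1 ∧ ∀ (V : Type) [Fintype V] [DecidableEq V] (t : ℕ)
      (mm : V → V → ℕ), 0 < t → (∀ u v, mm u v = mm v u) →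
      (∀ u, ∑ v ∈ univ.filter (fun v => v ≠ u), mm u v ≤ t) →
      (∀ u, (univ.filter (fun v => v ≠ u ∧ 0 < mm u v)).card ≤ Δ) →
      ∃ (I : Type) (_ : Fintype I) (_ : DecidableEq I) (n : ℕ) (μ : I → Fin (n + 2) → ℝ)
        (lo : I → Finset V) (h : (I → Fin (n + 2)) → V → V),
        Pr μ ∧ (∀ ω u, h ω (h ω u) = u) ∧ (∀ ω u, h ω u = u ∨ 0 < mm u (h ω u)) ∧
        (∀ u, Dep (fun ω => h ω u) (sup lo (ball (GG mm) R u))) ∧
        (∀ u v, u ≠ v → 2 / 3 * (1 - θ) * ((mm u v : ℝ) / t) ≤ PP μ (fun ω => h ω u = v)) ∧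
        (∀ u v, u ≠ v → 0 < mm u v → p₀ ≤ PP μ (fun ω => h ω u = v)) ∧
        (∀ u, 1 - 2 / 3 * ((∑ v ∈ univ.filter (fun v => v ≠ u), (mm u v : ℝ)) / t) - θ ≤
          PP μ (fun ω => h ω u = u)) ∧
        (∀ T : Finset V, T.card ≤ 3 → p₀ ≤ PP μ (fun ω => ∀ x ∈ T, h ω x = x)) := by
  classical
  -- constants
  obtain ⟨d, hd⟩ : ∃ d : ℕ, (4 * Δ / θ : ℝ) + 1 ≤ d := exists_nat_ge _
  have hd1 : (1 : ℝ) ≤ d := le_trans (by
    have : (0 : ℝ) ≤ 4 * Δ / θ := by positivity
    linarith) hd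
  have hd0 : (0 : ℝ) < d := by linarith
  set e : ℕ := d + Δ with he
  have he0 : (0 : ℝ) < e := by rw [he]; push_cast; positivity
  have hde : 1 - θ / 4 ≤ (d : ℝ) / e := by
    rw [le_div_iff₀ he0, he]
    push_cast
    have h1 : 4 * (Δ : ℝ) ≤ d * θ := by
      have : 4 * (Δ : ℝ) / θ ≤ d := by linarith
      rwa [div_le_iff₀ hθ] at this
    nlinarith [(Nat.cast_nonneg Δ : (0 : ℝ) ≤ Δ)]
  have hΔe : (Δ : ℝ) / e ≤ θ / 4 := by
    have : (Δ : ℝ) / e = 1 - d / e := by
      rw [eq_sub_iff_add_eq, ← add_div, div_eq_one_iff_eq he0.ne', he]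
      push_cast
      ring
    linarith
  set K : ℕ := e * 3 with hK
  have hK0 : (0 : ℝ) < K := by rw [hK]; push_cast; positivity
  obtain ⟨r, hr⟩ : ∃ r : ℕ, (32 * K / θ : ℝ) ≤ r := exists_nat_ge _
  set η : ℝ := θ / (4 * K) with hη
  have hη0 : 0 < η := by positivity
  have hηr : 4 * (1 / ((r : ℝ) + 1) + 1 / ((r : ℝ) + 2)) ≤ η := by
    have h1 : 1 / ((r : ℝ) + 1) ≤ θ / (32 * K) := by
      rw [div_le_div_iff₀ (by positivity) (by positivity)]
      rw [div_le_iff₀ hθ] at hr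
      nlinarith
    have h2 : 1 / ((r : ℝ) + 2) ≤ 1 / ((r : ℝ) + 1) :=
      one_div_le_one_div_of_le (by positivity) (by linarith)
    have h3 : η = 8 * (θ / (32 * K)) := by rw [hη]; field_simp; ring
    linarith
  have hKη : (K : ℝ) * η = θ / 4 := by rw [hη]; field_simp
  have hη1 : η ≤ 1 := by
    have : (1 : ℝ) ≤ K := by
      have : 0 < K := by exact_mod_cast hK0
      exact_mod_cast this
    nlinarith
  have hpow : 1 - θ / 4 ≤ (1 - η) ^ K := by
    have := one_add_mul_le_pow (a := -η) (by linarith) K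
    have e1 : (1 : ℝ) + -η = 1 - η := by ring
    rw [e1] at this
    nlinarith
  refine ⟨K * (r + 2) + 1, min (1 / (12 * e)) ((θ / 8) ^ 3),
    lt_min (by positivity) (by positivity), (min_le_right _ _).trans
      (pow_le_one₀ (by positivity) (by linarith)), ?_⟩
  intro V _ _ t mm ht hmm hrow hΔ
  have ht0 : (0 : ℝ) < t := by exact_mod_cast ht
  set S : V → V → ℕ := fun u v => ⌈(d * mm u v : ℝ) / t⌉₊ with hS
  have hSle : ∀ u v, (d : ℝ) * mm u v / t ≤ S u v := fun u v => Nat.le_ceil _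
  have hSpos : ∀ u v, 0 < S u v → 0 < mm u v := by
    intro u v h
    by_contra h0
    have h1 : mm u v = 0 := by omega
    simp only [hS, h1] at h
    simp at h
  have hSpos' : ∀ u v, 0 < mm u v → 1 ≤ S u v := by
    intro u v h
    have h1 : (0 : ℝ) < mm u v := by exact_mod_cast h
    exact Nat.one_le_iff_ne_zero.2 (Nat.ceil_pos.2 (by positivity)).ne'
  have hSsum : ∀ u, (∑ v ∈ univ.filter (fun v => v ≠ u), (S u v : ℝ)) ≤
      d * ((∑ v ∈ univ.filter (fun v => v ≠ u), (mm u v : ℝ)) / t) + Δ := by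
    intro u
    have h1 : ∀ v ∈ univ.filter (fun v => v ≠ u), (S u v : ℝ) ≤
        d * (mm u v : ℝ) / t + (if 0 < mm u v then 1 else 0) := by
      intro v _
      by_cases h : 0 < mm u v
      · rw [if_pos h]
        exact (Nat.ceil_lt_add_one (by positivity)).le
      · have h0 : mm u v = 0 := by omega
        rw [if_neg h]
        simp only [hS, h0]
        simp
    refine (sum_le_sum h1).trans ?_
    rw [sum_add_distrib]
    have h2 : ∑ v ∈ univ.filter (fun v => v ≠ u), (if 0 < mm u v then (1 : ℝ) else 0) ≤ Δ := by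
      rw [← sum_filter, sum_const, nsmul_eq_mul, mul_one, filter_filter]
      exact_mod_cast hΔ u
    have h3 : ∑ v ∈ univ.filter (fun v => v ≠ u), (d : ℝ) * (mm u v : ℝ) / t =
        d * ((∑ v ∈ univ.filter (fun v => v ≠ u), (mm u v : ℝ)) / t) := by
      rw [← sum_div, ← mul_sum]
      ring
    linarith
  have hmmt : ∀ u, (∑ v ∈ univ.filter (fun v => v ≠ u), (mm u v : ℝ)) / t ≤ 1 := by
    intro u
    rw [div_le_one ht0]
    exact_mod_cast hrow u
  obtain ⟨f, hf, hfc⟩ := invols S (fun u v => by simp only [hS, hmm u v]) e (fun u => by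
    have h1 := hSsum u
    have h2 := hmmt u
    have h3 : (∑ v ∈ univ.filter (fun v => v ≠ u), (S u v : ℝ)) ≤ e := by
      rw [he]
      push_cast
      nlinarith
    exact_mod_cast h3)
  have hfG : ∀ i x, f i x ∈ GG mm x := by
    intro i x
    unfold GG
    rw [mem_filter]
    refine ⟨mem_univ _, ?_⟩
    by_cases h : f i x = x
    · exact Or.inl h
    · right
      have h1 := hfc x (f i x) (Ne.symm h)
      have h2 : 0 < (univ.filter (fun j => f j x = f i x)).card :=
        card_pos.2 ⟨i, by simp⟩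
      exact hSpos _ _ (by omega)
  have hGs : ∀ x : V, x ∈ GG mm x := fun x => by simp [GG]
  have hc : ∀ u v, u ≠ v → ∑ i ∈ univ.filter (fun i : Fin (e * 3) => i.val < e * 3),
      ind (f i u = v) = 2 * S u v := by
    intro u v huv
    have h1 : univ.filter (fun i : Fin (e * 3) => i.val < e * 3) = univ := by
      ext i; simp
    rw [h1]
    have h2 := hfc u v huv
    have h3 : ∀ i, ind (f i u = v) = if f i u = v then (1 : ℝ) else 0 := by
      intro i
      unfold ind
      congr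
    rw [sum_congr rfl fun i _ => h3 i, sum_boole, h2]
    push_cast
    ring
  have hθ8 : (0 : ℝ) ≤ θ / 8 := by positivity
  have hθ8' : θ / 8 ≤ 1 := by linarith
  have hμ := smu_pr (e * 3) r V hθ8 hθ8'
  have hprob : ∀ u v, u ≠ v →
      PP (smu (e * 3) r V (θ / 8)) (fun ω => Hs f r (e * 3) ω u = v) ≤ 2 * S u v / (3 * e) ∧
      (1 - θ / 4) * (2 * S u v / (3 * e)) ≤
        PP (smu (e * 3) r V (θ / 8)) (fun ω => Hs f r (e * 3) ω u = v) := by
    intro u v huv
    obtain ⟨h1, h2⟩ := Hs_prob (n := r) (r := r) hθ8 hθ8' hf hηr hη1 huv (e * 3) le_rfl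
    rw [hc u v huv] at h1 h2
    push_cast at h1 h2
    constructor
    · rw [le_div_iff₀ (by positivity)]
      linarith
    · have h3 : (1 - θ / 4) * (2 * (S u v : ℝ)) ≤ (1 - η) ^ (e * 3) * (2 * S u v) :=
        mul_le_mul_of_nonneg_right hpow (by positivity)
      rw [← mul_div_assoc, div_le_iff₀ (by positivity)]
      linarith
  have hlow : ∀ u v, u ≠ v → (1 - θ / 4) * ((1 - θ / 4) * (2 * S u v / (3 * e))) ≤
      PP (smu (e * 3) r V (θ / 8)) (fun ω => Ht f r ω u = v) := by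
    intro u v huv
    rw [Ht_prob hθ8 hθ8' huv]
    have h1 := (hprob u v huv).2
    have h2 : 1 - θ / 4 ≤ (1 - θ / 8) ^ 2 := by nlinarith
    have h3 : 0 ≤ (1 - θ / 4) * (2 * (S u v : ℝ) / (3 * e)) := by
      have : 0 ≤ 1 - θ / 4 := by linarith
      positivity
    exact mul_le_mul h2 h1 h3 (by positivity)
  refine ⟨IX (e * 3) V, inferInstance, inferInstance, r, smu (e * 3) r V (θ / 8), locS,
    fun ω u => Ht f r ω u, hμ, fun ω u => Ht_inv hf ω u, fun ω u => ?_,
    fun u => Ht_local hGs hfG u, fun u v huv => ?_, fun u v huv hpos => ?_, fun u => ?_,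
    fun T hT => ?_⟩
  · rcases Ht_cases (f := f) (r := r) ω u with h | h
    · exact Or.inl h
    · have h1 := Hs_mem (r := r) hGs hfG (e * 3) ω u
      unfold GG at h1
      rw [mem_filter] at h1
      change Ht f r ω u = u ∨ 0 < mm u (Ht f r ω u)
      rcases h1.2 with h2 | h2
      · left; rw [h, h2]
      · right; rw [h]; exact h2
  · refine le_trans ?_ (hlow u v huv)
    have h1 := hSle u v
    have h2 : (d : ℝ) / e * ((mm u v : ℝ) / t) ≤ S u v / e := by
      rw [div_mul_div_comm, div_le_div_iff₀ (by positivity) he0]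
      rw [div_le_iff₀ ht0] at h1
      nlinarith
    have h3 : (1 - θ / 4) * ((mm u v : ℝ) / t) ≤ S u v / e :=
      (mul_le_mul_of_nonneg_right hde (by positivity)).trans h2
    have h4 : (2 : ℝ) * S u v / (3 * e) = 2 / 3 * (S u v / e) := by field_simp
    rw [h4]
    have h5 : 0 ≤ (mm u v : ℝ) / t := by positivity
    have h6 : (0 : ℝ) ≤ 1 - θ / 4 := by linarith
    have h7 : (1 - θ / 4) * ((1 - θ / 4) * (2 / 3 * ((1 - θ / 4) * ((mm u v : ℝ) / t)))) ≤
        (1 - θ / 4) * ((1 - θ / 4) * (2 / 3 * (S u v / e))) := by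
      apply mul_le_mul_of_nonneg_left _ h6
      apply mul_le_mul_of_nonneg_left _ h6
      linarith
    refine le_trans ?_ h7
    have h8 : 1 - θ ≤ (1 - θ / 4) * (1 - θ / 4) * (1 - θ / 4) := by
      have h9 : 1 - θ / 2 ≤ (1 - θ / 4) * (1 - θ / 4) := by
        have : (1 - θ / 4) * (1 - θ / 4) = 1 - θ / 2 + θ ^ 2 / 16 := by ring
        rw [this]
        have := sq_nonneg θ
        linarith
      have h10 : (1 - θ / 2) * (1 - θ / 4) ≤ (1 - θ / 4) * (1 - θ / 4) * (1 - θ / 4) :=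
        mul_le_mul_of_nonneg_right h9 h6
      have h12 : (1 - θ / 2) * (1 - θ / 4) = 1 - 3 * θ / 4 + θ ^ 2 / 8 := by ring
      have := sq_nonneg θ
      linarith
    have h11 := mul_le_mul_of_nonneg_right h8 h5
    have h13 : (1 - θ / 4) * ((1 - θ / 4) * (2 / 3 * ((1 - θ / 4) * ((mm u v : ℝ) / t)))) =
        2 / 3 * ((1 - θ / 4) * (1 - θ / 4) * (1 - θ / 4) * ((mm u v : ℝ) / t)) := by ring
    rw [h13]
    linarith
  · refine le_trans (min_le_left _ _) (le_trans ?_ (hlow u v huv))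
    have h1 : (1 : ℝ) ≤ S u v := by exact_mod_cast hSpos' u v hpos
    have h2 : (3 : ℝ) / 4 ≤ 1 - θ / 4 := by linarith
    have h3 : 2 / (3 * (e : ℝ)) ≤ 2 * S u v / (3 * e) := by
      apply div_le_div_of_nonneg_right _ (by positivity)
      linarith
    have h4 : 3 / 4 * (3 / 4 * (2 / (3 * (e : ℝ)))) ≤
        (1 - θ / 4) * ((1 - θ / 4) * (2 * S u v / (3 * e))) := by
      apply mul_le_mul h2 _ (by positivity) (by linarith)
      exact mul_le_mul h2 h3 (by positivity) (by linarith)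
    refine le_trans ?_ h4
    have : 3 / 4 * (3 / 4 * (2 / (3 * (e : ℝ)))) = 9 / 2 * (1 / (12 * e)) := by
      field_simp; ring
    rw [this]
    have : (0 : ℝ) < 1 / (12 * e) := by positivity
    linarith
  · have h1 := sum_PP_one hμ (fun ω => Ht f r ω u)
    rw [← sum_filter_add_sum_filter_not univ (fun v => v ≠ u)] at h1
    have h2 : ∑ v ∈ univ.filter (fun v => ¬ v ≠ u),
        PP (smu (e * 3) r V (θ / 8)) (fun ω => Ht f r ω u = v) =
        PP (smu (e * 3) r V (θ / 8)) (fun ω => Ht f r ω u = u) := by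
      have : univ.filter (fun v : V => ¬ v ≠ u) = {u} := by
        ext v; simp
      rw [this, sum_singleton]
    have h3 : ∑ v ∈ univ.filter (fun v => v ≠ u),
        PP (smu (e * 3) r V (θ / 8)) (fun ω => Ht f r ω u = v) ≤
        ∑ v ∈ univ.filter (fun v => v ≠ u), 2 * (S u v : ℝ) / (3 * e) := by
      refine sum_le_sum fun v hv => ?_
      rw [mem_filter] at hv
      rw [Ht_prob hθ8 hθ8' (Ne.symm hv.2)]
      have h4 := (hprob u v (Ne.symm hv.2)).1
      have h5 := PP_nonneg hμ (fun ω => Hs f r (e * 3) ω u = v)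
      have h6 : (1 - θ / 8) ^ 2 ≤ 1 := by nlinarith
      nlinarith
    have h7 : ∑ v ∈ univ.filter (fun v => v ≠ u), 2 * (S u v : ℝ) / (3 * e) =
        2 / 3 * ((∑ v ∈ univ.filter (fun v => v ≠ u), (S u v : ℝ)) / e) := by
      rw [sum_div, mul_sum]
      refine sum_congr rfl fun v _ => ?_
      field_simp
    have h8 := hSsum u
    have h9 := hmmt u
    set X := (∑ v ∈ univ.filter (fun v => v ≠ u), (mm u v : ℝ)) / t with hX
    have hX0 : 0 ≤ X := by
      rw [hX]
      apply div_nonneg _ ht0.le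
      exact sum_nonneg fun _ _ => Nat.cast_nonneg _
    have h10 : (∑ v ∈ univ.filter (fun v => v ≠ u), (S u v : ℝ)) / e ≤ X + θ / 4 := by
      have h11 : (∑ v ∈ univ.filter (fun v => v ≠ u), (S u v : ℝ)) / e ≤ (d * X + Δ) / e :=
        div_le_div_of_nonneg_right h8 he0.le
      have h12 : (d * X + Δ) / e = d / e * X + Δ / e := by ring
      have h13 : (d : ℝ) / e ≤ 1 := by
        rw [div_le_one he0, he]
        push_cast
        linarith [(Nat.cast_nonneg Δ : (0 : ℝ) ≤ Δ)]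
      have h14 : (d : ℝ) / e * X ≤ 1 * X := mul_le_mul_of_nonneg_right h13 hX0
      linarith
    rw [h2] at h1
    linarith
  · refine le_trans (min_le_right _ _) (le_trans ?_ (Ht_fix hθ8 hθ8' T))
    exact pow_le_pow_of_le_one hθ8 hθ8' hT

end K3h83.CI
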