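import Pool.Agent.K3h83.CI.MergeP
import Pool.Agent.K3h83.CI.Decomp

/-!
# Merging many involutions, and thinning
-/

set_option autoImplicit false
set_option linter.unusedSectionVars false

namespace K3h83.CI

open Finset

section
variable {V : Type} [Fintype V] [DecidableEq V]

/-- index type of the random bits -/
abbrev IX (K : ℕ) (V : Type) : Type := (Fin K × Bool × V) ⊕ V

/-- the distribution of the bits -/
noncomputable def smu (K n : ℕ) (V : Type) (θ : ℝ) : IX K V → Fin (n + 2) → ℝ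
  | Sum.inl (j, true, _), a =>
      if a = 0 then (j : ℝ) / (j + 1) else if a = 1 then 1 - (j : ℝ) / (j + 1) else 0
  | Sum.inl (_, false, _), _ => 1 / ((n : ℝ) + 2)
  | Sum.inr _, a => if a = 0 then 1 - θ else if a = 1 then θ else 0

theorem sum_two (n : ℕ) (p q : ℝ) :
    ∑ a : Fin (n + 2), (if a = 0 then p else if a = 1 then q else 0) = p + q := by
  rw [Fin.sum_univ_succ, Fin.sum_univ_succ]
  have h1 : ∀ i : Fin n, (if i.succ.succ = (0 : Fin (n + 2)) then p
      else if i.succ.succ = (1 : Fin (n + 2)) then q else 0) = 0 := by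
    intro i
    rw [if_neg (Fin.succ_ne_zero _), if_neg]
    rw [← Fin.succ_zero_eq_one]
    exact fun h => Fin.succ_ne_zero _ (Fin.succ_injective _ h)
  rw [sum_eq_zero fun i _ => h1 i]
  rw [if_pos rfl, Fin.succ_zero_eq_one, if_neg (by exact one_ne_zero), if_pos rfl]
  ring

theorem smu_pr (K n : ℕ) (V : Type) {θ : ℝ} (h0 : 0 ≤ θ) (h1 : θ ≤ 1) : Pr (smu K n V θ) := by
  have hj : ∀ j : Fin K, 0 ≤ (j : ℝ) / (j + 1) ∧ (j : ℝ) / (j + 1) ≤ 1 := fun j =>
    ⟨by positivity, by rw [div_le_one (by positivity)]; linarith⟩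
  constructor
  · rintro (⟨j, _ | _, x⟩ | x) a
    · simp only [smu]; positivity
    · simp only [smu]
      split_ifs
      · exact (hj j).1
      · linarith [(hj j).2]
      · exact le_refl _
    · simp only [smu]
      split_ifs
      · linarith
      · exact h0
      · exact le_refl _
  · rintro (⟨j, _ | _, x⟩ | x)
    · simp only [smu]
      rw [sum_const, card_univ, Fintype.card_fin, nsmul_eq_mul]
      push_cast
      field_simp
    · simp only [smu]
      rw [sum_two]
      ring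
    · simp only [smu]
      rw [sum_two]
      ring

/-- merging the first `j` involutions -/
noncomputable def Hs {K n : ℕ} (f : Fin K → V → V) (r : ℕ) :
    ℕ → (IX K V → Fin (n + 2)) → V → V
  | 0, _ => id
  | j + 1, ω => if hj : j < K then
      mrg (Hs f r j ω) (f ⟨j, hj⟩) (keyOf fun x => (ω (Sum.inl (⟨j, hj⟩, false, x))).val)
        (fun x => decide (ω (Sum.inl (⟨j, hj⟩, true, x)) = 0)) (r + 1)
    else Hs f r j ω

variable {K n : ℕ} {f : Fin K → V → V} {r : ℕ}

theorem Hs_succ {j : ℕ} (hj : j < K) (ω : IX K V → Fin (n + 2)) :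
    Hs f r (j + 1) ω = mrg (Hs f r j ω) (f ⟨j, hj⟩)
      (keyOf fun x => (ω (Sum.inl (⟨j, hj⟩, false, x))).val)
      (fun x => decide (ω (Sum.inl (⟨j, hj⟩, true, x)) = 0)) (r + 1) := by
  rw [Hs, dif_pos hj]

theorem Hs_inv (hf : ∀ i x, f i (f i x) = x) (j : ℕ) (ω : IX K V → Fin (n + 2)) (x : V) :
    Hs f r j ω (Hs f r j ω x) = x := by
  induction j generalizing x with
  | zero => rfl
  | succ j ih =>
    rw [Hs]
    split_ifs with hj
    · exact mrg_mrg ih (hf _) _ _ _ _
    · exact ih x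

theorem Hs_mem {G : V → Finset V} (hG : ∀ x, x ∈ G x) (hfG : ∀ i x, f i x ∈ G x) (j : ℕ)
    (ω : IX K V → Fin (n + 2)) (x : V) : Hs f r j ω x ∈ G x := by
  induction j generalizing x with
  | zero => exact hG x
  | succ j ih =>
    rw [Hs]
    split_ifs with hj
    · have := mrg_mem (Hs f r j ω) (f ⟨j, hj⟩)
        (keyOf fun x => (ω (Sum.inl (⟨j, hj⟩, false, x))).val)
        (fun x => decide (ω (Sum.inl (⟨j, hj⟩, true, x)) = 0)) (r + 1) x
      simp only [nb, mem_insert, mem_singleton] at this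
      rcases this with h | h | h
      · rw [h]; exact hG x
      · rw [h]; exact ih x
      · rw [h]; exact hfG _ x
    · exact ih x

theorem Hs_dep (j : ℕ) : Dep (fun ω : IX K V → Fin (n + 2) => Hs f r j ω)
    (univ.filter (fun i => ∃ (k : Fin K) (b : Bool) (x : V), i = Sum.inl (k, b, x) ∧
      k.val < j)) := by
  induction j with
  | zero => intro ω ω' _; rfl
  | succ j ih =>
    intro ω ω' hh
    have h1 : Hs f r j ω = Hs f r j ω' := ih ω ω' fun i hi => by
      rw [mem_filter] at hi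
      obtain ⟨-, k, b, x, rfl, hk⟩ := hi
      exact hh _ (by rw [mem_filter]; exact ⟨mem_univ _, k, b, x, rfl, by omega⟩)
    change Hs f r (j + 1) ω = Hs f r (j + 1) ω'
    rw [Hs, Hs, h1]
    split_ifs with hj
    · have h2 : ∀ b x, ω (Sum.inl (⟨j, hj⟩, b, x)) = ω' (Sum.inl (⟨j, hj⟩, b, x)) := by
        intro b x
        exact hh _ (by rw [mem_filter]; exact ⟨mem_univ _, ⟨j, hj⟩, b, x, rfl, by simp⟩)
      simp_rw [h2]
    · rfl

theorem Hs_local {G : V → Finset V} (hG : ∀ x, x ∈ G x) (hfG : ∀ i x, f i x ∈ G x) (j : ℕ)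
    (u : V) (ω ω' : IX K V → Fin (n + 2))
    (hag : ∀ (k : Fin K) (b : Bool), ∀ x ∈ ball G (j * (r + 2)) u,
      ω (Sum.inl (k, b, x)) = ω' (Sum.inl (k, b, x))) : Hs f r j ω u = Hs f r j ω' u := by
  induction j generalizing u with
  | zero => rfl
  | succ j ih =>
    have hsub : ∀ x ∈ ball G (r + 1 + 1) u, ball G (j * (r + 2)) x ⊆
        ball G ((j + 1) * (r + 2)) u := by
      intro x hx y hy
      have := ball_trans hx hy
      have e : r + 1 + 1 + j * (r + 2) = (j + 1) * (r + 2) := by ring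
      rwa [e] at this
    have hself : ∀ x ∈ ball G (r + 1 + 1) u, x ∈ ball G ((j + 1) * (r + 2)) u :=
      fun x hx => hsub x hx (ball_self hG _ x)
    rw [Hs, Hs]
    split_ifs with hj
    · refine mrg_congr (G := G) (fun x => ⟨hG x, Hs_mem hG hfG j ω x, hfG _ x⟩) (keyOf_inj _)
        u (r + 1) ?_ ?_ ?_
      · intro x hx
        exact ih x fun k b y hy => hag k b y (hsub x hx hy)
      · intro x hx
        unfold keyOf
        beta_reduce
        rw [hag ⟨j, hj⟩ false x (hself x hx)]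
      · intro x hx
        rw [hag ⟨j, hj⟩ true x (hself x hx)]
    · refine ih u fun k b y hy => hag k b y (hsub u ?_ hy)
      exact ball_self hG _ u

theorem Hs_prob {θ : ℝ} (h0 : 0 ≤ θ) (h1 : θ ≤ 1) (hf : ∀ i x, f i (f i x) = x)
    {η : ℝ} (hη : 4 * (1 / ((r : ℝ) + 1) + 1 / ((n : ℝ) + 2)) ≤ η) (hη1 : η ≤ 1)
    {u v : V} (huv : u ≠ v) (j : ℕ) (hj : j ≤ K) :
    (j : ℝ) * PP (smu K n V θ) (fun ω => Hs f r j ω u = v) ≤
      ∑ i ∈ univ.filter (fun i : Fin K => i.val < j), ind (f i u = v) ∧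
    (1 - η) ^ j * ∑ i ∈ univ.filter (fun i : Fin K => i.val < j), ind (f i u = v) ≤
      j * PP (smu K n V θ) (fun ω => Hs f r j ω u = v) := by
  have hμ := smu_pr K n V h0 h1
  induction j with
  | zero => simp
  | succ j ih =>
    have hjK : j < K := hj
    obtain ⟨ih1, ih2⟩ := ih (by omega)
    have hins : univ.filter (fun i : Fin K => i.val < j + 1) =
        insert ⟨j, hjK⟩ (univ.filter (fun i : Fin K => i.val < j)) := by
      ext i
      simp only [mem_filter, mem_univ, true_and, mem_insert, Fin.ext_iff]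
      omega
    have hni : (⟨j, hjK⟩ : Fin K) ∉ univ.filter (fun i : Fin K => i.val < j) := by simp
    rw [hins, sum_insert hni]
    set c := ∑ i ∈ univ.filter (fun i : Fin K => i.val < j), ind (f i u = v) with hc
    have hc0 : 0 ≤ c := sum_nonneg fun _ _ => ind_nonneg _
    set lam : ℝ := (j : ℝ) / (j + 1) with hlam
    have hl0 : 0 ≤ lam := by positivity
    have hl1 : lam ≤ 1 := by rw [hlam, div_le_one (by positivity)]; linarith
    have hstep := step_bounds (n := n) hμ (la := fun x => Sum.inl (⟨j, hjK⟩, false, x))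
      (co := fun x => Sum.inl (⟨j, hjK⟩, true, x)) (fun x y h => by simpa using h)
      (fun x a => rfl)
      (S := univ.filter (fun i => ∃ (k : Fin K) (b : Bool) (x : V), i = Sum.inl (k, b, x) ∧
        k.val < j)) (fun x => by simp) (fun x => by simp) (fun x y => by simp) hl0 hl1
      (fun x => by simp [smu, hlam]) (Hs_dep (f := f) (r := r) j) (fun ω x => Hs_inv hf j ω x)
      (hf ⟨j, hjK⟩) r huv
    obtain ⟨s1, s2⟩ := hstep
    have e1 : PP (smu K n V θ) (fun ω => Hs f r (j + 1) ω u = v) =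
        PP (smu K n V θ) (fun ω => mrg (Hs f r j ω) (f ⟨j, hjK⟩)
          (keyOf fun x => (ω (Sum.inl (⟨j, hjK⟩, false, x))).val)
          (fun x => decide (ω (Sum.inl (⟨j, hjK⟩, true, x)) = 0)) (r + 1) u = v) := by
      apply PP_congr
      intro ω
      rw [Hs_succ hjK]
    rw [e1]
    set Q := PP (smu K n V θ) (fun ω => mrg (Hs f r j ω) (f ⟨j, hjK⟩)
          (keyOf fun x => (ω (Sum.inl (⟨j, hjK⟩, false, x))).val)
          (fun x => decide (ω (Sum.inl (⟨j, hjK⟩, true, x)) = 0)) (r + 1) u = v) with hQ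
    set P := PP (smu K n V θ) (fun ω => Hs f r j ω u = v) with hP
    have hP0 : 0 ≤ P := PP_nonneg hμ _
    set b := ind (f ⟨j, hjK⟩ u = v) with hb
    have hb0 : 0 ≤ b := ind_nonneg _
    have hj1 : (0 : ℝ) < (j : ℝ) + 1 := by positivity
    have e2 : ((j : ℝ) + 1) * (lam * P + (1 - lam) * b) = j * P + b := by
      rw [hlam]
      field_simp
      ring
    push_cast
    constructor
    · calc ((j : ℝ) + 1) * Q ≤ ((j : ℝ) + 1) * (lam * P + (1 - lam) * b) :=
            mul_le_mul_of_nonneg_left s1 hj1.le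
        _ = j * P + b := e2
        _ ≤ b + c := by linarith
    · have h5 : (1 - η) * (j * P + b) ≤ ((j : ℝ) + 1) * Q := by
        rw [← e2]
        have h6 : (1 - η) * (lam * P + (1 - lam) * b) ≤ Q := by
          refine le_trans ?_ s2
          apply mul_le_mul_of_nonneg_right (by linarith)
          have : 0 ≤ 1 - lam := by linarith
          positivity
        nlinarith
      refine le_trans ?_ h5
      rw [pow_succ', mul_assoc]
      apply mul_le_mul_of_nonneg_left _ (by linarith)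
      have h7 : (1 - η) ^ j ≤ 1 := by
        apply pow_le_one₀ (by linarith)
        have : 0 ≤ η := le_trans (by positivity) hη
        linarith
      nlinarith

/-- the thinned involution -/
noncomputable def Ht {K n : ℕ} (f : Fin K → V → V) (r : ℕ) (ω : IX K V → Fin (n + 2)) (u : V) :
    V :=
  if ω (Sum.inr u) = 0 ∧ ω (Sum.inr (Hs f r K ω u)) = 0 then Hs f r K ω u else u

theorem Ht_inv (hf : ∀ i x, f i (f i x) = x) (ω : IX K V → Fin (n + 2)) (x : V) :
    Ht f r ω (Ht f r ω x) = x := by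
  by_cases h : ω (Sum.inr x) = 0 ∧ ω (Sum.inr (Hs f r K ω x)) = 0
  · have e1 : Ht f r ω x = Hs f r K ω x := by unfold Ht; rw [if_pos h]
    rw [e1]
    unfold Ht
    rw [Hs_inv hf, if_pos ⟨h.2, h.1⟩]
  · have e1 : Ht f r ω x = x := by unfold Ht; rw [if_neg h]
    rw [e1, e1]

theorem Ht_cases (ω : IX K V → Fin (n + 2)) (x : V) :
    Ht f r ω x = x ∨ Ht f r ω x = Hs f r K ω x := by
  unfold Ht
  split_ifs
  · exact Or.inr rfl
  · exact Or.inl rfl

/-- location of the bits -/
def locS {K : ℕ} : IX K V → Finset V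
  | Sum.inl (_, _, x) => {x}
  | Sum.inr x => {x}

theorem Ht_local {G : V → Finset V} (hG : ∀ x, x ∈ G x) (hfG : ∀ i x, f i x ∈ G x) (u : V) :
    Dep (fun ω : IX K V → Fin (n + 2) => Ht f r ω u)
      (sup locS (ball G (K * (r + 2) + 1) u)) := by
  intro ω ω' hh
  have h1 : ∀ i : IX K V, ∀ x, locS i = {x} → x ∈ ball G (K * (r + 2) + 1) u → ω i = ω' i := by
    intro i x hi hx
    apply hh
    rw [mem_sup, hi]
    exact ⟨singleton_nonempty x, singleton_subset_iff.2 hx⟩
  have e1 : Hs f r K ω u = Hs f r K ω' u := by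
    apply Hs_local hG hfG
    intro k b x hx
    exact h1 _ x rfl (ball_mono hG (by omega) u hx)
  have e2 : ω (Sum.inr u) = ω' (Sum.inr u) := h1 _ u rfl (ball_self hG _ u)
  have e3 : ω (Sum.inr (Hs f r K ω' u)) = ω' (Sum.inr (Hs f r K ω' u)) := by
    refine h1 _ _ rfl (ball_mono hG (show 1 ≤ _ by omega) u ?_)
    rw [ball_one]
    exact Hs_mem hG hfG K ω' u
  change Ht f r ω u = Ht f r ω' u
  unfold Ht
  rw [e1, e2, e3]

theorem Ht_prob {θ : ℝ} (h0 : 0 ≤ θ) (h1 : θ ≤ 1) {u v : V} (huv : u ≠ v) :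
    PP (smu K n V θ) (fun ω => Ht f r ω u = v) =
      (1 - θ) ^ 2 * PP (smu K n V θ) (fun ω => Hs f r K ω u = v) := by
  have hμ := smu_pr K n V h0 h1
  have e1 : ∀ ω : IX K V → Fin (n + 2), (Ht f r ω u = v) ↔
      (Hs f r K ω u = v ∧ (ω (Sum.inr u) = 0 ∧ ω (Sum.inr v) = 0)) := by
    intro ω
    unfold Ht
    constructor
    · intro h
      split_ifs at h with h2
      · exact ⟨h, h2.1, by rw [← h]; exact h2.2⟩
      · exact absurd h huv
    · rintro ⟨h2, h3, h4⟩
      rw [if_pos ⟨h3, by rw [h2]; exact h4⟩, h2]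
  rw [PP_congr _ e1]
  have hc : ∀ x : V, PP (smu K n V θ) (fun ω => ω (Sum.inr x) = 0) = 1 - θ := by
    intro x
    unfold PP
    rw [EE_coord hμ (Sum.inr x) (fun a => ind (a = 0)), sum_eq_single 0]
    · rw [ind_true rfl, mul_one]
      simp [smu]
    · intro b _ hb
      rw [ind_false hb, mul_zero]
    · intro hx
      exact absurd (mem_univ _) hx
  have d1 : ∀ x : V, Dep (fun ω : IX K V → Fin (n + 2) => ω (Sum.inr x) = 0) {Sum.inr x} := by
    intro x ω ω' hh
    change (ω (Sum.inr x) = 0) = (ω' (Sum.inr x) = 0)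
    rw [hh _ (mem_singleton_self _)]
  have d2 : Dep (fun ω : IX K V → Fin (n + 2) => ω (Sum.inr u) = 0 ∧ ω (Sum.inr v) = 0)
      {Sum.inr u, Sum.inr v} :=
    ((d1 u).mono (by simp)).comp₂ ((d1 v).mono (by simp)) And
  rw [PP_indep hμ ((Hs_dep (f := f) (r := r) K).comp (fun h => h u = v)) d2,
    PP_indep hμ (d1 u) (d1 v), hc, hc]
  · ring
  · simpa using huv
  · rw [disjoint_left]
    intro i hi hi'
    rw [mem_filter] at hi
    obtain ⟨-, k, b, x, rfl, -⟩ := hi
    simp at hi'

theorem Ht_fix {θ : ℝ} (h0 : 0 ≤ θ) (h1 : θ ≤ 1) (T : Finset V) :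
    θ ^ T.card ≤ PP (smu K n V θ) (fun ω => ∀ x ∈ T, Ht f r ω x = x) := by
  have hμ := smu_pr K n V h0 h1
  have e1 := EE_prod_sub hμ (la := fun x : V => (Sum.inr x : IX K V))
    (fun x y h => by simpa using h) T (fun _ a => ind (a ≠ 0))
  have e2 : ∀ y : V, ∑ a : Fin (n + 2), smu K n V θ (Sum.inr y) a * ind (a ≠ 0) = θ := by
    intro y
    rw [sum_eq_single 1]
    · rw [ind_true (by simp), mul_one]
      simp [smu]
    · intro b _ hb
      by_cases hb0 : b = 0
      · rw [ind_false (by simpa using hb0), mul_zero]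
      · simp [smu, hb0, hb]
    · intro hx
      exact absurd (mem_univ _) hx
  rw [prod_congr rfl fun y _ => e2 y, prod_const] at e1
  rw [← e1]
  refine EE_mono hμ fun ω => ?_
  by_cases h : ∀ x ∈ T, Ht f r ω x = x
  · rw [ind_true h]
    exact prod_le_one (fun _ _ => ind_nonneg _) fun _ _ => ind_le_one _
  · rw [ind_false h]
    push Not at h
    obtain ⟨x, hx, hne⟩ := h
    rw [prod_eq_zero hx]
    apply ind_false
    intro h2
    apply hne
    unfold Ht
    rw [if_neg fun h3 => h2 h3.1]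

end

end K3h83.CI
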