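import Pool.Agent.K3h83.CI.A5

/-!
# Removing a slice of matchings
-/

set_option autoImplicit false
set_option linter.unusedSectionVars false

namespace K3h83.CI

open Finset Filter Topology

/-- numerical condition for the local lemma -/
theorem num_lll (c C : ℝ) (hc : 0 < c) (K : ℕ) :
    ∃ T : ℕ, ∀ t : ℕ, T ≤ t → C * Real.exp (-(c * t)) * ((3 * t + 1 : ℕ) : ℝ) ^ K ≤ 1 := by
  have h1 : Tendsto (fun x : ℝ => x ^ K * Real.exp (-c * x)) atTop (𝓝 0) := by
    have := Real.tendsto_pow_mul_exp_neg_atTop_nhds_zero K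
    have h2 : Tendsto (fun x : ℝ => c * x) atTop atTop := tendsto_id.const_mul_atTop hc
    have h3 := (this.comp h2).const_mul ((1 / c) ^ K)
    rw [mul_zero] at h3
    refine h3.congr fun x => ?_
    simp only [Function.comp]
    have e : (1 / c) ^ K * c ^ K = 1 := by
      rw [← mul_pow, one_div_mul_cancel hc.ne', one_pow]
    rw [mul_pow, show -(c * x) = -c * x by ring]
    calc (1 / c) ^ K * (c ^ K * x ^ K * Real.exp (-c * x)) =
        ((1 / c) ^ K * c ^ K) * (x ^ K * Real.exp (-c * x)) := by ring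
      _ = _ := by rw [e, one_mul]
  have h2 : Tendsto (fun x : ℝ => |C| * 4 ^ K * (x ^ K * Real.exp (-c * x))) atTop (𝓝 0) := by
    have := h1.const_mul (|C| * 4 ^ K)
    rwa [mul_zero] at this
  have h3 := (tendsto_order.1 h2).2 1 one_pos
  obtain ⟨x₀, hx₀⟩ := eventually_atTop.1 h3
  obtain ⟨T, hT⟩ := exists_nat_ge (max x₀ 1)
  refine ⟨T, fun t ht => ?_⟩
  have ht' : max x₀ 1 ≤ (t : ℝ) := hT.trans (by exact_mod_cast ht)
  have h4 := hx₀ t ((le_max_left _ _).trans ht')
  have ht1 : (1 : ℝ) ≤ t := (le_max_right _ _).trans ht'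
  have h5 : ((3 * t + 1 : ℕ) : ℝ) ^ K ≤ (4 * t) ^ K := by
    apply pow_le_pow_left₀ (by positivity)
    push_cast
    linarith
  calc C * Real.exp (-(c * t)) * ((3 * t + 1 : ℕ) : ℝ) ^ K
      ≤ |C| * Real.exp (-(c * t)) * ((3 * t + 1 : ℕ) : ℝ) ^ K := by
        apply mul_le_mul_of_nonneg_right _ (by positivity)
        exact mul_le_mul_of_nonneg_right (le_abs_self C) (Real.exp_pos _).le
    _ ≤ |C| * Real.exp (-(c * t)) * (4 * t) ^ K :=
        mul_le_mul_of_nonneg_left h5 (by positivity)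
    _ = |C| * 4 ^ K * ((t : ℝ) ^ K * Real.exp (-c * t)) := by
        rw [mul_pow]
        ring_nf
    _ ≤ 1 := h4.le

theorem finite_max {α : Type} (s : Finset α) (f : α → ℕ) : ∃ T : ℕ, ∀ i ∈ s, f i ≤ T :=
  ⟨s.sup f, fun _ hi => le_sup hi⟩

/-- an edge is medium at three scales at most -/
theorem med_count {V ι : Type} [Fintype V] [DecidableEq V] [Fintype ι] [DecidableEq ι]
    {ev : ι → Finset V} {t : ℕ} (h3 : Hyp3 ev t) (κs : ℕ → ℝ) (hdec : ∀ j, κs (j + 1) ≤ κs j)
    (J : ℕ) (f : ι) (S : Finset (Fin J))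
    (hS : ∀ j ∈ S, ¬ nomed ev (κs j * t) (κs (j + 1) * t) f) : S.card ≤ 3 := by
  classical
  have hanti : ∀ i j, i ≤ j → κs j ≤ κs i := fun i j hij =>
    Nat.le_induction le_rfl (fun n _ ih => (hdec n).trans ih) j hij
  have hex : ∀ j ∈ S, ∃ q, q ⊆ ev f ∧ q.card = 2 ∧ (cd ev q : ℝ) < κs j * t ∧
      κs (j + 1) * t ≤ cd ev q := by
    intro j hj
    have := hS j hj
    unfold nomed at this
    push Not at this
    obtain ⟨q, h1, h2, h4, h5⟩ := this
    exact ⟨q, h1, h2, h4, h5⟩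
  choose! q hq1 hq2 hq3 hq4 using hex
  have hinj : ∀ i ∈ S, ∀ j ∈ S, q i = q j → i = j := by
    have key : ∀ i ∈ S, ∀ j ∈ S, i < j → q i ≠ q j := by
      intro i hi j hj hij he
      have h4 := hq4 i hi
      have h5 := hq3 j hj
      rw [he] at h4
      have h6 : κs j ≤ κs (i + 1) := hanti _ _ hij
      have h7 : κs j * t ≤ κs (i + 1) * t := mul_le_mul_of_nonneg_right h6 (Nat.cast_nonneg t)
      linarith
    intro i hi j hj he
    rcases lt_trichotomy i j with h | h | h
    · exact absurd he (key i hi j hj h)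
    · exact h
    · exact absurd he.symm (key j hj i hi h)
  have h1 : S.card ≤ ((ev f).powersetCard 2).card := by
    apply card_le_card_of_injOn q
    · intro j hj
      rw [mem_coe, mem_powersetCard]
      exact ⟨hq1 j hj, hq2 j hj⟩
    · intro i hi j hj he
      exact hinj i hi j hj he
  rw [card_powersetCard, h3.card3 f] at h1
  exact h1

/-- **slice** -/
theorem slice (θ : ℝ) (hθ : 0 < θ) (hθ1 : θ < 1) :
    ∃ T : ℕ, ∀ t : ℕ, T ≤ t → ∀ (V ι : Type) [Fintype V] [DecidableEq V] [Fintype ι]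
      [DecidableEq ι] (ev : ι → Finset V), Hyp3 ev t →
      ∃ (m : ℕ) (M : Fin m → Finset ι), 1 ≤ m ∧ m ≤ t ∧
        (∀ j, ∀ e ∈ M j, ∀ f ∈ M j, e ≠ f → Disjoint (ev e) (ev f)) ∧
        ∀ v, ((univ.filter (fun f => v ∈ ev f ∧ f ∉ univ.biUnion M)).card : ℝ) ≤
          t - 2 / 3 * (1 - θ) * m := by
  classical
  set δ : ℝ := θ / 9 with hδ
  have hδ0 : 0 < δ := by positivity
  have hδ1 : δ ≤ 1 / 9 := by rw [hδ]; linarith
  obtain ⟨κn, hκn, hnib⟩ := MNib_all δ hδ0 δ hδ0
  choose! κ' Cw kk C₀ hκ'0 hκ'1 hCw hstage using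
    fun (κ : ℝ) (hκ : 0 < κ) => stageA δ hδ0 (by linarith) κn hκn κ hκ
  -- the scales
  set κs : ℕ → ℝ := fun j => Nat.rec 1 (fun _ x => κ' x) j with hκs
  have hκs0 : ∀ j, 0 < κs j := by
    intro j
    induction j with
    | zero => exact one_pos
    | succ j ih => exact hκ'0 (κs j) ih
  have hdec : ∀ j, κs (j + 1) ≤ κs j := fun j => hκ'1 (κs j) (hκs0 j)
  have hanti : ∀ i j, i ≤ j → κs j ≤ κs i := fun i j hij =>
    Nat.le_induction le_rfl (fun n _ ih => (hdec n).trans ih) j hij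
  obtain ⟨J, hJ⟩ : ∃ J : ℕ, 3 / δ ≤ J := exists_nat_ge _
  have hJ0 : (0 : ℝ) < J := lt_of_lt_of_le (by positivity) hJ
  have hJn : 0 < J := by exact_mod_cast hJ0
  have h3J : 3 ≤ δ * J := by
    rw [div_le_iff₀ hδ0] at hJ
    linarith
  -- bound for the weights
  obtain ⟨Cm, hCm⟩ : ∃ Cm : ℕ, ∀ j ∈ (univ : Finset (Fin J)), ⌈Cw (κs j)⌉₊ ≤ Cm :=
    finite_max _ _
  have hCm' : ∀ j : Fin J, Cw (κs j) ≤ Cm + 1 := by
    intro j
    have h1 := Nat.le_ceil (Cw (κs j))
    have h2 : ((⌈Cw (κs j)⌉₊ : ℕ) : ℝ) ≤ Cm := by exact_mod_cast hCm j (mem_univ j)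
    linarith
  set ζ : ℝ := min (κn / (J * (Cm + 1))) (δ / J) with hζ
  have hζ0 : 0 < ζ := lt_min (by positivity) (by positivity)
  have hζ1 : ζ * (J * (Cm + 1)) ≤ κn := by
    have : ζ ≤ κn / (J * (Cm + 1)) := min_le_left _ _
    rwa [le_div_iff₀ (by positivity)] at this
  have hζ2 : ζ * J ≤ δ := by
    have : ζ ≤ δ / J := min_le_right _ _
    rwa [le_div_iff₀ hJ0] at this
  -- thresholds
  choose TA hTA using fun j : Fin J => num_lll (δ ^ 2 * ζ / 4) 4 (by positivity)
    (2 * kk (κs j))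
  obtain ⟨TB, hTB⟩ := num_lll (κn * ζ / 2) 8 (by positivity) 6
  obtain ⟨T1, hT1⟩ := finite_max (univ : Finset (Fin J)) TA
  obtain ⟨T2, hT2⟩ := exists_nat_ge (2 / ζ)
  obtain ⟨T3, hT3⟩ := exists_nat_ge (1 / κs J)
  obtain ⟨T4, hT4⟩ := exists_nat_ge ((∑ j : Fin J, (C₀ (κs j) : ℝ)) / δ)
  refine ⟨T1 + TB + T2 + T3 + T4 + 1, ?_⟩
  intro t ht V ι _ _ _ _ ev h3
  have ht0 : (0 : ℝ) < t := by
    have : 0 < t := by omega
    exact_mod_cast this
  have htζ : 2 / ζ ≤ t := hT2.trans (by exact_mod_cast (by omega : T2 ≤ t))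
  have htζ' : 2 ≤ ζ * t := by
    rw [div_le_iff₀ hζ0] at htζ
    linarith
  set m' : ℕ := ⌊ζ * t⌋₊ with hm'
  have hm'1 : (m' : ℝ) ≤ ζ * t := Nat.floor_le (by positivity)
  have hm'2 : ζ * t / 2 ≤ m' := by
    have := Nat.lt_floor_add_one (ζ * t)
    rw [← hm'] at this
    linarith
  have hm'3 : (1 : ℝ) ≤ m' := by linarith
  have hm'n : 1 ≤ m' := by exact_mod_cast hm'3
  have hκt : ∀ j : Fin J, 1 ≤ κ' (κs j) * t := by
    intro j
    have h1 : κs J ≤ κs (j + 1) := hanti _ _ j.isLt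
    have h2 : 1 / κs J ≤ t := hT3.trans (by exact_mod_cast (by omega : T3 ≤ t))
    rw [div_le_iff₀ (hκs0 J)] at h2
    have h4 : κs J * t ≤ κs (j + 1) * t := mul_le_mul_of_nonneg_right h1 ht0.le
    have h5 : κs (j + 1) = κ' (κs j) := rfl
    rw [h5] at h4
    linarith
  have hDc : ∀ v, (NH ev v).card ≤ 3 * t + 1 := NH_card h3
  have hLA : ∀ j : Fin J, 4 * Real.exp (-(δ ^ 2 * m' / 2)) *
      ((3 * t + 1 : ℕ) : ℝ) ^ (2 * kk (κs j)) ≤ 1 := by
    intro j
    refine le_trans ?_ (hTA j t (by have := hT1 j (mem_univ j); omega))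
    apply mul_le_mul_of_nonneg_right _ (by positivity)
    apply mul_le_mul_of_nonneg_left _ (by norm_num)
    rw [Real.exp_le_exp, neg_le_neg_iff]
    have := mul_le_mul_of_nonneg_left hm'2 (sq_nonneg δ)
    nlinarith
  -- stage A at each scale
  have hst : ∀ j : Fin J, ∃ (A : ι → Finset (Finset V)) (w : Fin m' → ι → ℝ),
          (∀ e, ∀ c ∈ A e, c.Nonempty ∧ c ⊆ ev e) ∧
          (∀ i, H115R4.Good A (w i) 3 κn) ∧
          (∀ i v, ∃ c, ∀ e, v ∈ ev e → 0 < w i e → c ∈ A e) ∧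
          (∀ i e, w i e ≤ Cw (κs j) / t) ∧
          ∀ (v : V) (T : Finset ι), (∀ f ∈ T, v ∈ ev f ∧
            nomed ev (κs j * t) (κ' (κs j) * t) f) →
            m' * (2 / 3 * (1 - 2 * δ) * ((T.card : ℝ) - C₀ (κs j)) / t) - δ * m' ≤
              ∑ i, ∑ e ∈ univ.filter (fun e => v ∈ ev e), w i e := fun j =>
    hstage (κs j) (hκs0 j) V ι ev t h3 (hκt j) m' (3 * t + 1) δ hδ0 hDc (hLA j)
  choose A w hA1 hA2 hA3 hA4 hA5 using hst
  -- all copies together
  set m : ℕ := m' * J with hm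
  set A' : Fin m → ι → Finset (Finset V) := fun c => A (finProdFinEquiv.symm c).2 with hA'
  set w' : Fin m → ι → ℝ := fun c => w (finProdFinEquiv.symm c).2 (finProdFinEquiv.symm c).1
    with hw'
  have hmr : (m : ℝ) = m' * J := by rw [hm]; push_cast; ring
  have hmt : (m : ℝ) ≤ δ * t := by
    rw [hmr]
    calc (m' : ℝ) * J ≤ ζ * t * J := mul_le_mul_of_nonneg_right hm'1 hJ0.le
      _ = (ζ * J) * t := by ring
      _ ≤ δ * t := mul_le_mul_of_nonneg_right hζ2 ht0.le
  have hcfg : Cfg m (3 * t + 1) (NH ev) ev A' w' κn := by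
    refine ⟨NH_self, NH_symm, hDc, fun e u hu v hv => NH_edge e u hu v hv,
      fun c e b hb => hA1 _ e b hb, fun c => hA2 _ _, fun c v => hA3 _ _ v, fun c e => ?_⟩
    have h1 := hA4 (finProdFinEquiv.symm c).2 (finProdFinEquiv.symm c).1 e
    have h2 := hCm' (finProdFinEquiv.symm c).2
    have h4 : w' c e ≤ ((Cm : ℝ) + 1) / t :=
      h1.trans (div_le_div_of_nonneg_right h2 ht0.le)
    calc (m : ℝ) * w' c e ≤ m * (((Cm : ℝ) + 1) / t) :=
          mul_le_mul_of_nonneg_left h4 (Nat.cast_nonneg m)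
      _ = m' * J * (Cm + 1) / t := by rw [hmr]; ring
      _ ≤ ζ * t * J * (Cm + 1) / t := by
          apply div_le_div_of_nonneg_right _ ht0.le
          apply mul_le_mul_of_nonneg_right _ (by positivity)
          exact mul_le_mul_of_nonneg_right hm'1 hJ0.le
      _ = ζ * (J * (Cm + 1)) := by field_simp
      _ ≤ κn := hζ1
  have hLB : 8 * Real.exp (-(κn * m)) * ((3 * t + 1 : ℕ) : ℝ) ^ 6 ≤ 1 := by
    refine le_trans ?_ (hTB t (by omega))
    apply mul_le_mul_of_nonneg_right _ (by positivity)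
    apply mul_le_mul_of_nonneg_left _ (by norm_num)
    rw [Real.exp_le_exp, neg_le_neg_iff, hmr]
    have hJ1 : (1 : ℝ) ≤ J := by exact_mod_cast hJn
    have h1 : ζ * t / 2 ≤ m' * J := by
      have : (m' : ℝ) * 1 ≤ m' * J := mul_le_mul_of_nonneg_left hJ1 (Nat.cast_nonneg _)
      linarith
    have := mul_le_mul_of_nonneg_left h1 hκn.le
    nlinarith
  obtain ⟨M, hM1, hM2, hM3⟩ := hnib V ι m (3 * t + 1) (NH ev) ev A' w' hcfg hLB
  have hmn : 1 ≤ m := by
    rw [hm]
    exact Nat.mul_pos hm'n hJn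
  refine ⟨m, M, hmn, ?_, hM2, fun v => ?_⟩
  · have : (m : ℝ) ≤ t := by nlinarith
    exact_mod_cast this
  · set dv := (univ.filter (fun f => v ∈ ev f)).card with hdv
    have hdvt : (dv : ℝ) ≤ t := by exact_mod_cast h3.deg v
    have hsplit : (univ.filter (fun f => v ∈ ev f ∧ f ∉ univ.biUnion M)).card +
        ((univ.biUnion M).filter (fun f => v ∈ ev f)).card = dv := by
      rw [hdv, ← card_filter_add_card_filter_not (s := univ.filter (fun f => v ∈ ev f))
        (fun f => f ∉ univ.biUnion M)]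
      congr 1
      · rw [filter_filter]
      · congr 1
        ext f
        simp only [mem_filter, mem_univ, true_and, not_not]
        exact and_comm
    have hsplit' : ((univ.filter (fun f => v ∈ ev f ∧ f ∉ univ.biUnion M)).card : ℝ) +
        (((univ.biUnion M).filter (fun f => v ∈ ev f)).card : ℝ) = dv := by
      exact_mod_cast hsplit
    have hm0 : (0 : ℝ) ≤ m := Nat.cast_nonneg m
    by_cases hlow : (dv : ℝ) < t - m
    · have h1 : (0 : ℝ) ≤ (((univ.biUnion M).filter (fun f => v ∈ ev f)).card : ℝ) :=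
        Nat.cast_nonneg _
      have h2 : 2 / 3 * (1 - θ) * (m : ℝ) ≤ 1 * m :=
        mul_le_mul_of_nonneg_right (by linarith) hm0
      linarith
    · push Not at hlow
      -- total weight at `v`
      have hW : (∑ c, ∑ e ∈ univ.filter (fun e => v ∈ ev e), w' c e) =
          ∑ j : Fin J, ∑ i : Fin m', ∑ e ∈ univ.filter (fun e => v ∈ ev e), w j i e := by
        rw [← Fintype.sum_prod_type_right' (f := fun (i : Fin m') (j : Fin J) =>
          ∑ e ∈ univ.filter (fun e => v ∈ ev e), w j i e)]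
        exact Fintype.sum_equiv finProdFinEquiv.symm _ _ fun c => rfl
      set T : Fin J → Finset ι := fun j => univ.filter (fun f => v ∈ ev f ∧
        nomed ev (κs j * t) (κ' (κs j) * t) f) with hT
      have hW2 : ∑ j : Fin J, (m' * (2 / 3 * (1 - 2 * δ) * (((T j).card : ℝ) - C₀ (κs j)) / t) -
          δ * m') ≤ ∑ c, ∑ e ∈ univ.filter (fun e => v ∈ ev e), w' c e := by
        rw [hW]
        refine sum_le_sum fun j _ => hA5 j v (T j) fun f hf => ?_
        simp only [hT, mem_filter, mem_univ, true_and] at hf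
        exact hf
      -- counting scales
      have hTs : ((J : ℝ) - 3) * dv ≤ ∑ j : Fin J, ((T j).card : ℝ) := by
        have h1 : ∑ j : Fin J, ((T j).card : ℝ) = ∑ f ∈ univ.filter (fun f => v ∈ ev f),
            ((univ.filter (fun j : Fin J => nomed ev (κs j * t) (κ' (κs j) * t) f)).card : ℝ) := by
          have h2 : ∑ j : Fin J, (T j).card = ∑ f ∈ univ.filter (fun f => v ∈ ev f),
            (univ.filter (fun j : Fin J => nomed ev (κs j * t) (κ' (κs j) * t) f)).card := by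
            simp only [hT]
            simp_rw [card_filter]
            rw [sum_comm, sum_filter]
            refine sum_congr rfl fun f _ => ?_
            by_cases hv : v ∈ ev f
            · rw [if_pos hv]
              refine sum_congr rfl fun j _ => ?_
              simp [hv]
            · rw [if_neg hv]
              refine sum_eq_zero fun j _ => ?_
              simp [hv]
          exact_mod_cast h2
        rw [h1]
        have h2 : ∀ f ∈ univ.filter (fun f => v ∈ ev f), (J : ℝ) - 3 ≤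
            ((univ.filter (fun j : Fin J => nomed ev (κs j * t) (κ' (κs j) * t) f)).card : ℝ) := by
          intro f _
          have h4 := med_count h3 κs hdec J f (univ.filter
            (fun j : Fin J => ¬ nomed ev (κs j * t) (κ' (κs j) * t) f)) (fun j hj => by
              rw [mem_filter] at hj
              exact hj.2)
          have h5 := card_filter_add_card_filter_not (s := (univ : Finset (Fin J)))
            (fun j : Fin J => nomed ev (κs j * t) (κ' (κs j) * t) f)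
          rw [card_univ, Fintype.card_fin] at h5
          have h6 : J ≤ (univ.filter
            (fun j : Fin J => nomed ev (κs j * t) (κ' (κs j) * t) f)).card + 3 := by omega
          have h7 : (J : ℝ) ≤ ((univ.filter
            (fun j : Fin J => nomed ev (κs j * t) (κ' (κs j) * t) f)).card : ℝ) + 3 := by
            exact_mod_cast h6
          linarith
        calc ((J : ℝ) - 3) * dv = ∑ _f ∈ univ.filter (fun f => v ∈ ev f), ((J : ℝ) - 3) := by
              rw [sum_const, nsmul_eq_mul, hdv]; ring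
          _ ≤ _ := sum_le_sum h2
      have hC : (∑ j : Fin J, (C₀ (κs j) : ℝ)) ≤ δ * t := by
        have h1 : (∑ j : Fin J, (C₀ (κs j) : ℝ)) / δ ≤ t :=
          hT4.trans (by exact_mod_cast (by omega : T4 ≤ t))
        rw [div_le_iff₀ hδ0] at h1
        linarith
      have h2δ : (0 : ℝ) ≤ 2 / 3 * (1 - 2 * δ) := by linarith
      have hW3 : m' * (2 / 3 * (1 - 2 * δ) * (((J : ℝ) - 3) * dv - δ * t) / t) - δ * m ≤
          ∑ c, ∑ e ∈ univ.filter (fun e => v ∈ ev e), w' c e := by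
        refine le_trans ?_ hW2
        rw [sum_sub_distrib, ← mul_sum, ← sum_div, ← mul_sum, sum_sub_distrib, sum_const,
          card_univ, Fintype.card_fin, nsmul_eq_mul]
        have h1 : ((J : ℝ) - 3) * dv - δ * t ≤
            ∑ j : Fin J, ((T j).card : ℝ) - ∑ j : Fin J, (C₀ (κs j) : ℝ) := by linarith
        have h4 : 2 / 3 * (1 - 2 * δ) * (((J : ℝ) - 3) * dv - δ * t) / t ≤
            2 / 3 * (1 - 2 * δ) * (∑ j : Fin J, ((T j).card : ℝ) -
              ∑ j : Fin J, (C₀ (κs j) : ℝ)) / t := by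
          apply div_le_div_of_nonneg_right _ ht0.le
          exact mul_le_mul_of_nonneg_left h1 h2δ
        have h5 := mul_le_mul_of_nonneg_left h4 (Nat.cast_nonneg m' : (0 : ℝ) ≤ m')
        have h6 : (J : ℝ) * (δ * m') = δ * m := by rw [hmr]; ring
        linarith
      -- lower bound in terms of `m`
      have hdv1 : (1 - δ) * t ≤ dv := by linarith
      have h1 : (J : ℝ) * (1 - 3 * δ) * t ≤ ((J : ℝ) - 3) * dv - δ * t := by
        have hJ3 : (J : ℝ) * (1 - δ) ≤ (J : ℝ) - 3 := by linarith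
        have hJ4 : 0 ≤ (J : ℝ) * (1 - δ) := mul_nonneg hJ0.le (by linarith)
        have h4 : (J : ℝ) * (1 - δ) * ((1 - δ) * t) ≤ ((J : ℝ) - 3) * dv :=
          mul_le_mul hJ3 hdv1 (mul_nonneg (by linarith) ht0.le) (hJ4.trans hJ3)
        have hJ1 : (1 : ℝ) ≤ J := by exact_mod_cast hJn
        have h5 : δ * t ≤ J * (δ * t) := by
          have : 0 ≤ δ * t := by positivity
          nlinarith
        have h6 : (J : ℝ) * (1 - δ) * ((1 - δ) * t) =
            J * (1 - 2 * δ) * t + J * δ ^ 2 * t := by ring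
        have h7 : 0 ≤ (J : ℝ) * δ ^ 2 * t := by positivity
        have h8 : (J : ℝ) * (1 - 3 * δ) * t = J * (1 - 2 * δ) * t - J * (δ * t) := by ring
        linarith
      have h2 : (m : ℝ) * (2 / 3 * (1 - 2 * δ) * (1 - 3 * δ)) - δ * m ≤
          ∑ c, ∑ e ∈ univ.filter (fun e => v ∈ ev e), w' c e := by
        refine le_trans ?_ hW3
        have h4 : 2 / 3 * (1 - 2 * δ) * ((J : ℝ) * (1 - 3 * δ) * t) / t ≤
            2 / 3 * (1 - 2 * δ) * (((J : ℝ) - 3) * dv - δ * t) / t := by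
          apply div_le_div_of_nonneg_right _ ht0.le
          exact mul_le_mul_of_nonneg_left h1 h2δ
        have h5 := mul_le_mul_of_nonneg_left h4 (Nat.cast_nonneg m' : (0 : ℝ) ≤ m')
        have h6 : (m' : ℝ) * (2 / 3 * (1 - 2 * δ) * ((J : ℝ) * (1 - 3 * δ) * t) / t) =
            m * (2 / 3 * (1 - 2 * δ) * (1 - 3 * δ)) := by
          rw [hmr]
          field_simp
        linarith
      have h4 := hM3 v
      set W := ∑ c, ∑ e ∈ univ.filter (fun e => v ∈ ev e), w' c e with hWdef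
      have h5 : (1 - δ) * ((m : ℝ) * (2 / 3 * (1 - 2 * δ) * (1 - 3 * δ)) - δ * m) ≤
          (1 - δ) * W := mul_le_mul_of_nonneg_left h2 (by linarith)
      have h6 : 2 / 3 * (1 - θ) * (m : ℝ) ≤
          (1 - δ) * ((m : ℝ) * (2 / 3 * (1 - 2 * δ) * (1 - 3 * δ)) - δ * m) - δ * m := by
        have h7 : (1 - δ) * ((m : ℝ) * (2 / 3 * (1 - 2 * δ) * (1 - 3 * δ)) - δ * m) - δ * m -
            2 / 3 * (1 - 9 * δ) * m = m * (δ * (22 / 3 * δ + δ - 4 * δ ^ 2) + δ * (0)) := by
          ring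
        have hθδ : θ = 9 * δ := by rw [hδ]; ring
        rw [hθδ]
        have h8 : 0 ≤ (m : ℝ) * (δ * (22 / 3 * δ + δ - 4 * δ ^ 2) + δ * (0)) := by
          have : 0 ≤ 22 / 3 * δ + δ - 4 * δ ^ 2 := by nlinarith
          positivity
        linarith
      linarith

end K3h83.CI
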